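import Pool.Agent.Lib.Gromov.Growth

set_option autoImplicit false

namespace Pool.Agent.Lib.Gromov

open Set

/-- Virtually indicable. -/
def VI (L : Type*) [Group L] : Prop :=
  ∃ H : Subgroup L, H.FiniteIndex ∧ ∃ χ : H →* Multiplicative ℤ, ∃ h, χ h ≠ 1

lemma VI.of_subgroup {L : Type*} [Group L] (H : Subgroup L) [hH : H.FiniteIndex] (h : VI H) :
    VI L := by
  obtain ⟨K, hK, χ, k, hk⟩ := h
  refine ⟨K.map H.subtype, ⟨?_⟩,
    χ.comp (K.equivMapOfInjective H.subtype H.subtype_injective).symm.toMonoidHom,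
    K.equivMapOfInjective H.subtype H.subtype_injective k, by simpa using hk⟩
  rw [Subgroup.index_map_subtype]
  exact mul_ne_zero hK.1 hH.1

lemma exists_hom_int {L Q : Type*} [Group L] [Group Q] (ρ : L →* Q) [hfg : Group.FG ρ.range]
    (hcomm : ∀ g h, ρ g * ρ h = ρ h * ρ g) (hinf : (range ρ).Infinite) :
    ∃ χ : L →* Multiplicative ℤ, (∃ g, χ g ≠ 1) ∧ ∀ g, ρ g = 1 → χ g = 1 := by
  let inst : CommGroup ρ.range :=
    { (inferInstance : Group ρ.range) with
      mul_comm := by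
        rintro ⟨_, g, rfl⟩ ⟨_, h, rfl⟩
        exact Subtype.ext (hcomm g h) }
  obtain ⟨ι, j, hι, hj, p, hp, e, ⟨f⟩⟩ :=
    @CommGroup.equiv_free_prod_prod_multiplicative_zmod ρ.range inst hfg
  rcases isEmpty_or_nonempty j with h | ⟨⟨j₀⟩⟩
  · exfalso
    have : ∀ i, NeZero (p i ^ e i) := fun i => ⟨pow_ne_zero _ (hp i).ne_zero⟩
    have : Finite ρ.range := Finite.of_equiv _ f.toEquiv.symm
    exact hinf (toFinite (ρ.range : Set Q))
  · classical
    refine ⟨((Pi.evalMonoidHom _ j₀).comp ((MonoidHom.fst _ _).comp f.toMonoidHom)).comp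
      ρ.rangeRestrict, ?_, fun g hg => ?_⟩
    · obtain ⟨g, hg⟩ := ρ.rangeRestrict_surjective
        (f.symm (fun _ => Multiplicative.ofAdd 1, 1))
      refine ⟨g, ?_⟩
      simp [hg]
    · have : ρ.rangeRestrict g = 1 := Subtype.ext hg
      simp [this]

lemma eq_one_of_pow_close {c : ℂ} (h : ∀ j : ℕ, ‖c ^ j - 1‖ ≤ 1 / 2) : c = 1 := by
  by_contra hc
  have hδ : 0 < ‖c - 1‖ := norm_pos_iff.2 (sub_ne_zero.2 hc)
  have h1 : ∀ i : ℕ, (3 / 2) ^ i * ‖c - 1‖ ≤ ‖c ^ (2 ^ i) - 1‖ := by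
    intro i
    induction i with
    | zero => simp
    | succ i ih =>
      have e1 : c ^ (2 ^ (i + 1)) - 1 = (c ^ (2 ^ i) - 1) * (2 + (c ^ (2 ^ i) - 1)) := by
        rw [pow_succ, pow_mul]; ring
      have e2 : 3 / 2 ≤ ‖2 + (c ^ (2 ^ i) - 1)‖ := by
        have := norm_sub_norm_le (2 : ℂ) (-(c ^ (2 ^ i) - 1))
        rw [norm_neg, sub_neg_eq_add, Complex.norm_two] at this
        linarith [h (2 ^ i)]
      rw [e1, norm_mul, pow_succ]
      nlinarith [norm_nonneg (c ^ (2 ^ i) - 1)]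
  obtain ⟨i, hi⟩ := pow_unbounded_of_one_lt (1 / ‖c - 1‖) (by norm_num : (1 : ℝ) < 3 / 2)
  rw [div_lt_iff₀ hδ] at hi
  linarith [h1 i, h (2 ^ i)]

section Dist

variable {E : Type*} [NormedAddCommGroup E] [InnerProductSpace ℂ E] {L : Type*} [Group L]
  {ρ : L →* (E →L[ℂ] E)}

/-- Distance from the identity. -/
noncomputable def D (ρ : L →* (E →L[ℂ] E)) (g : L) : ℝ := ‖ρ g - 1‖

lemma D_nonneg (g : L) : 0 ≤ D ρ g := norm_nonneg _

variable (hρ : ∀ g v, ‖ρ g v‖ = ‖v‖)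
include hρ

lemma norm_rep_le (g : L) : ‖ρ g‖ ≤ 1 :=
  ContinuousLinearMap.opNorm_le_bound _ zero_le_one fun v => by rw [hρ, one_mul]

lemma norm_rep_mul_le (g : L) (T : E →L[ℂ] E) : ‖ρ g * T‖ ≤ ‖T‖ :=
  (norm_mul_le _ _).trans (mul_le_of_le_one_left (norm_nonneg _) (norm_rep_le hρ g))

lemma norm_mul_rep_le (g : L) (T : E →L[ℂ] E) : ‖T * ρ g‖ ≤ ‖T‖ :=
  (norm_mul_le _ _).trans (mul_le_of_le_one_right (norm_nonneg _) (norm_rep_le hρ g))

lemma D_mul (g h : L) : D ρ (g * h) ≤ D ρ g + D ρ h := by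
  have : ρ (g * h) - 1 = (ρ g - 1) + ρ g * (ρ h - 1) := by rw [map_mul, mul_sub, mul_one]; abel
  rw [D, this]
  exact (norm_add_le _ _).trans (add_le_add le_rfl (norm_rep_mul_le hρ _ _))

lemma D_inv_mul (g h : L) : D ρ (g⁻¹ * h) ≤ ‖ρ h - ρ g‖ := by
  have : ρ (g⁻¹ * h) - 1 = ρ g⁻¹ * (ρ h - ρ g) := by
    rw [mul_sub, ← map_mul, ← map_mul, inv_mul_cancel, map_one]
  rw [D, this]
  exact norm_rep_mul_le hρ _ _

lemma D_inv (g : L) : D ρ g⁻¹ ≤ D ρ g := by
  have := D_inv_mul hρ g 1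
  rwa [mul_one, map_one, norm_sub_rev] at this

lemma D_conj (s g : L) : D ρ (s * g * s⁻¹) ≤ D ρ g := by
  have : ρ (s * g * s⁻¹) - 1 = ρ s * (ρ g - 1) * ρ s⁻¹ := by
    rw [mul_sub, sub_mul, mul_one, ← map_mul, ← map_mul, ← map_mul, mul_inv_cancel, map_one]
  rw [D, this]
  exact (norm_mul_rep_le hρ _ _).trans (norm_rep_mul_le hρ _ _)

lemma D_pow (g : L) (i : ℕ) : D ρ (g ^ i) ≤ i * D ρ g := by
  induction i with
  | zero => simp [D]
  | succ i ih => rw [pow_succ]; push_cast; linarith [D_mul hρ (g ^ i) g]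

lemma D_comm (s h : L) : D ρ (s * h * s⁻¹ * h⁻¹) ≤ 2 * D ρ s * D ρ h := by
  have : ρ (s * h * s⁻¹ * h⁻¹) - 1 =
      ((ρ s - 1) * (ρ h - 1) - (ρ h - 1) * (ρ s - 1)) * ρ (s⁻¹ * h⁻¹) := by
    have e : (ρ s - 1) * (ρ h - 1) - (ρ h - 1) * (ρ s - 1) = ρ (s * h) - ρ (h * s) := by
      simp only [map_mul]; noncomm_ring
    rw [e, sub_mul, ← map_mul, ← map_mul]
    congr 2
    · group
    · rw [← map_one ρ]; congr 1; group
  rw [D, this]
  refine (norm_mul_rep_le hρ _ _).trans ((norm_sub_le _ _).trans ?_)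
  have e1 := norm_mul_le (ρ s - 1) (ρ h - 1)
  have e2 := norm_mul_le (ρ h - 1) (ρ s - 1)
  unfold D
  linarith

lemma D_pow_ge (g : L) {i : ℕ} (hi : 1 ≤ i) (h : i * D ρ g ≤ 1 / 2) :
    D ρ g / 2 ≤ D ρ (g ^ i) := by
  have h1 : ∀ j : ℕ, ‖ρ (g ^ j) - 1 - (j : ℝ) • (ρ g - 1)‖ ≤ (j * D ρ g) ^ 2 := by
    intro j
    induction j with
    | zero => simp
    | succ j ih =>
      have e : ρ (g ^ (j + 1)) - 1 - ((j + 1 : ℕ) : ℝ) • (ρ g - 1) =
          (ρ (g ^ j) - 1 - (j : ℝ) • (ρ g - 1)) + (ρ (g ^ j) - 1) * (ρ g - 1) := by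
        rw [pow_succ, map_mul, Nat.cast_succ, add_smul, one_smul]; noncomm_ring
      rw [e]
      refine (norm_add_le _ _).trans ?_
      have e1 := norm_mul_le (ρ (g ^ j) - 1) (ρ g - 1)
      have e2 : ‖ρ (g ^ j) - 1‖ * ‖ρ g - 1‖ ≤ j * D ρ g * D ρ g :=
        mul_le_mul_of_nonneg_right (D_pow hρ g j) (norm_nonneg _)
      have e3 := D_nonneg (ρ := ρ) g
      push_cast
      nlinarith [mul_nonneg (Nat.cast_nonneg (α := ℝ) j) (mul_nonneg e3 e3), mul_nonneg e3 e3]
  have h2 := norm_sub_norm_le ((i : ℝ) • (ρ g - 1)) (ρ (g ^ i) - 1)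
  rw [norm_sub_rev (_ • _), norm_smul, Real.norm_natCast] at h2
  have h3 := h1 i
  have h4 : (1 : ℝ) ≤ i := by exact_mod_cast hi
  have e3 := D_nonneg (ρ := ρ) g
  unfold D at *
  nlinarith [mul_nonneg (by linarith : (0 : ℝ) ≤ i - 1) e3]

lemma comm_scalar [Nontrivial E] {s h : L} (hh : D ρ h ≤ 1 / 4) {c : ℂ}
    (hc : ρ (s * h * s⁻¹ * h⁻¹) = c • 1) : c = 1 := by
  have h1 : ρ (s * h * s⁻¹) = c • ρ h := by
    rw [show s * h * s⁻¹ = s * h * s⁻¹ * h⁻¹ * h by group, map_mul, hc, smul_mul_assoc, one_mul]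
  have h2 : ∀ j : ℕ, ρ (s ^ j * h * (s ^ j)⁻¹) = c ^ j • ρ h := by
    intro j
    induction j with
    | zero => simp
    | succ j ih =>
      rw [show s ^ (j + 1) * h * (s ^ (j + 1))⁻¹ = s * (s ^ j * h * (s ^ j)⁻¹) * s⁻¹ by group,
        map_mul, map_mul, ih, mul_smul_comm, smul_mul_assoc, ← map_mul, ← map_mul, h1, smul_smul,
        pow_succ]
  refine eq_one_of_pow_close fun j => ?_
  have h3 : ‖(c ^ j - 1) • ρ h‖ ≤ 1 / 2 := by
    have : (c ^ j - 1) • ρ h = (ρ (s ^ j * h * (s ^ j)⁻¹) - 1) - (ρ h - 1) := by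
      rw [h2, sub_smul, one_smul]; abel
    rw [this]
    refine (norm_sub_le _ _).trans ?_
    have := D_conj hρ (s ^ j) h
    unfold D at *
    linarith
  obtain ⟨v, hv⟩ := exists_ne (0 : E)
  have h4 := ((c ^ j - 1) • ρ h).le_opNorm v
  rw [smul_apply, norm_smul, hρ] at h4
  exact (le_of_mul_le_mul_right h4 (norm_pos_iff.2 hv)).trans h3

lemma many_words {S : Set L} {h : ℕ → L} {M : ℕ} {ε : ℝ} (hM : 32 * M * ε ≤ 1)
    (hpos : ∀ n, 0 < D ρ (h n)) (hε : ∀ n, D ρ (h n) ≤ ε)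
    (hdec : ∀ n, D ρ (h (n + 1)) ≤ 2 * ε * D ρ (h n)) (hW : ∀ n, h n ∈ W S (3 * 2 ^ n))
    (m j : ℕ) : ∃ (F : Finset L) (len : ℕ), F.card = M ^ m ∧
      len + 3 * M * 2 ^ j ≤ 3 * M * 2 ^ (j + m) ∧ (F : Set L) ⊆ W S len ∧
      ∀ g ∈ F, D ρ g ≤ 2 * M * D ρ (h j) := by
  classical
  induction m generalizing j with
  | zero =>
    refine ⟨{1}, 0, by simp, by simp, by simpa using one_mem_W S 0, fun g hg => ?_⟩
    rw [Finset.mem_singleton.1 hg]
    have := (hpos j).le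
    simp only [D, map_one, sub_self, norm_zero] at this ⊢
    positivity
  | succ m ih =>
    obtain ⟨F, len, h1, h2, h3, h4⟩ := ih (j + 1)
    have hδ := hpos j
    have hM0 : (0 : ℝ) ≤ M := Nat.cast_nonneg M
    have h5 : ∀ g ∈ F, D ρ g ≤ D ρ (h j) / 8 := fun g hg => by
      have e1 := mul_le_mul_of_nonneg_left (hdec j) (by positivity : (0 : ℝ) ≤ 2 * M)
      nlinarith [h4 g hg]
    have h6 : ∀ a b : ℕ, a < b → b < M → ∀ g ∈ F, ∀ g' ∈ F, h j ^ a * g ≠ h j ^ b * g' := by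
      intro a b hab hb g hg g' hg' heq
      obtain ⟨i, rfl⟩ : ∃ i, b = a + i := ⟨b - a, by omega⟩
      have e1 : h j ^ i = g * g'⁻¹ := by
        rw [pow_add, mul_assoc, mul_right_inj] at heq
        rw [heq]; group
      have e2 : (i : ℝ) ≤ M := by exact_mod_cast (by omega : i ≤ M)
      have e3 := D_pow_ge hρ (h j) (i := i) (by omega) (by
        have := mul_le_mul e2 (hε j) hδ.le hM0
        linarith)
      rw [e1] at e3
      linarith [D_mul hρ g g'⁻¹, D_inv hρ g', h5 g hg, h5 g' hg']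
    refine ⟨(Finset.range M ×ˢ F).image fun p => h j ^ p.1 * p.2, 3 * 2 ^ j * M + len, ?_, ?_, ?_,
      ?_⟩
    · rw [Finset.card_image_of_injOn, Finset.card_product, Finset.card_range, h1, pow_succ']
      rintro ⟨a, g⟩ hp ⟨b, g'⟩ hq heq
      simp only [Finset.coe_product, Finset.coe_range, mem_prod, mem_Iio, Finset.mem_coe] at hp hq
      rcases lt_trichotomy a b with hab | rfl | hab
      · exact absurd heq (h6 a b hab hq.1 g hp.2 g' hq.2)
      · simpa using heq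
      · exact absurd heq.symm (h6 b a hab hp.1 g' hq.2 g hp.2)
    · rw [show j + (m + 1) = j + 1 + m by ring]
      rw [pow_succ] at h2
      nlinarith
    · intro g hg
      obtain ⟨⟨a, g'⟩, hp, rfl⟩ := Finset.mem_image.1 (Finset.mem_coe.1 hg)
      simp only [Finset.mem_product, Finset.mem_range] at hp
      exact mul_mem_W (W_mono subset_rfl (Nat.mul_le_mul_left _ hp.1.le) (pow_mem_W (hW j) a))
        (h3 hp.2)
    · intro g hg
      obtain ⟨⟨a, g'⟩, hp, rfl⟩ := Finset.mem_image.1 hg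
      simp only [Finset.mem_product, Finset.mem_range] at hp
      have e2 : (a : ℝ) + 1 ≤ M := by exact_mod_cast hp.1
      have e3 := D_mul hρ (h j ^ a) g'
      have e4 := D_pow hρ (h j) a
      have e5 := h5 g' hp.2
      have e6 : (0 : ℝ) ≤ a := Nat.cast_nonneg a
      dsimp only
      nlinarith

lemma finiteIndex_small [FiniteDimensional ℂ E] {ε : ℝ} (hε : 0 < ε) :
    (Subgroup.closure {g | D ρ g ≤ ε}).FiniteIndex := by
  rw [← bdd_univ_iff]
  have : ProperSpace (E →L[ℂ] E) := FiniteDimensional.proper_rclike ℂ _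
  have h1 : TotallyBounded (range ρ) :=
    (isCompact_closedBall (0 : E →L[ℂ] E) 1).totallyBounded.subset (by
      rintro _ ⟨g, rfl⟩; simpa using norm_rep_le hρ g)
  obtain ⟨t, ht1, ht2, ht3⟩ := Metric.finite_approx_of_totallyBounded h1 ε hε
  obtain ⟨T, -, hT1, hT2⟩ := Finite.exists_subset_finite_image_eq (f := ρ) (s := univ) ht2
    (by rwa [image_univ])
  refine bdd_of_reps hT1 fun g _ => ?_
  obtain ⟨y, hy, hy'⟩ := mem_iUnion₂.1 (ht3 ⟨g, rfl⟩)
  obtain ⟨g', hg', rfl⟩ : y ∈ ρ '' T := hT2 ▸ hy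
  refine ⟨g', hg', Subgroup.subset_closure ((D_inv_mul hρ g' g).trans ?_)⟩
  rw [← dist_eq_norm]
  exact (Metric.mem_ball.1 hy').le

end Dist

lemma exists_finite_subset_closure {L : Type*} [Group L] {T : Set L}
    (h : (Subgroup.closure T).FG) :
    ∃ S ⊆ T, S.Finite ∧ Subgroup.closure S = Subgroup.closure T := by
  have h1 : ∀ g ∈ Subgroup.closure T, ∃ S ⊆ T, S.Finite ∧ g ∈ Subgroup.closure S := by
    intro g hg
    induction hg using Subgroup.closure_induction with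
    | mem x hx => exact ⟨{x}, by simpa, finite_singleton x, Subgroup.subset_closure rfl⟩
    | one => exact ⟨∅, by simp, finite_empty, one_mem _⟩
    | mul x y _ _ hx hy =>
      obtain ⟨S, h1, h2, h3⟩ := hx
      obtain ⟨S', h1', h2', h3'⟩ := hy
      exact ⟨S ∪ S', union_subset h1 h1', h2.union h2',
        mul_mem (Subgroup.closure_mono subset_union_left h3)
          (Subgroup.closure_mono subset_union_right h3')⟩
    | inv x _ hx =>
      obtain ⟨S, h1, h2, h3⟩ := hx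
      exact ⟨S, h1, h2, inv_mem h3⟩
  obtain ⟨R, hR1, hR2⟩ := (Subgroup.fg_iff _).1 h
  choose! f hf using h1
  have hR : ∀ r ∈ R, r ∈ Subgroup.closure T := fun r hr => hR1 ▸ Subgroup.subset_closure hr
  refine ⟨⋃ r ∈ R, f r, iUnion₂_subset fun r hr => (hf r (hR r hr)).1,
    hR2.biUnion fun r hr => (hf r (hR r hr)).2.1, le_antisymm ?_ ?_⟩
  · exact Subgroup.closure_mono (iUnion₂_subset fun r hr => (hf r (hR r hr)).1)
  · rw [← hR1, Subgroup.closure_le]
    intro r hr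
    exact Subgroup.closure_mono (subset_biUnion_of_mem (u := f) hr) (hf r (hR r hr)).2.2

lemma infinite_range_subgroup {L M : Type*} [Group L] [Monoid M] (ρ : L →* M) (H : Subgroup L)
    [hH : H.FiniteIndex] (h : (range ρ).Infinite) : (range (ρ.comp H.subtype)).Infinite := by
  intro hfin
  obtain ⟨T, -, -, hT⟩ := (bdd_univ_iff.2 hH).exists_reps
  refine h (((T.finite_toSet.image ρ).image2 (· * ·) hfin).subset ?_)
  rintro _ ⟨g, rfl⟩
  obtain ⟨t, ht, h⟩ := hT g trivial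
  exact ⟨ρ t, ⟨t, ht, rfl⟩, ρ (t⁻¹ * g), ⟨⟨_, h⟩, rfl⟩, by simp [← map_mul]⟩

/-- Restriction of a representation to an invariant subspace. -/
def res {E : Type*} [NormedAddCommGroup E] [InnerProductSpace ℂ E] {L : Type*} [Group L]
    (ρ : L →* (E →L[ℂ] E)) (V : Submodule ℂ E) (hV : ∀ g, ∀ v ∈ V, ρ g v ∈ V) :
    L →* (V →L[ℂ] V) where
  toFun g := ((ρ g).comp V.subtypeL).codRestrict V fun v => hV g v v.2
  map_one' := by ext v; simp
  map_mul' g h := by ext v; simp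

universe u v

theorem shalom {d : ℕ} (k : ℕ) : ∀ (E : Type u) [NormedAddCommGroup E] [InnerProductSpace ℂ E]
    [FiniteDimensional ℂ E] (L : Type v) [Group L] [Group.FG L] (ρ : L →* (E →L[ℂ] E)),
    Module.finrank ℂ E ≤ k → WGd L d → (∀ g v, ‖ρ g v‖ = ‖v‖) → (range ρ).Infinite → VI L := by
  induction k with
  | zero =>
    intro E _ _ _ L _ _ ρ hk _ _ hinf
    have : Subsingleton E := Module.finrank_zero_iff.1 (Nat.le_zero.1 hk)
    exact absurd (toFinite _) hinf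
  | succ k ih =>
    intro E _ _ _ L _ _ ρ hk hw hρ hinf
    have hE : Nontrivial E := by
      by_contra h
      have := not_nontrivial_iff_subsingleton.1 h
      exact hinf (toFinite _)
    let C : L → Subgroup L := fun h => (Subgroup.centralizer {ρ.toHomUnits h}).comap ρ.toHomUnits
    have hC : ∀ h g, g ∈ C h ↔ ρ h * ρ g = ρ g * ρ h := fun h g => by
      simp only [C, Subgroup.mem_comap, Subgroup.mem_centralizer_iff, mem_singleton_iff, forall_eq]
      simp [Units.ext_iff]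
    by_cases hcase : ∃ h, (¬ ∃ c : ℂ, ρ h = c • 1) ∧ (C h).FiniteIndex
    · obtain ⟨h, hns, hfi⟩ := hcase
      refine VI.of_subgroup (C h) ?_
      obtain ⟨c, hc⟩ := Module.End.exists_eigenvalue (ρ h : E →ₗ[ℂ] E)
      set V := Module.End.eigenspace (ρ h : E →ₗ[ℂ] E) c with hV
      set ρ' := ρ.comp (C h).subtype
      have hρ' : ∀ g v, ‖ρ' g v‖ = ‖v‖ := fun g v => hρ g v
      have hV1 : ∀ g, ∀ v ∈ V, ρ' g v ∈ V := by
        intro g v hv
        rw [hV, Module.End.mem_eigenspace_iff] at hv ⊢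
        have e1 := DFunLike.congr_fun ((hC h g).1 g.2) v
        have e2 : ρ h v = c • v := hv
        change ρ h (ρ g v) = ρ g (ρ h v) at e1
        change ρ h (ρ g v) = c • ρ g v
        rw [e1, e2, map_smul]
      have hV2 : ∀ g, ∀ v ∈ Vᗮ, ρ' g v ∈ Vᗮ := by
        intro g v hv
        rw [Submodule.mem_orthogonal] at hv ⊢
        intro t ht
        have e1 := (LinearMap.norm_map_iff_inner_map_map (ρ' g)).1 (hρ' g) (ρ' g⁻¹ t) v
        have e2 : ρ' g (ρ' g⁻¹ t) = t := by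
          change (ρ' g * ρ' g⁻¹) t = t
          rw [← map_mul, mul_inv_cancel, map_one]; rfl
        rw [e2] at e1
        rw [e1]
        exact hv _ (hV1 _ t ht)
      have hVtop : V ≠ ⊤ := fun htop => hns ⟨c, by
        ext v
        have : v ∈ V := htop ▸ Submodule.mem_top
        exact Module.End.mem_eigenspace_iff.1 this⟩
      have hVbot : V ≠ ⊥ := hc
      have hV' : Vᗮ ≠ ⊤ := fun h => hVbot ((Submodule.orthogonal_eq_top_iff V).1 h)
      have hinf' : (range ρ').Infinite := infinite_range_subgroup ρ (C h) hinf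
      by_cases h1 : (range (res ρ' V hV1)).Infinite
      · exact ih V (C h) (res ρ' V hV1) (by have := Submodule.finrank_lt hVtop; omega)
          (hw.subgroup _) (fun g v => hρ' g v) h1
      by_cases h2 : (range (res ρ' Vᗮ hV2)).Infinite
      · exact ih Vᗮ (C h) (res ρ' Vᗮ hV2) (by have := Submodule.finrank_lt hV'; omega)
          (hw.subgroup _) (fun g v => hρ' g v) h2
      exfalso
      rw [not_infinite] at h1 h2
      refine hinf' (Finite.subset ((h1.prod h2).image fun p =>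
        V.subtypeL.comp (p.1.comp V.orthogonalProjectionOnto) +
          Vᗮ.subtypeL.comp (p.2.comp Vᗮ.orthogonalProjectionOnto)) ?_)
      rintro _ ⟨g, rfl⟩
      refine ⟨(res ρ' V hV1 g, res ρ' Vᗮ hV2 g), ⟨⟨g, rfl⟩, ⟨g, rfl⟩⟩, ?_⟩
      ext v
      change ρ' g (V.starProjection v) + ρ' g (Vᗮ.starProjection v) = ρ' g v
      rw [← map_add, Submodule.starProjection_add_starProjection_orthogonal]
    · push Not at hcase
      set M := 2 ^ (d + 1) with hM
      have hM0 : (0 : ℝ) < M := by positivity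
      have hM1 : (1 : ℝ) ≤ M := by exact_mod_cast Nat.one_le_two_pow
      set ε : ℝ := 1 / (32 * M) with hε
      have hε0 : 0 < ε := by positivity
      have hε1 : ε ≤ 1 / 4 := by
        rw [hε, div_le_div_iff₀ (by positivity) (by norm_num)]; linarith
      have hfi := finiteIndex_small hρ hε0
      set H := Subgroup.closure {g | D ρ g ≤ ε} with hH
      obtain ⟨S, hS1, hS2, hS3⟩ := exists_finite_subset_closure (T := {g | D ρ g ≤ ε})
        ((Group.fg_iff_subgroup_fg H).1 inferInstance)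
      have hcomm : ∀ h, (∀ s ∈ S, ρ h * ρ s = ρ s * ρ h) → H ≤ C h := fun h hh => by
        rw [hH, ← hS3, Subgroup.closure_le]
        exact fun s hs => (hC h s).2 (hh s hs)
      by_cases hsc : ∀ s ∈ S, ∃ c : ℂ, ρ s = c • 1
      · have h1 : ∀ g, ∀ g' ∈ H, ρ g * ρ g' = ρ g' * ρ g := fun g g' hg' =>
          (hC g g').1 (hcomm g (fun s hs => by
            obtain ⟨c, hc⟩ := hsc s hs
            rw [hc, mul_smul_comm, smul_mul_assoc, mul_one, one_mul]) hg')
        obtain ⟨χ, hχ, -⟩ := exists_hom_int (ρ.comp H.subtype).toHomUnits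
          (fun g h => Units.ext (h1 g h h.2)) (by
            refine Infinite.of_image Units.val ?_
            rw [← range_comp]
            exact infinite_range_subgroup ρ H hinf)
        exact ⟨H, hfi, χ, hχ⟩
      exfalso
      push Not at hsc
      obtain ⟨s₀, hs₀, hs₀'⟩ := hsc
      have hstep : ∀ h : {h // (∀ c : ℂ, ρ h ≠ c • 1) ∧ D ρ h ≤ ε}, ∃ s ∈ S,
          ∃ h' : {h // (∀ c : ℂ, ρ h ≠ c • 1) ∧ D ρ h ≤ ε}, h'.1 = s * h * s⁻¹ * h.1⁻¹ := by
        rintro ⟨h, h1, h2⟩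
        by_contra hcon
        refine hcase h h1 (Subgroup.finiteIndex_of_le (hcomm h fun s hs => ?_))
        by_contra hne
        refine hcon ⟨s, hs, ⟨s * h * s⁻¹ * h⁻¹, fun c hc => hne ?_, ?_⟩, rfl⟩
        · rw [comm_scalar hρ (h2.trans hε1) hc, one_smul] at hc
          rw [← map_mul, ← map_mul, show s * h = s * h * s⁻¹ * h⁻¹ * (h * s) by group,
            map_mul _ _ (h * s), hc, one_mul]
        · have e1 := D_comm hρ s h
          have e2 : D ρ s ≤ ε := hS1 hs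
          have e3 := D_nonneg (ρ := ρ) h
          nlinarith
      choose f hf nxt hnxt using hstep
      let h : ℕ → L := fun n => (nxt^[n] ⟨s₀, hs₀', hS1 hs₀⟩).1
      have hh : ∀ n, ∃ s ∈ S, h (n + 1) = s * h n * s⁻¹ * (h n)⁻¹ := fun n =>
        ⟨_, hf _, by simp only [h, Function.iterate_succ_apply']; exact hnxt _⟩
      have hsymm : ∀ a ∈ S ∪ S⁻¹, a⁻¹ ∈ S ∪ S⁻¹ := by
        rintro a (ha | ha)
        · right; simpa using ha
        · left; simpa using ha
      have hW : ∀ n, ∃ l, l + 2 = 3 * 2 ^ n ∧ h n ∈ W (S ∪ S⁻¹) l := by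
        intro n
        induction n with
        | zero => exact ⟨1, by norm_num, mem_W_one (Or.inl hs₀)⟩
        | succ n ihn =>
          obtain ⟨l, h1, h2⟩ := ihn
          obtain ⟨s, hs, e⟩ := hh n
          refine ⟨1 + l + 1 + l, by rw [pow_succ]; omega, ?_⟩
          rw [e]
          exact mul_mem_W (mul_mem_W (mul_mem_W (mem_W_one (Or.inl hs)) h2)
            (mem_W_one (hsymm s (Or.inl hs)))) (inv_mem_W hsymm h2)
      have hfin : (S ∪ S⁻¹).Finite := hS2.union hS2.inv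
      obtain ⟨m, hm⟩ := (hw _ hfin).not_exp (monotone_ncard_W hfin) (3 * M)
      obtain ⟨F, len, h1, h2, h3, -⟩ := many_words hρ (S := S ∪ S⁻¹) (h := h) (M := M) (ε := ε)
        (by rw [hε, mul_one_div_cancel (by positivity)])
        (fun n => norm_pos_iff.2 (sub_ne_zero.2 (by
          simpa using (nxt^[n] ⟨s₀, hs₀', hS1 hs₀⟩).2.1 1)))
        (fun n => (nxt^[n] ⟨s₀, hs₀', hS1 hs₀⟩).2.2)
        (fun n => by
          obtain ⟨s, hs, e⟩ := hh n
          rw [e]
          have e2 : D ρ s ≤ ε := hS1 hs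
          nlinarith [D_comm hρ s (h n), D_nonneg (ρ := ρ) (h n)])
        (fun n => by
          obtain ⟨l, h1, h2⟩ := hW n
          exact W_mono subset_rfl (by omega) h2) m 0
      have h4 := ncard_le_ncard (h3.trans (W_mono subset_rfl
        (by rw [zero_add] at h2; omega : len ≤ 3 * M * 2 ^ m))) (finite_W hfin _)
      rw [ncard_coe_finset, h1] at h4
      exact absurd hm (not_lt.2 h4)

end Pool.Agent.Lib.Gromov
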