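import Mathlib

set_option autoImplicit false

namespace Pool.Agent.Lib.Gromov

open Set

section Words

variable {Γ : Type*} [Group Γ]

/-- Products of at most `n` elements of `S`. -/
def W (S : Set Γ) (n : ℕ) : Set Γ :=
  {g | ∃ l : List Γ, (∀ a ∈ l, a ∈ S) ∧ l.length ≤ n ∧ l.prod = g}

lemma one_mem_W (S : Set Γ) (n : ℕ) : (1 : Γ) ∈ W S n := ⟨[], by simp, by simp, by simp⟩

lemma mem_W_one {S : Set Γ} {a : Γ} (h : a ∈ S) : a ∈ W S 1 := ⟨[a], by simpa, by simp, by simp⟩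

lemma W_mono {S T : Set Γ} {n m : ℕ} (h : S ⊆ T) (hn : n ≤ m) : W S n ⊆ W T m := by
  rintro g ⟨l, h1, h2, h3⟩
  exact ⟨l, fun a ha => h (h1 a ha), h2.trans hn, h3⟩

lemma mul_mem_W {S : Set Γ} {n m : ℕ} {g h : Γ} (hg : g ∈ W S n) (hh : h ∈ W S m) :
    g * h ∈ W S (n + m) := by
  obtain ⟨l, h1, h2, rfl⟩ := hg
  obtain ⟨l', h1', h2', rfl⟩ := hh
  refine ⟨l ++ l', ?_, by simp; omega, by simp⟩
  intro a ha
  rcases List.mem_append.1 ha with h | h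
  exacts [h1 a h, h1' a h]

lemma W_zero {S : Set Γ} {g : Γ} (h : g ∈ W S 0) : g = 1 := by
  obtain ⟨l, -, h2, rfl⟩ := h
  have : l = [] := List.length_eq_zero_iff.1 (by omega)
  simp [this]

lemma W_succ {S : Set Γ} {n : ℕ} {g : Γ} (h : g ∈ W S (n + 1)) :
    g ∈ W S n ∨ ∃ a ∈ S, ∃ w ∈ W S n, g = a * w := by
  obtain ⟨l, h1, h2, rfl⟩ := h
  cases l with
  | nil => left; simpa using one_mem_W S n
  | cons a l =>
    right
    refine ⟨a, h1 a (by simp), l.prod, ⟨l, fun b hb => h1 b (by simp [hb]), ?_, rfl⟩, by simp⟩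
    simpa using h2

lemma W_succ' {S : Set Γ} {n : ℕ} {g : Γ} (h : g ∈ W S (n + 1)) :
    g ∈ W S n ∨ ∃ a ∈ S, ∃ w ∈ W S n, g = w * a := by
  obtain ⟨l, h1, h2, rfl⟩ := h
  induction l using List.reverseRecOn with
  | nil => left; simpa using one_mem_W S n
  | append_singleton l a _ =>
    right
    refine ⟨a, h1 a (by simp), l.prod, ⟨l, fun b hb => h1 b (by simp [hb]), ?_, rfl⟩, by simp⟩
    simpa using h2

lemma W_subset_W {S T : Set Γ} {L : ℕ} (h : S ⊆ W T L) (n : ℕ) : W S n ⊆ W T (L * n) := by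
  induction n with
  | zero => intro g hg; rw [W_zero hg]; exact one_mem_W _ _
  | succ n ih =>
    intro g hg
    rcases W_succ hg with h' | ⟨a, ha, w, hw, rfl⟩
    · exact W_mono subset_rfl (by nlinarith) (ih h')
    · have := mul_mem_W (h ha) (ih hw)
      rwa [show L + L * n = L * (n + 1) by ring] at this

lemma pow_mem_W {S : Set Γ} {L : ℕ} {g : Γ} (hg : g ∈ W S L) (i : ℕ) : g ^ i ∈ W S (L * i) := by
  induction i with
  | zero => simpa using one_mem_W S _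
  | succ i ih => rw [pow_succ, mul_add, mul_one]; exact mul_mem_W ih hg

lemma inv_mem_W {S : Set Γ} (hS : ∀ a ∈ S, a⁻¹ ∈ S) {n : ℕ} {g : Γ} (hg : g ∈ W S n) :
    g⁻¹ ∈ W S n := by
  induction n generalizing g with
  | zero => rw [W_zero hg]; simpa using one_mem_W S 0
  | succ n ih =>
    rcases W_succ hg with h' | ⟨a, ha, w, hw, rfl⟩
    · exact W_mono subset_rfl (by omega) (ih h')
    · rw [mul_inv_rev]; exact mul_mem_W (ih hw) (mem_W_one (hS a ha))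

lemma W_subset_subgroup {S : Set Γ} {H : Subgroup Γ} (h : S ⊆ H) (n : ℕ) : W S n ⊆ H := by
  rintro g ⟨l, h1, -, rfl⟩
  exact H.list_prod_mem fun a ha => h (h1 a ha)

lemma exists_mem_W {S : Set Γ} (hS : ∀ a ∈ S, a⁻¹ ∈ S) {g : Γ} (hg : g ∈ Subgroup.closure S) :
    ∃ n, g ∈ W S n := by
  induction hg using Subgroup.closure_induction with
  | mem x hx => exact ⟨1, mem_W_one hx⟩
  | one => exact ⟨0, one_mem_W _ _⟩
  | mul x y _ _ hx hy =>
    obtain ⟨n, hn⟩ := hx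
    obtain ⟨m, hm⟩ := hy
    exact ⟨n + m, mul_mem_W hn hm⟩
  | inv x _ hx =>
    obtain ⟨n, hn⟩ := hx
    exact ⟨n, inv_mem_W hS hn⟩

lemma image_W {A : Type*} [Group A] (f : A →* Γ) (S : Set A) (n : ℕ) :
    f '' W S n = W (f '' S) n := by
  apply Subset.antisymm
  · rintro _ ⟨g, ⟨l, h1, h2, rfl⟩, rfl⟩
    refine ⟨l.map f, ?_, by simpa, by rw [map_list_prod]⟩
    intro a ha
    obtain ⟨b, hb, rfl⟩ := List.mem_map.1 ha
    exact ⟨b, h1 b hb, rfl⟩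
  · induction n with
    | zero => intro g hg; rw [W_zero hg]; exact ⟨1, one_mem_W _ _, map_one f⟩
    | succ n ih =>
      intro g hg
      rcases W_succ hg with h' | ⟨_, ⟨a, ha, rfl⟩, w, hw, rfl⟩
      · exact image_mono (W_mono subset_rfl (by omega)) (ih h')
      · obtain ⟨v, hv, rfl⟩ := ih hw
        refine ⟨a * v, ?_, map_mul f a v⟩
        have := mul_mem_W (mem_W_one ha) hv
        rwa [add_comm] at this

lemma finite_W {S : Set Γ} (hS : S.Finite) (n : ℕ) : (W S n).Finite := by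
  induction n with
  | zero => exact (finite_singleton 1).subset fun g hg => W_zero hg
  | succ n ih =>
    refine (ih.union (hS.image2 (· * ·) ih)).subset fun g hg => ?_
    rcases W_succ hg with h' | ⟨a, ha, w, hw, rfl⟩
    · exact Or.inl h'
    · exact Or.inr ⟨a, ha, w, hw, rfl⟩

/-- Schreier rewriting. -/
lemma schreier {H H' : Subgroup Γ} {S T : Set Γ} (hS : S ⊆ H) (hT : T ⊆ H)
    (hcov : ∀ g ∈ H, ∃ t ∈ T, g * t⁻¹ ∈ H') (n : ℕ) {w : Γ} (hw : w ∈ W S n) {t₀ : Γ}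
    (ht₀ : t₀ ∈ T) :
    ∃ t ∈ T, t₀ * w * t⁻¹ ∈
      W ({g | ∃ t ∈ T, ∃ s ∈ S, ∃ t' ∈ T, g = t * s * t'⁻¹} ∩ (H' : Set Γ)) n := by
  induction n generalizing w t₀ with
  | zero => rw [W_zero hw]; exact ⟨t₀, ht₀, by simpa using one_mem_W _ 0⟩
  | succ n ih =>
    rcases W_succ hw with h' | ⟨a, ha, v, hv, rfl⟩
    · obtain ⟨t, ht, h⟩ := ih h' ht₀
      exact ⟨t, ht, W_mono subset_rfl (by omega) h⟩
    · obtain ⟨t₁, ht₁, h₁⟩ := hcov (t₀ * a) (H.mul_mem (hT ht₀) (hS ha))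
      obtain ⟨t, ht, h⟩ := ih hv ht₁
      refine ⟨t, ht, ?_⟩
      have := mul_mem_W (mem_W_one (S := {g | ∃ t ∈ T, ∃ s ∈ S, ∃ t' ∈ T, g = t * s * t'⁻¹} ∩
        (H' : Set Γ)) ⟨⟨t₀, ht₀, a, ha, t₁, ht₁, rfl⟩, h₁⟩) h
      rw [add_comm] at this
      convert this using 1
      group

end Words

section Bounded

variable {Γ : Type*} [Group Γ]

/-- `A` is covered by finitely many left cosets of `U`. -/
def Bdd (U : Subgroup Γ) (A : Set Γ) : Prop := ((QuotientGroup.mk : Γ → Γ ⧸ U) '' A).Finite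

/-- The number of left cosets of `U` meeting `A`. -/
noncomputable def cnt (U : Subgroup Γ) (A : Set Γ) : ℕ :=
  ((QuotientGroup.mk : Γ → Γ ⧸ U) '' A).ncard

/-- `U` is commensurated. -/
def Comm (U : Subgroup Γ) : Prop := ∀ g : Γ, Bdd U ((· * g) '' U)

variable {U V : Subgroup Γ} {A B : Set Γ}

lemma Bdd.exists_reps (h : Bdd U A) :
    ∃ T : Finset Γ, (T : Set Γ) ⊆ A ∧ T.card ≤ cnt U A ∧ ∀ a ∈ A, ∃ t ∈ T, t⁻¹ * a ∈ U := by
  classical
  have hch : ∀ q ∈ (QuotientGroup.mk : Γ → Γ ⧸ U) '' A, ∃ a ∈ A, (a : Γ ⧸ U) = q :=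
    fun q hq => hq
  choose! r hr using hch
  refine ⟨h.toFinset.image r, ?_, ?_, ?_⟩
  · intro t ht
    obtain ⟨q, hq, rfl⟩ := Finset.mem_image.1 (Finset.mem_coe.1 ht)
    exact (hr q (h.mem_toFinset.1 hq)).1
  · unfold cnt
    rw [ncard_eq_toFinset_card _ h]
    exact Finset.card_image_le
  · intro a ha
    refine ⟨r a, Finset.mem_image.2 ⟨a, h.mem_toFinset.2 ⟨a, ha, rfl⟩, rfl⟩, ?_⟩
    exact QuotientGroup.eq.1 (hr a ⟨a, ha, rfl⟩).2

lemma image_subset_of_reps {T : Set Γ} (h : ∀ a ∈ A, ∃ t ∈ T, t⁻¹ * a ∈ U) :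
    (QuotientGroup.mk : Γ → Γ ⧸ U) '' A ⊆ (QuotientGroup.mk : Γ → Γ ⧸ U) '' T := by
  rintro _ ⟨a, ha, rfl⟩
  obtain ⟨t, ht, h⟩ := h a ha
  exact ⟨t, ht, QuotientGroup.eq.2 h⟩

lemma bdd_of_reps {T : Set Γ} (hT : T.Finite) (h : ∀ a ∈ A, ∃ t ∈ T, t⁻¹ * a ∈ U) : Bdd U A :=
  (hT.image _).subset (image_subset_of_reps h)

lemma cnt_le_of_reps {T : Set Γ} (hT : T.Finite) (h : ∀ a ∈ A, ∃ t ∈ T, t⁻¹ * a ∈ U) :
    cnt U A ≤ T.ncard :=
  (ncard_le_ncard (image_subset_of_reps h) (hT.image _)).trans (ncard_image_le hT)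

lemma Bdd.mono (h : Bdd U B) (hAB : A ⊆ B) : Bdd U A := h.subset (image_mono hAB)

lemma cnt_mono (h : Bdd U B) (hAB : A ⊆ B) : cnt U A ≤ cnt U B :=
  ncard_le_ncard (image_mono hAB) h

lemma Bdd.union (hA : Bdd U A) (hB : Bdd U B) : Bdd U (A ∪ B) := by
  unfold Bdd; rw [image_union]; exact Finite.union hA hB

lemma bdd_of_finite (h : A.Finite) : Bdd U A := h.image _

lemma bdd_self (U : Subgroup Γ) : Bdd U U :=
  bdd_of_reps (finite_singleton 1) fun a ha => ⟨1, rfl, by simpa using ha⟩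

lemma bdd_of_le (h : V ≤ U) : Bdd U V := (bdd_self U).mono h

lemma bdd_biUnion {ι : Type*} {s : Set ι} (hs : s.Finite) {f : ι → Set Γ}
    (h : ∀ i ∈ s, Bdd U (f i)) : Bdd U (⋃ i ∈ s, f i) := by
  unfold Bdd; rw [image_iUnion₂]; exact hs.biUnion h

lemma Bdd.smul (h : Bdd U A) (g : Γ) : Bdd U ((g * ·) '' A) := by
  obtain ⟨T, -, -, hT⟩ := h.exists_reps
  refine bdd_of_reps (T.finite_toSet.image (g * ·)) ?_
  rintro _ ⟨a, ha, rfl⟩
  obtain ⟨t, ht, h⟩ := hT a ha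
  exact ⟨g * t, ⟨t, ht, rfl⟩, by simpa [mul_assoc] using h⟩

lemma Bdd.trans (hV : Bdd U V) (hA : Bdd V A) : Bdd U A := by
  obtain ⟨T, -, -, hT⟩ := hA.exists_reps
  refine (bdd_biUnion T.finite_toSet fun t _ => hV.smul t).mono fun a ha => ?_
  obtain ⟨t, ht, h⟩ := hT a ha
  exact mem_biUnion ht ⟨t⁻¹ * a, h, by simp⟩

lemma cnt_trans (hV : Bdd U V) (hA : Bdd V A) : cnt U A ≤ cnt U V * cnt V A := by
  classical
  obtain ⟨T, -, hT1, hT⟩ := hA.exists_reps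
  obtain ⟨R, -, hR1, hR⟩ := hV.exists_reps
  have := cnt_le_of_reps (U := U) (A := A)
    (T := (Finset.image₂ (· * ·) T R : Finset Γ)) (Finset.finite_toSet _) (by
      intro a ha
      obtain ⟨t, ht, h⟩ := hT a ha
      obtain ⟨r, hr, h'⟩ := hR _ h
      exact ⟨t * r, Finset.mem_coe.2 (Finset.mem_image₂_of_mem ht hr),
        by simpa [mul_assoc] using h'⟩)
  rw [ncard_coe_finset] at this
  calc cnt U A ≤ _ := this
    _ ≤ T.card * R.card := Finset.card_image₂_le _ _ _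
    _ ≤ cnt V A * cnt U V := Nat.mul_le_mul hT1 hR1
    _ = _ := mul_comm _ _

lemma Bdd.mul (hU : Comm U) (hA : Bdd U A) (hB : Bdd U B) : Bdd U (image2 (· * ·) A B) := by
  obtain ⟨T, -, -, hT⟩ := hA.exists_reps
  obtain ⟨R, -, -, hR⟩ := hB.exists_reps
  have h1 : Bdd U (⋃ t ∈ (T : Set Γ), ⋃ r ∈ (R : Set Γ), (t * ·) '' ((· * r) '' U)) :=
    bdd_biUnion T.finite_toSet fun t _ => bdd_biUnion R.finite_toSet fun r _ => (hU r).smul t
  obtain ⟨Z, -, -, hZ⟩ := h1.exists_reps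
  refine bdd_of_reps Z.finite_toSet ?_
  rintro _ ⟨a, ha, b, hb, rfl⟩
  obtain ⟨t, ht, h⟩ := hT a ha
  obtain ⟨r, hr, h'⟩ := hR b hb
  obtain ⟨z, hz, h''⟩ := hZ (a * r)
    (mem_biUnion ht (mem_biUnion hr ⟨t⁻¹ * a * r, ⟨_, h, rfl⟩, by simp [mul_assoc]⟩))
  refine ⟨z, hz, ?_⟩
  have := U.mul_mem h'' h'
  simpa [mul_assoc] using this

lemma Bdd.inv (hU : Comm U) (hA : Bdd U A) : Bdd U (A⁻¹) := by
  obtain ⟨T, -, -, hT⟩ := hA.exists_reps
  refine (bdd_biUnion T.finite_toSet fun t _ => hU t⁻¹).mono fun a ha => ?_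
  obtain ⟨t, ht, h⟩ := hT a⁻¹ ha
  exact mem_biUnion ht ⟨_, U.inv_mem h, by simp⟩

lemma Bdd.conj (hU : Comm U) (hA : Bdd U A) (g g' : Γ) : Bdd U ((fun a => g * a * g') '' A) := by
  refine ((hA.smul g).mul hU (bdd_of_finite (finite_singleton g'))).mono ?_
  rintro _ ⟨a, ha, rfl⟩
  exact ⟨g * a, ⟨a, ha, rfl⟩, g', rfl, rfl⟩

lemma Bdd.W (hU : Comm U) (hA : Bdd U A) (n : ℕ) : Bdd U (W A n) := by
  induction n with
  | zero => exact bdd_of_finite ((finite_singleton 1).subset fun g hg => W_zero hg)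
  | succ n ih =>
    refine (ih.union (hA.mul hU ih)).mono fun g hg => ?_
    rcases W_succ hg with h' | ⟨a, ha, w, hw, rfl⟩
    · exact Or.inl h'
    · exact Or.inr ⟨a, ha, w, hw, rfl⟩

lemma Bdd.inf {H H' : Subgroup Γ} (h : Bdd H' H) (U : Subgroup Γ) :
    Bdd (U ⊓ H') (U ⊓ H : Subgroup Γ) := by
  obtain ⟨T, hT1, -, hT⟩ :=
    (h.mono (A := ((U ⊓ H : Subgroup Γ) : Set Γ)) fun a ha => ha.2).exists_reps
  refine bdd_of_reps T.finite_toSet fun a ha => ?_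
  obtain ⟨t, ht, h⟩ := hT a ha
  exact ⟨t, ht, U.mul_mem (U.inv_mem (hT1 ht).1) ha.1, h⟩

lemma card_le_cnt (h : Bdd U A) {F : Finset Γ} (hF : (F : Set Γ) ⊆ A)
    (hinj : ∀ a ∈ F, ∀ b ∈ F, a⁻¹ * b ∈ U → a = b) : F.card ≤ cnt U A := by
  refine le_trans ?_ (cnt_mono h hF)
  unfold cnt
  rw [InjOn.ncard_image, ncard_coe_finset]
  intro a ha b hb hab
  exact hinj a ha b hb (QuotientGroup.eq.1 hab)

lemma bdd_bot_iff : Bdd (⊥ : Subgroup Γ) A ↔ A.Finite := by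
  refine ⟨fun h => ?_, bdd_of_finite⟩
  obtain ⟨T, -, -, hT⟩ := h.exists_reps
  refine T.finite_toSet.subset fun a ha => ?_
  obtain ⟨t, ht, h⟩ := hT a ha
  rw [Subgroup.mem_bot, inv_mul_eq_one] at h
  exact h ▸ ht

lemma cnt_bot : cnt (⊥ : Subgroup Γ) A = A.ncard := by
  unfold cnt
  rw [ncard_image_of_injective]
  intro a b hab
  simpa [inv_mul_eq_one] using QuotientGroup.eq.1 hab

lemma comm_bot : Comm (⊥ : Subgroup Γ) := fun g =>
  bdd_of_finite ((finite_singleton g).subset (by rintro _ ⟨u, hu, rfl⟩; simp_all))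

lemma bdd_comap {A' : Type*} [Group A'] (f : A' →* Γ) {S : Set A'} :
    Bdd (U.comap f) S ↔ Bdd U (f '' S) := by
  constructor
  · intro h
    obtain ⟨T, -, -, hT⟩ := h.exists_reps
    refine bdd_of_reps (T.finite_toSet.image f) ?_
    rintro _ ⟨a, ha, rfl⟩
    obtain ⟨t, ht, h⟩ := hT a ha
    exact ⟨f t, ⟨t, ht, rfl⟩, by simpa using h⟩
  · intro h
    obtain ⟨T, hT1, -, hT⟩ := h.exists_reps
    obtain ⟨T', -, hT2, hT3⟩ := Finite.exists_subset_finite_image_eq T.finite_toSet hT1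
    refine bdd_of_reps hT2 fun a ha => ?_
    obtain ⟨t, ht, h⟩ := hT (f a) ⟨a, ha, rfl⟩
    obtain ⟨t', ht', rfl⟩ : t ∈ f '' T' := hT3 ▸ ht
    exact ⟨t', ht', by simpa using h⟩

lemma cnt_comap_le {A' : Type*} [Group A'] (f : A' →* Γ) {S : Set A'} (h : Bdd U (f '' S)) :
    cnt (U.comap f) S ≤ cnt U (f '' S) := by
  classical
  obtain ⟨T, hT1, hT2, hT⟩ := h.exists_reps
  have hch : ∀ t ∈ T, ∃ s, f s = t := fun t ht => by
    obtain ⟨s, -, hs⟩ := hT1 ht; exact ⟨s, hs⟩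
  choose! r hr using hch
  have := cnt_le_of_reps (U := U.comap f) (A := S) (T := (T.image r : Finset A'))
    (Finset.finite_toSet _) (by
      intro a ha
      obtain ⟨t, ht, h⟩ := hT (f a) ⟨a, ha, rfl⟩
      exact ⟨r t, by simpa using ⟨t, ht, rfl⟩, by simpa [hr t ht] using h⟩)
  rw [ncard_coe_finset] at this
  exact this.trans (Finset.card_image_le.trans hT2)

lemma Comm.comap {A' : Type*} [Group A'] (hU : Comm U) (f : A' →* Γ) : Comm (U.comap f) := by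
  intro g
  rw [bdd_comap]
  refine (hU (f g)).mono ?_
  rintro _ ⟨_, ⟨u, hu, rfl⟩, rfl⟩
  exact ⟨f u, hu, by simp⟩

lemma bdd_univ_iff {H : Subgroup Γ} : Bdd H univ ↔ H.FiniteIndex := by
  unfold Bdd
  rw [image_univ, QuotientGroup.range_mk, finite_univ_iff, Subgroup.finiteIndex_iff_finite_quotient]

lemma bdd_iff_finiteIndex {H H' : Subgroup Γ} : Bdd H' H ↔ (H'.subgroupOf H).FiniteIndex := by
  rw [← bdd_univ_iff, Subgroup.subgroupOf, bdd_comap]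
  simp

/-- A finite right transversal. -/
lemma Bdd.exists_right_reps {H H' : Subgroup Γ} (h : Bdd H' H) :
    ∃ T : Finset Γ, (T : Set Γ) ⊆ H ∧ (1 : Γ) ∈ T ∧ ∀ g ∈ H, ∃ t ∈ T, g * t⁻¹ ∈ H' := by
  classical
  obtain ⟨T, hT1, -, hT⟩ := h.exists_reps
  refine ⟨insert 1 (T.image (·⁻¹)), ?_, by simp, fun g hg => ?_⟩
  · intro t ht
    simp only [Finset.coe_insert, Finset.coe_image, mem_insert_iff, mem_image] at ht
    rcases ht with rfl | ⟨t, ht, rfl⟩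
    exacts [H.one_mem, H.inv_mem (hT1 ht)]
  · obtain ⟨t, ht, h⟩ := hT g⁻¹ (H.inv_mem hg)
    refine ⟨t⁻¹, by simp [ht], ?_⟩
    simpa using H'.inv_mem h

end Bounded

end Pool.Agent.Lib.Gromov
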