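import Mathlib

set_option autoImplicit false

namespace Pool.Agent.Lib.Gromov

open Finset Matrix Polynomial

lemma coeff_eq_zero_of_two_le {x : ℂ} (hx : 2 ≤ ‖x‖) {c : ℕ → ℤ} (hc : ∀ i, |c i| ≤ 1) (n : ℕ)
    (h : ∑ i ∈ range n, (c i : ℂ) * x ^ i = 0) : ∀ i < n, c i = 0 := by
  have h1 : ∀ n, ∑ i ∈ range n, ‖x‖ ^ i < ‖x‖ ^ n := by
    intro n
    induction n with
    | zero => simp
    | succ n ih => rw [sum_range_succ, pow_succ]; nlinarith [pow_nonneg (norm_nonneg x) n]
  induction n with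
  | zero => simp
  | succ n ih =>
    rw [sum_range_succ] at h
    have h2 : c n = 0 := by
      by_contra hne
      have e1 : (1 : ℝ) ≤ ‖(c n : ℂ)‖ := by
        rw [Complex.norm_intCast]; exact_mod_cast Int.one_le_abs hne
      have e2 : ‖∑ i ∈ range n, (c i : ℂ) * x ^ i‖ ≤ ∑ i ∈ range n, ‖x‖ ^ i :=
        (norm_sum_le _ _).trans (sum_le_sum fun i _ => by
          rw [norm_mul, norm_pow, Complex.norm_intCast]
          exact mul_le_of_le_one_left (by positivity) (by exact_mod_cast hc i))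
      rw [eq_neg_of_add_eq_zero_left h, norm_neg, norm_mul, norm_pow] at e2
      nlinarith [h1 n, pow_nonneg (norm_nonneg x) n]
    rw [h2, Int.cast_zero, zero_mul, add_zero] at h
    intro i hi
    rcases (Nat.lt_succ_iff.1 hi).eq_or_lt with rfl | hi
    exacts [h2, ih h i hi]

theorem exists_fixed {M : Type*} [AddCommGroup M] [Module.Finite ℤ M] [Module.Free ℤ M]
    [Nontrivial M] (α : M →ₗ[ℤ] M) (hα : Function.Surjective α)
    (hrel : ∀ (v : M) (m : ℕ), 0 < m → ∃ (n : ℕ) (c : ℕ → ℤ), (∀ i, |c i| ≤ 1) ∧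
      (∃ i < n, c i ≠ 0) ∧ ∑ i ∈ range n, c i • (α ^ (m * i)) v = 0) :
    ∃ m, 0 < m ∧ ∃ x, x ≠ 0 ∧ (α ^ m) x = x := by
  classical
  set b := Module.Free.chooseBasis ℤ M
  set A := LinearMap.toMatrix b b α with hA
  set Ac := A.map (Int.castRingHom ℂ) with hAc
  have hroot : ∀ θ : ℂ, aeval θ A.charpoly = 0 → ∃ φ : M →+ ℂ, (∃ v, φ v ≠ 0) ∧
      (∀ x, φ (α x) = θ * φ x) ∧ ∃ u, u ≠ 0 ∧ u ᵥ* Ac = θ • u := by
    intro θ hθ
    have h1 : (Matrix.scalar _ θ - Ac).det = 0 := by
      rw [← Matrix.eval_charpoly, hAc, Matrix.charpoly_map, eval_map]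
      exact hθ
    obtain ⟨u, hu, h2⟩ := Matrix.exists_vecMul_eq_zero_iff.2 h1
    have h3 : u ᵥ* Ac = θ • u := by
      rw [Matrix.vecMul_sub, sub_eq_zero] at h2
      rw [← h2]
      ext i
      simp [Matrix.vecMul_diagonal, mul_comm]
    refine ⟨{ toFun := fun x => u ⬝ᵥ fun i => (b.repr x i : ℂ)
              map_zero' := by simp
              map_add' := fun x y => by
                rw [← dotProduct_add]; congr 1; ext i; simp }, ?_, fun x => ?_, u, hu, h3⟩
    · obtain ⟨i, hi⟩ := Function.ne_iff.1 hu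
      refine ⟨b i, ?_⟩
      simpa [dotProduct, Finsupp.single_apply] using hi
    · have e1 : (fun i => (b.repr (α x) i : ℂ)) = Ac *ᵥ fun i => (b.repr x i : ℂ) := by
        ext i
        rw [← LinearMap.toMatrix_mulVec_repr b b α x]
        simp [hAc, hA, Matrix.mulVec, dotProduct]
      change u ⬝ᵥ (fun i => (b.repr (α x) i : ℂ)) = θ * u ⬝ᵥ fun i => (b.repr x i : ℂ)
      rw [e1, Matrix.dotProduct_mulVec, h3, smul_dotProduct, smul_eq_mul]
  have hle : ∀ θ : ℂ, aeval θ A.charpoly = 0 → ‖θ‖ ≤ 1 ∧ θ ≠ 0 := by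
    intro θ hθ
    obtain ⟨φ, ⟨v, hv⟩, h2, -⟩ := hroot θ hθ
    have h3 : ∀ j x, φ ((α ^ j) x) = θ ^ j * φ x := by
      intro j x
      induction j with
      | zero => simp
      | succ j ih => rw [pow_succ', Module.End.mul_apply, h2, ih, pow_succ']; ring
    constructor
    · by_contra hlt
      obtain ⟨m, hm⟩ := pow_unbounded_of_one_lt 2 (not_le.1 hlt)
      obtain ⟨n, c, e1, ⟨i, hi, e2⟩, e3⟩ := hrel v m (Nat.pos_of_ne_zero (by
        rintro rfl; norm_num at hm))
      refine e2 (coeff_eq_zero_of_two_le (x := θ ^ m) (by rw [norm_pow]; exact hm.le) e1 n ?_ i hi)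
      have e4 := congrArg φ e3
      simp only [map_sum, map_zsmul, h3, map_zero, zsmul_eq_mul, ← mul_assoc] at e4
      rw [← sum_mul, mul_eq_zero] at e4
      simpa only [pow_mul] using e4.resolve_right hv
    · rintro rfl
      obtain ⟨x, rfl⟩ := hα v
      exact hv (by rw [h2, zero_mul])
  obtain ⟨θ, hθ⟩ : ∃ θ : ℂ, aeval θ A.charpoly = 0 := by
    refine IsAlgClosed.exists_aeval_eq_zero_of_injective ℂ (RingHom.injective_int _) _ ?_
    rw [Matrix.charpoly_degree_eq_dim]
    have : Nonempty (Module.Free.ChooseBasisIndex ℤ M) := b.index_nonempty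
    exact_mod_cast Fintype.card_ne_zero
  have hint : IsIntegral ℤ θ := ⟨A.charpoly, A.charpoly_monic, hθ⟩
  have : FiniteDimensional ℚ (IntermediateField.adjoin ℚ {θ}) :=
    IntermediateField.adjoin.finiteDimensional hint.tower_top
  have : NumberField (IntermediateField.adjoin ℚ {θ}) := ⟨⟩
  set x := IntermediateField.AdjoinSimple.gen ℚ θ
  have hx : aeval x A.charpoly = 0 := by
    apply (algebraMap (IntermediateField.adjoin ℚ {θ}) ℂ).injective
    rw [map_zero, ← aeval_algebraMap_apply]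
    exact hθ
  obtain ⟨m, hm, hxm⟩ := NumberField.Embeddings.pow_eq_one_of_norm_le_one _ ℂ (x := x)
    (fun h => (hle θ hθ).2 (congrArg Subtype.val h)) ⟨A.charpoly, A.charpoly_monic, hx⟩
    fun φ => (hle (φ x) (by
      have := aeval_algHom_apply φ.toIntAlgHom x A.charpoly
      rw [hx, map_zero] at this
      exact this)).1
  have hθm : θ ^ m = 1 := congrArg Subtype.val hxm
  obtain ⟨-, -, -, u, hu, h3⟩ := hroot θ hθ
  have h4 : ∀ j, u ᵥ* Ac ^ j = θ ^ j • u := by
    intro j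
    induction j with
    | zero => simp
    | succ j ih => rw [pow_succ, ← Matrix.vecMul_vecMul, ih, Matrix.smul_vecMul, h3, smul_smul,
        pow_succ]
  have h5 : (Ac ^ m - 1).det = 0 := Matrix.exists_vecMul_eq_zero_iff.1
    ⟨u, hu, by rw [Matrix.vecMul_sub, h4, hθm, one_smul, Matrix.vecMul_one, sub_self]⟩
  have h6 : (A ^ m - 1).det = 0 := by
    apply (RingHom.injective_int (Int.castRingHom ℂ))
    rw [RingHom.map_det, map_sub, map_pow, map_one, map_zero]
    exact h5
  obtain ⟨y, hy, h7⟩ := Matrix.exists_mulVec_eq_zero_iff.2 h6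
  refine ⟨m, hm, b.equivFun.symm y, fun h => hy (b.equivFun.symm.map_eq_zero_iff.1 h), ?_⟩
  apply b.equivFun.injective
  have h8 := LinearMap.toMatrix_mulVec_repr b b (α ^ m) (b.equivFun.symm y)
  rw [Matrix.sub_mulVec, sub_eq_zero, Matrix.one_mulVec, hA, LinearMap.toMatrix_pow] at h7
  have h9 : (b.repr (b.equivFun.symm y) : _ → ℤ) = y := b.equivFun.apply_symm_apply y
  rw [h9, h7] at h8
  rw [LinearEquiv.apply_symm_apply]
  exact h8.symm

end Pool.Agent.Lib.Gromov
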