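import Pool.Agent.Lib.Gromov.Hecke
import Pool.Agent.Lib.Gromov.Kron

set_option autoImplicit false

namespace Pool.Agent.Lib.Gromov

open Set

/-- All subgroups are finitely generated. -/
def NoethG (G : Type*) [Group G] : Prop := ∀ L : Subgroup G, L.FG

variable {G : Type*} [Group G] {d : ℕ}

lemma NoethG.subgroup (h : NoethG G) (H : Subgroup G) : NoethG H := by
  intro L
  have := (Group.fg_iff_subgroup_fg _).2 (h (L.map H.subtype))
  exact (Group.fg_iff_subgroup_fg _).1 (Group.fg_of_surjective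
    (f := (L.equivMapOfInjective H.subtype H.subtype_injective).symm.toMonoidHom)
    (MulEquiv.surjective _))

lemma NoethG.of_surjective {Q : Type*} [Group Q] (h : NoethG G) (π : G →* Q)
    (hπ : Function.Surjective π) : NoethG Q := by
  intro L
  obtain ⟨S, h1, h2⟩ := (Subgroup.fg_iff _).1 (h (L.comap π))
  refine (Subgroup.fg_iff _).2 ⟨π '' S, ?_, h2.image π⟩
  rw [← MonoidHom.map_closure, h1, Subgroup.map_comap_eq_self_of_surjective hπ]

lemma Noeth.quotient {R : Subgroup G} [R.Normal] (h : Noeth R ⊤) : NoethG (G ⧸ R) := by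
  intro L
  obtain ⟨S, h1, h2⟩ := h (L.comap (QuotientGroup.mk' R)) (QuotientGroup.le_comap_mk' R L) le_top
  refine (Subgroup.fg_iff _).2 ⟨QuotientGroup.mk' R '' S, ?_, h1.image _⟩
  rw [← MonoidHom.map_closure, ← Subgroup.map_comap_eq_self_of_surjective
    (QuotientGroup.mk'_surjective R) L, ← h2, Subgroup.map_sup, QuotientGroup.map_mk'_self,
    sup_bot_eq]

lemma WGd.drop_quot {Q : Type*} [Group Q] (hw : WGd G (d + 1)) (π : G →* Q)
    (hπ : Function.Surjective π) {z : G} (hz : π z = 1) (h1 : ∀ n : ℤ, z ^ n = 1 → n = 0) :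
    WGd Q d := by
  classical
  intro S' hS'
  obtain ⟨S, -, hS, rfl⟩ := Finite.exists_subset_finite_image_eq (f := π) (s := univ) hS'
    (by rw [image_univ, hπ.range_eq]; exact subset_univ _)
  refine (hw _ (hS.insert z)).drop (monotone_ncard_W (hS.insert z)) fun n => ?_
  have hb : Bdd π.ker (W S n) := bdd_of_finite (finite_W hS n)
  obtain ⟨F, e1, e2, e3⟩ := hb.exists_inj_reps
  have h2 : π '' π.ker = {1} := by
    refine eq_singleton_iff_unique_mem.2 ⟨⟨1, one_mem _, map_one π⟩, ?_⟩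
    rintro _ ⟨g, hg, rfl⟩; exact hg
  have h3 := ncard_image_le_cnt π (h2 ▸ finite_singleton 1) hb
  rw [h2, ncard_singleton, one_mul, image_W, ← e2] at h3
  have h4 : ((F ×ˢ Finset.range (n + 1)).image fun p => p.1 * z ^ p.2).card ≤
      (W (insert z S) (2 * n)).ncard := by
    rw [← ncard_coe_finset]
    refine ncard_le_ncard (fun g hg => ?_) (finite_W (hS.insert z) _)
    obtain ⟨⟨a, i⟩, hp, rfl⟩ := Finset.mem_image.1 (Finset.mem_coe.1 hg)
    simp only [Finset.mem_product, Finset.mem_range] at hp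
    exact W_mono subset_rfl (by omega) (mul_mem_W (W_mono (subset_insert z S) le_rfl (e1 hp.1))
      (pow_mem_W (mem_W_one (mem_insert z S)) i))
  rw [Finset.card_image_of_injOn, Finset.card_product, Finset.card_range] at h4
  · nlinarith
  rintro ⟨a, i⟩ hp ⟨b, j⟩ hq (h : a * z ^ i = b * z ^ j)
  obtain rfl : a = b := e3 a (Finset.mem_product.1 hp).1 b (Finset.mem_product.1 hq).1 (by
    have := congrArg π h
    simp only [map_mul, map_pow, hz, one_pow, mul_one] at this
    simp [this])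
  have h5 := h1 (i - j) (by rw [zpow_sub, zpow_natCast, zpow_natCast, mul_left_cancel h]; simp)
  obtain rfl : i = j := by omega
  rfl

lemma exists_fixed_elt (hw : WGd G d) {B : Subgroup G} (hfg : B.FG)
    (hcomm : ∀ a ∈ B, ∀ b ∈ B, a * b = b * a) (htf : ∀ b ∈ B, ∀ n, 0 < n → b ^ n = 1 → b = 1)
    (hne : ∃ b ∈ B, b ≠ 1) {t : G} (h1 : ∀ b ∈ B, t * b * t⁻¹ ∈ B)
    (h2 : ∀ b ∈ B, t⁻¹ * b * t ∈ B) :
    ∃ m, 0 < m ∧ ∃ z ∈ B, z ≠ 1 ∧ t ^ m * z * (t ^ m)⁻¹ = z := by
  classical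
  let inst : CommGroup B :=
    { (inferInstance : Group B) with mul_comm := fun a b => Subtype.ext (hcomm a a.2 b b.2) }
  have : Group.FG B := (Group.fg_iff_subgroup_fg B).2 hfg
  have : Module.Finite ℤ (Additive B) := Module.Finite.iff_addGroup_fg.2 inferInstance
  have : IsAddTorsionFree (Additive B) := ⟨fun n hn a b hab => by
    have e : (a.toMul * b.toMul⁻¹) ^ n = 1 := by
      rw [mul_pow, inv_pow, mul_inv_eq_one]; exact hab
    have := htf _ (a.toMul * b.toMul⁻¹).2 n (Nat.pos_of_ne_zero hn) (congrArg Subtype.val e)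
    exact Additive.toMul.injective (mul_inv_eq_one.1 (Subtype.ext this))⟩
  have : Nontrivial (Additive B) := by
    obtain ⟨b, hb, hb'⟩ := hne
    exact ⟨Additive.ofMul ⟨b, hb⟩, 0, fun h => hb' (congrArg Subtype.val h)⟩
  let α : Additive B →+ Additive B :=
    { toFun := fun b => Additive.ofMul ⟨t * b.toMul * t⁻¹, h1 _ b.toMul.2⟩
      map_zero' := Subtype.ext (by change t * 1 * t⁻¹ = 1; simp)
      map_add' := fun a b => Subtype.ext (by
        change t * (a.toMul * b.toMul) * t⁻¹ = t * a.toMul * t⁻¹ * (t * b.toMul * t⁻¹)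
        group) }
  have hα : ∀ j (v : Additive B),
      (((α.toIntLinearMap ^ j) v).toMul : G) = t ^ j * v.toMul * (t ^ j)⁻¹ := by
    intro j v
    induction j with
    | zero => simp
    | succ j ih =>
      rw [pow_succ', Module.End.mul_apply]
      change t * ((α.toIntLinearMap ^ j) v).toMul * t⁻¹ = _
      rw [ih]; group
  obtain ⟨m, hm, x, hx, e⟩ := exists_fixed α.toIntLinearMap
    (fun b => ⟨Additive.ofMul ⟨_, h2 _ b.toMul.2⟩, Subtype.ext (by
      change t * (t⁻¹ * b.toMul * t) * t⁻¹ = b.toMul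
      group)⟩) (by
    intro v m hm
    set S : Set G := {t, (v.toMul : G)}
    have hS : S.Finite := toFinite _
    let f : ℕ → Finset ℕ → Additive B := fun n s =>
      ∑ i ∈ Finset.range n, (if i ∈ s then (1 : ℤ) else 0) • (α.toIntLinearMap ^ (m * i)) v
    have hf : ∀ n s, ((f n s).toMul : G) * t ^ (m * n) ∈ W S ((m + 1) * n) := by
      intro n s
      induction n with
      | zero => simpa [f] using one_mem_W S 0
      | succ n ih =>
        have ht : t ^ m ∈ W S m := by simpa using pow_mem_W (mem_W_one (mem_insert t _ : t ∈ S)) m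
        simp only [f, Finset.sum_range_succ] at ih ⊢
        split_ifs
        · rw [one_smul, toMul_add, Subgroup.coe_mul, hα]
          convert mul_mem_W (mul_mem_W ih (mem_W_one (Or.inr rfl : (v.toMul : G) ∈ S))) ht using 1
          · congr 1; ring
          · rw [mul_add, pow_add, mul_one]
            simp only [mul_assoc, inv_mul_cancel_left]
        · rw [zero_smul, add_zero]
          convert W_mono subset_rfl (by nlinarith : _ ≤ (m + 1) * (n + 1)) (mul_mem_W ih ht) using 1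
          group
    obtain ⟨n, hn⟩ := (hw S hS).not_exp' (monotone_ncard_W hS) (m + 1)
    obtain ⟨s, hs, s', hs', hne, heq⟩ := Finset.exists_ne_map_eq_of_card_lt_of_maps_to
      (s := (Finset.range n).powerset) (t := (finite_W hS ((m + 1) * n)).toFinset)
      (by rwa [Finset.card_powerset, Finset.card_range, ← ncard_eq_toFinset_card _ (finite_W hS _)])
      (f := fun s => ((f n s).toMul : G) * t ^ (m * n)) fun s _ => by simpa using hf n s
    have heq' : f n s = f n s' := Subtype.ext (mul_right_cancel heq)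
    refine ⟨n, fun i => (if i ∈ s then 1 else 0) - (if i ∈ s' then 1 else 0), fun i => ?_, ?_, ?_⟩
    · dsimp only
      split_ifs <;> simp
    · by_contra hcon
      push Not at hcon
      refine hne (Finset.ext fun i => ⟨fun hi => ?_, fun hi => ?_⟩)
      · have := hcon i (Finset.mem_range.1 (Finset.mem_powerset.1 hs hi))
        by_contra h; simp [hi, h] at this
      · have := hcon i (Finset.mem_range.1 (Finset.mem_powerset.1 hs' hi))
        by_contra h; simp [hi, h] at this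
    · simp only [sub_smul, Finset.sum_sub_distrib]
      exact sub_eq_zero.2 heq')
  refine ⟨m, hm, x.toMul, x.toMul.2, fun h => hx (Subtype.ext h), ?_⟩
  rw [← hα, e]

/-- The conjugacy class of `a` under `K`. -/
def cls (K : Subgroup G) (a : G) : Set G := (fun g => g * a * g⁻¹) '' K

lemma bdd_centralizer {K : Subgroup G} {a : G} (h : (cls K a).Finite) :
    Bdd (Subgroup.centralizer {a}) K := by
  obtain ⟨T, -, hT1, hT2⟩ := Finite.exists_subset_finite_image_eq h subset_rfl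
  refine bdd_of_reps hT1 fun g hg => ?_
  obtain ⟨t, ht, e⟩ : g * a * g⁻¹ ∈ (fun g => g * a * g⁻¹) '' T := hT2 ▸ ⟨g, hg, rfl⟩
  refine ⟨t, ht, Subgroup.mem_centralizer_singleton_iff.2 ?_⟩
  have e' : t * a * t⁻¹ = g * a * g⁻¹ := e
  calc t⁻¹ * g * a = t⁻¹ * (g * a * g⁻¹) * g := by group
    _ = _ := by rw [← e']; group

lemma finite_cls {K C : Subgroup G} {a : G} (h : Bdd C K) (hC : ∀ c ∈ C, c * a = a * c) :
    (cls K a).Finite := by
  obtain ⟨T, -, -, hT⟩ := h.exists_reps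
  refine (T.finite_toSet.image fun g => g * a * g⁻¹).subset ?_
  rintro _ ⟨g, hg, rfl⟩
  obtain ⟨t, ht, e⟩ := hT g hg
  refine ⟨t, ht, ?_⟩
  calc t * a * t⁻¹ = t * (a * (t⁻¹ * g)) * g⁻¹ := by group
    _ = _ := by rw [← hC _ e]; group

lemma Bdd.inter {A B K : Subgroup G} (hA : Bdd A K) (hB : Bdd B K) : Bdd (A ⊓ B) K :=
  Bdd.trans (V := A ⊓ K) (hB.inf A) (by simpa [inf_comm] using hA.inf K)

lemma exists_finite_cls (hN : NoethG G) (hw : WGd G d) {H K : Subgroup G} (hK : Nrm K H) {t : G}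
    (ht : t ∈ H) (h0 : ∀ g ∈ H, ∃ n : ℤ, (t ^ n)⁻¹ * g ∈ K) (h1 : ∀ n : ℤ, t ^ n ∈ K → n = 0)
    (hvn : Group.IsVirtuallyNilpotent K) :
    ∃ z, (∀ n : ℤ, z ^ n = 1 → n = 0) ∧ (cls H z).Finite := by
  classical
  have h0' : ∀ g ∈ H, ∃ n : ℤ, g * (t ^ n)⁻¹ ∈ K := fun g hg => by
    obtain ⟨n, hn⟩ := h0 g hg
    exact ⟨n, by simpa [mul_assoc] using hK.2 _ (H.zpow_mem ht n) _ hn⟩
  by_cases hfin : (K : Set G).Finite
  · refine ⟨t, fun n hn => h1 n (hn ▸ K.one_mem), (hfin.image (· * t)).subset ?_⟩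
    rintro _ ⟨g, hg, rfl⟩
    obtain ⟨n, hn⟩ := h0' g hg
    refine ⟨_, K.mul_mem hn (hK.2 t ht _ (K.inv_mem hn)), ?_⟩
    group
  obtain ⟨N₀, hN1, hN2⟩ := hvn
  set N := N₀.map K.subtype
  have hNK : N ≤ K := Subgroup.map_subtype_le _
  have hNb : Bdd N K := by
    rw [bdd_iff_finiteIndex]
    exact Subgroup.finiteIndex_of_le (H := N₀) fun a ha => ⟨a, ha, rfl⟩
  obtain ⟨c, hc⟩ := (Subgroup.isNilpotent_iff_lowerCentralSeries N).1
    (Group.nilpotent_of_mulEquiv (N₀.equivMapOfInjective K.subtype K.subtype_injective))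
  have hex : ∃ j, (N.lowerCentralSeries j : Set G).Finite := ⟨c, by rw [hc]; simp⟩
  have hj0 : Nat.find hex ≠ 0 := fun h => by
    have := Nat.find_spec hex
    rw [h, Subgroup.lowerCentralSeries_zero] at this
    exact hfin (bdd_bot_iff.1 ((bdd_bot_iff.2 this).trans hNb))
  obtain ⟨j, hj⟩ := Nat.exists_eq_succ_of_ne_zero hj0
  have hj1 : (N.lowerCentralSeries (j + 1) : Set G).Finite := by
    have := Nat.find_spec hex; rwa [hj] at this
  have hj2 : ¬ (N.lowerCentralSeries j : Set G).Finite := Nat.find_min hex (by omega)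
  let Δ : Subgroup G :=
    { carrier := {k | k ∈ K ∧ (cls K k).Finite}
      mul_mem' := fun {a b} ha hb => ⟨K.mul_mem ha.1 hb.1, (ha.2.image2 (· * ·) hb.2).subset (by
        rintro _ ⟨g, hg, rfl⟩
        exact ⟨_, ⟨g, hg, rfl⟩, _, ⟨g, hg, rfl⟩, by group⟩)⟩
      one_mem' := ⟨K.one_mem, (finite_singleton 1).subset (by rintro _ ⟨g, -, rfl⟩; simp)⟩
      inv_mem' := fun {a} ha => ⟨K.inv_mem ha.1, ha.2.inv.subset (by
        rintro _ ⟨g, hg, rfl⟩
        exact ⟨g, hg, by group⟩)⟩ }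
  have hΔ : ∀ g ∈ H, ∀ a ∈ Δ, g * a * g⁻¹ ∈ Δ := fun g hg a ha =>
    ⟨hK.2 g hg a ha.1, (ha.2.image fun x => g * x * g⁻¹).subset (by
      rintro _ ⟨k, hk, rfl⟩
      exact ⟨_, ⟨_, hK.2 _ (H.inv_mem hg) k hk, rfl⟩, by group⟩)⟩
  have hΔinf : ¬ (Δ : Set G).Finite := fun h => hj2 (h.subset fun a ha => by
    refine ⟨hNK (N.lowerCentralSeries_le_self j ha), finite_cls
      (C := Subgroup.centralizer {a}) (Bdd.trans (bdd_centralizer ?_) hNb)
      fun c hc => Subgroup.mem_centralizer_singleton_iff.1 hc⟩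
    refine (hj1.image (· * a)).subset ?_
    rintro _ ⟨n, hn, rfl⟩
    refine ⟨(a * n * a⁻¹ * n⁻¹)⁻¹, Subgroup.inv_mem _ (Subgroup.commutator_mem_commutator ha hn), ?_⟩
    group)
  have hC : Bdd (Subgroup.centralizer (Δ : Set G)) K := by
    obtain ⟨S, e1, e2⟩ := (Subgroup.fg_iff _).1 (hN Δ)
    have e3 : S ⊆ Δ := e1 ▸ Subgroup.subset_closure
    rw [← e1, Subgroup.centralizer_closure]
    clear e1
    induction S, e2 using Finite.induction_on with
    | empty => exact bdd_of_le fun g _ => by simp [Subgroup.mem_centralizer_iff]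
    | @insert a s _ _ ih =>
      refine (bdd_of_le ?_).trans ((bdd_centralizer (e3 (mem_insert a s)).2).inter
        (ih ((subset_insert a s).trans e3)))
      rintro g ⟨g1, g2⟩ b (rfl | hb)
      exacts [g1 b rfl, g2 b hb]
  set B₀ := Δ ⊓ Subgroup.centralizer (Δ : Set G)
  have hB₀inf : ¬ (B₀ : Set G).Finite := fun h =>
    hΔinf (bdd_bot_iff.1 ((bdd_bot_iff.2 h).trans ((hC.inf Δ).mono fun a ha => ⟨ha, ha.1⟩)))
  have hB₀c : ∀ a ∈ B₀, ∀ b ∈ B₀, Commute a b := fun a ha b hb => hb.2 a ha.1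
  have hB₀n : ∀ g ∈ H, ∀ a ∈ B₀, g * a * g⁻¹ ∈ B₀ := fun g hg a ha =>
    ⟨hΔ g hg a ha.1, fun b hb => by
      have := ha.2 _ (hΔ _ (H.inv_mem hg) b hb)
      calc b * (g * a * g⁻¹) = g * (g⁻¹ * b * g⁻¹⁻¹ * a) * g⁻¹ := by group
        _ = _ := by rw [this]; group⟩
  let T : Subgroup G :=
    { carrier := {b | b ∈ B₀ ∧ IsOfFinOrder b}
      mul_mem' := fun {a b} ha hb =>
        ⟨B₀.mul_mem ha.1 hb.1, (hB₀c a ha.1 b hb.1).isOfFinOrder_mul ha.2 hb.2⟩
      one_mem' := ⟨B₀.one_mem, IsOfFinOrder.one⟩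
      inv_mem' := fun {a} ha => ⟨B₀.inv_mem ha.1, ha.2.inv⟩ }
  have hT : Finite T := by
    let inst : CommGroup T :=
      { (inferInstance : Group T) with mul_comm := fun a b => Subtype.ext (hB₀c a a.2.1 b b.2.1) }
    have : Group.FG T := (Group.fg_iff_subgroup_fg T).2 (hN T)
    exact CommGroup.finite_of_fg_isMulTorsion T fun a =>
      (T.subtype_injective.isOfFinOrder_iff).1 a.2.2
  have hTe : ∀ b ∈ B₀, IsOfFinOrder b → b ^ Nat.card T = 1 := fun b hb hb' =>
    congrArg Subtype.val (pow_card_eq_one' (x := (⟨b, hb, hb'⟩ : T)))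
  let B : Subgroup G :=
    { carrier := {g | ∃ b ∈ B₀, b ^ Nat.card T = g}
      mul_mem' := by
        rintro _ _ ⟨a, ha, rfl⟩ ⟨b, hb, rfl⟩
        exact ⟨a * b, B₀.mul_mem ha hb, (hB₀c a ha b hb).mul_pow _⟩
      one_mem' := ⟨1, B₀.one_mem, one_pow _⟩
      inv_mem' := by rintro _ ⟨a, ha, rfl⟩; exact ⟨a⁻¹, B₀.inv_mem ha, inv_pow _ _⟩ }
  have hB : B ≤ B₀ := by rintro _ ⟨a, ha, rfl⟩; exact B₀.pow_mem ha _
  have hBn : ∀ g ∈ H, ∀ a ∈ B, g * a * g⁻¹ ∈ B := by
    rintro g hg _ ⟨a, ha, rfl⟩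
    exact ⟨_, hB₀n g hg a ha, conj_pow⟩
  have hBtf : ∀ b ∈ B, ∀ n, 0 < n → b ^ n = 1 → b = 1 := by
    rintro _ ⟨a, ha, rfl⟩ n hn h
    exact hTe a ha (isOfFinOrder_iff_pow_eq_one.2
      ⟨Nat.card T * n, Nat.mul_pos Nat.card_pos hn, by rw [pow_mul, h]⟩)
  obtain ⟨m, hm, z, hz, hz1, hz2⟩ := exists_fixed_elt hw (hN B)
    (fun a ha b hb => hB₀c a (hB ha) b (hB hb)) hBtf
    (by
      by_contra hcon
      push Not at hcon
      refine hB₀inf ((toFinite (T : Set G)).subset fun b hb => ⟨hb, ?_⟩)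
      exact isOfFinOrder_iff_pow_eq_one.2 ⟨Nat.card T, Nat.card_pos, hcon _ ⟨b, hb, rfl⟩⟩)
    (hBn t ht) (fun b hb => by simpa using hBn _ (H.inv_mem ht) b hb)
  refine ⟨z, fun n hn => ?_, ?_⟩
  · by_contra h
    exact hz1 (hBtf z hz n.natAbs (Int.natAbs_pos.2 h) (pow_natAbs_eq_one.2 hn))
  · refine ((finite_lt_nat m).biUnion fun r _ =>
      (hΔ _ (H.pow_mem ht r) z (hB hz).1).2).subset ?_
    rintro _ ⟨g, hg, rfl⟩
    obtain ⟨n, hn⟩ := h0' g hg
    have hm' : (0 : ℤ) < m := by exact_mod_cast hm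
    obtain ⟨r, hr⟩ := Int.eq_ofNat_of_zero_le (Int.emod_nonneg n hm'.ne')
    have hrm : r < m := by have := Int.emod_lt_of_pos n hm'; omega
    refine mem_biUnion (x := r) hrm ⟨_, hn, ?_⟩
    have e1 : Commute (t ^ m) z := mul_inv_eq_iff_eq_mul.1 hz2
    have e2 : t ^ n = t ^ r * (t ^ m) ^ (n / m) := by
      rw [← zpow_natCast, ← zpow_natCast, ← zpow_mul, ← zpow_add, ← hr, Int.emod_add_mul_ediv]
    have e3 : (t ^ m) ^ (n / m) * z * ((t ^ m) ^ (n / m))⁻¹ = z :=
      mul_inv_eq_iff_eq_mul.2 (e1.zpow_left _)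
    have e4 : t ^ n * z * (t ^ n)⁻¹ = t ^ r * z * (t ^ r)⁻¹ := by
      rw [e2]
      conv_rhs => rw [← e3]
      group
    dsimp only
    rw [← e4]
    group

universe u

theorem phase2 (d : ℕ) : ∀ (G : Type u) [Group G], NoethG G → WGd G d →
    Group.IsVirtuallyNilpotent G := by
  have base : ∀ (G : Type u) [Group G], Bdd (⊥ : Subgroup G) (⊤ : Subgroup G) →
      Group.IsVirtuallyNilpotent G := fun G _ h => ⟨⊥, inferInstance, bdd_univ_iff.1 h⟩
  have hbg : ∀ (G : Type u) [Group G], NoethG G → BG (⊥ : Subgroup G) ⊤ := fun G _ h => by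
    obtain ⟨S, h1, h2⟩ := (Subgroup.fg_iff _).1 (h ⊤)
    exact ⟨S, bdd_of_finite h2, h1⟩
  induction d with
  | zero => exact fun G _ hN hw => base G (bdd_of_wg_zero comm_bot (hbg G hN) (wgd_iff.1 hw))
  | succ d ih =>
    intro G _ hN hw
    by_cases hinf : Bdd (⊥ : Subgroup G) (⊤ : Subgroup G)
    · exact base G hinf
    obtain ⟨H, K, e1, e2, e3, e4, t, ht, e5, e6⟩ :=
      exists_zext comm_bot (hbg G hN) (wgd_iff.1 hw) hinf
    have hwK : WGd K d := by
      have := (((wgd_iff.1 hw).mono (le_top : H ≤ ⊤)).drop comm_bot e3.1 ht e6 e4).comap comm_bot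
        K.subtype fun a => a.2
      rw [MonoidHom.comap_bot, K.ker_subtype] at this
      exact wgd_iff.2 this
    obtain ⟨z, hz1, hz2⟩ := exists_finite_cls hN hw e3 ht e5 e6 (ih K (hN.subgroup K) hwK)
    set C := Subgroup.centralizer ({z} : Set G)
    have hC : C.FiniteIndex := bdd_univ_iff.1 ((bdd_centralizer hz2).trans e2)
    set z' : C := ⟨z, Subgroup.mem_centralizer_singleton_iff.2 rfl⟩
    have hcen : Subgroup.zpowers z' ≤ Subgroup.center C := by
      rw [Subgroup.zpowers_le, Subgroup.mem_center_iff]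
      exact fun g => Subtype.ext (Subgroup.mem_centralizer_singleton_iff.1 g.2)
    have : (Subgroup.zpowers z').Normal := ⟨fun a ha g => by
      rwa [Subgroup.mem_center_iff.1 (hcen ha) g, mul_inv_cancel_right]⟩
    set π := QuotientGroup.mk' (Subgroup.zpowers z')
    have hπ : Function.Surjective π := QuotientGroup.mk'_surjective _
    obtain ⟨N, hN1, hN2⟩ := ih _ ((hN.subgroup C).of_surjective π hπ)
      ((hw.subgroup C).drop_quot π hπ (z := z')
        ((QuotientGroup.eq_one_iff _).2 (Subgroup.mem_zpowers z'))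
        fun n hn => hz1 n (congrArg Subtype.val hn))
    have h1 : Group.IsNilpotent (N.comap π) :=
      Subgroup.isNilpotent_of_ker_le_center (π.subgroupComap N) fun g hg => by
        have e : π g = 1 := congrArg Subtype.val hg
        rw [Subgroup.mem_center_iff]
        exact fun h => Subtype.ext
          (Subgroup.mem_center_iff.1 (hcen ((QuotientGroup.eq_one_iff _).1 e)) h)
    refine ⟨(N.comap π).map C.subtype, Group.nilpotent_of_mulEquiv
      ((N.comap π).equivMapOfInjective C.subtype C.subtype_injective), ⟨?_⟩⟩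
    rw [Subgroup.index_map_subtype, Subgroup.index_comap_of_surjective _ hπ]
    exact mul_ne_zero hN2.1 hC.1

end Pool.Agent.Lib.Gromov
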