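import Pool.Agent.Lib.Gromov.Walk

set_option autoImplicit false

namespace Pool.Agent.Lib.Gromov

open Finset Real

lemma hell_pt {p q : ℝ} (hp : 0 ≤ p) (hq : 0 ≤ q) (h : q = 0 → p = 0) :
    (√p - √q) ^ 2 ≤ -negMulLog p - p * log q - p + q := by
  rcases hp.eq_or_lt with rfl | hp'
  · simp [sq_sqrt hq]
  have hq' : 0 < q := lt_of_le_of_ne hq fun h' => hp'.ne' (h h'.symm)
  obtain ⟨a, ha, rfl⟩ : ∃ a, 0 < a ∧ p = a ^ 2 := ⟨√p, sqrt_pos.2 hp', (sq_sqrt hp).symm⟩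
  obtain ⟨b, hb, rfl⟩ : ∃ b, 0 < b ∧ q = b ^ 2 := ⟨√q, sqrt_pos.2 hq', (sq_sqrt hq).symm⟩
  rw [sqrt_sq ha.le, sqrt_sq hb.le, negMulLog, log_pow, log_pow]
  have h1 : log (b / a) ≤ b / a - 1 := log_le_sub_one_of_pos (by positivity)
  rw [log_div hb.ne' ha.ne'] at h1
  have h2 : a ^ 2 * (log b - log a) ≤ a ^ 2 * (b / a - 1) :=
    mul_le_mul_of_nonneg_left h1 (by positivity)
  have h3 : a ^ 2 * (b / a - 1) = a * b - a ^ 2 := by field_simp
  push_cast
  nlinarith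

lemma negMulLog_le {p N : ℝ} (hp : 0 ≤ p) (hN : 0 < N) : negMulLog p ≤ p * log N + 1 / N - p := by
  rcases hp.eq_or_lt with rfl | hp'
  · simp [hN.le]
  have h1 : log (1 / (p * N)) ≤ 1 / (p * N) - 1 := log_le_sub_one_of_pos (by positivity)
  rw [one_div, log_inv, log_mul hp'.ne' hN.ne'] at h1
  have h2 := mul_le_mul_of_nonneg_left h1 hp
  have h3 : p * ((p * N)⁻¹ - 1) = 1 / N - p := by field_simp
  rw [negMulLog]
  nlinarith

namespace RW

variable {G Y : Type*} [Group G] [MulAction G Y] (w : RW G Y)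

/-- Entropy of the law after `n` steps. -/
noncomputable def H (n : ℕ) (x : Y) : ℝ := ∑ z ∈ w.B n x, negMulLog (w.μ n x z)

lemma H_eq_sum (n : ℕ) (x : Y) {s : Finset Y} (hs : w.B n x ⊆ s) :
    w.H n x = ∑ z ∈ s, negMulLog (w.μ n x z) :=
  sum_subset hs fun z _ hz => by simp [w.μ_eq_zero hz]

lemma H_const (n : ℕ) (x y : Y) : w.H n x = w.H n y := by
  classical
  obtain ⟨g, rfl⟩ := w.trans y x
  rw [w.H_eq_sum n (g • y) (s := (w.B n y).image (g • ·)), sum_image, H]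
  · exact sum_congr rfl fun z _ => by rw [w.μ_smul]
  · exact fun a _ b _ h => MulAction.injective g h
  · intro z hz
    refine mem_image.2 ⟨g⁻¹ • z, ?_, by simp⟩
    simpa using w.smul_mem_B g⁻¹ hz

lemma self_mem_B (n : ℕ) (x : Y) : x ∈ w.B n x := w.B_mono x (Nat.zero_le n) (by simp [B])

lemma card_B_pos (n : ℕ) (x : Y) : 0 < (w.B n x).card := card_pos.2 ⟨x, w.self_mem_B n x⟩

lemma H_le_log (n : ℕ) (x : Y) : w.H n x ≤ log (w.B n x).card := by
  have hN : (0 : ℝ) < (w.B n x).card := by exact_mod_cast w.card_B_pos n x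
  refine (sum_le_sum fun z _ => negMulLog_le (w.μ_nonneg n x z) hN).trans (le_of_eq ?_)
  rw [sum_sub_distrib, sum_add_distrib, ← sum_mul, w.sum_μ n x subset_rfl, sum_const,
    nsmul_eq_mul]
  field_simp
  ring

lemma hell (n : ℕ) (x : Y) :
    ∑ y ∈ w.N x, w.k x y * ∑ z ∈ w.B (n + 1) x, (√(w.μ n y z) - √(w.μ (n + 1) x z)) ^ 2 ≤
      w.H (n + 1) x - w.H n x := by
  have h1 : ∀ y ∈ w.N x, ∑ z ∈ w.B (n + 1) x, (√(w.μ n y z) - √(w.μ (n + 1) x z)) ^ 2 ≤
      -w.H n x - ∑ z ∈ w.B (n + 1) x, w.μ n y z * log (w.μ (n + 1) x z) := by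
    intro y hy
    refine (sum_le_sum fun z _ => hell_pt (w.μ_nonneg n y z) (w.μ_nonneg (n + 1) x z)
      fun h => ?_).trans (le_of_eq ?_)
    · have := w.μ_succ_ge (n := n) hy z
      rw [h] at this
      exact le_antisymm (by
        by_contra h'
        exact absurd this (not_le.2 (mul_pos w.κ_pos (not_le.1 h')))) (w.μ_nonneg n y z)
    · rw [sum_add_distrib, sum_sub_distrib, sum_sub_distrib, sum_neg_distrib,
        w.sum_μ n y (w.B_subset_succ hy), w.sum_μ (n + 1) x subset_rfl,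
        ← w.H_eq_sum n y (w.B_subset_succ hy), w.H_const n y x]
      ring
  refine (sum_le_sum fun y hy => mul_le_mul_of_nonneg_left (h1 y hy) (w.k_nonneg x y)).trans
    (le_of_eq ?_)
  simp only [mul_sub, sum_sub_distrib, mul_sum]
  rw [← sum_mul, w.k_sum, sum_comm]
  have : ∑ z ∈ w.B (n + 1) x, ∑ y ∈ w.N x, w.k x y * (w.μ n y z * log (w.μ (n + 1) x z)) =
      -w.H (n + 1) x := by
    rw [H, ← sum_neg_distrib]
    refine sum_congr rfl fun z _ => ?_
    simp only [← mul_assoc]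
    rw [← sum_mul, ← w.μ_succ_apply, negMulLog]
    ring
  rw [this]
  ring

/-- The constant in the entropy inequality. -/
noncomputable def c₀ : ℝ := 2 * (1 + 1 / w.κ) / w.κ

lemma c₀_pos : 0 < w.c₀ := by have := w.κ_pos; unfold c₀; positivity

lemma key {V : Type*} [NormedAddCommGroup V] [NormedSpace ℝ V] (n : ℕ) {x y : Y}
    (hy : y ∈ w.N x) (h : Y → V) (c : V) :
    ‖w.E n h y - w.E (n + 1) h x‖ ^ 2 ≤
      w.c₀ * (w.H (n + 1) x - w.H n x) * w.E (n + 1) (fun z => ‖h z - c‖ ^ 2) x := by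
  have hκ := w.κ_pos
  set s := w.B (n + 1) x with hs
  set p := w.μ n y
  set q := w.μ (n + 1) x
  have hp : ∀ z, 0 ≤ p z := w.μ_nonneg n y
  have hq : ∀ z, 0 ≤ q z := w.μ_nonneg (n + 1) x
  have h1 : w.E n h y - w.E (n + 1) h x = ∑ z ∈ s, (p z - q z) • (h z - c) := by
    rw [w.E_eq_sum n h y (w.B_subset_succ hy), w.E_eq_sum (n + 1) h x subset_rfl]
    simp only [sub_smul, smul_sub, sum_sub_distrib, ← sum_smul]
    rw [w.sum_μ n y (w.B_subset_succ hy), w.sum_μ (n + 1) x subset_rfl]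
    abel
  have h2 : ‖w.E n h y - w.E (n + 1) h x‖ ≤
      ∑ z ∈ s, |√(p z) - √(q z)| * ((√(p z) + √(q z)) * ‖h z - c‖) := by
    rw [h1]
    refine (norm_sum_le _ _).trans (le_of_eq (sum_congr rfl fun z _ => ?_))
    have : p z - q z = (√(p z) - √(q z)) * (√(p z) + √(q z)) := by
      nlinarith [sq_sqrt (hp z), sq_sqrt (hq z)]
    rw [norm_smul, this, Real.norm_eq_abs, abs_mul,
      abs_of_nonneg (add_nonneg (sqrt_nonneg _) (sqrt_nonneg _)), mul_assoc]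
  have h3 := sum_mul_sq_le_sq_mul_sq s (fun z => |√(p z) - √(q z)|)
    fun z => (√(p z) + √(q z)) * ‖h z - c‖
  simp only [sq_abs] at h3
  have h4 : w.κ * ∑ z ∈ s, (√(p z) - √(q z)) ^ 2 ≤ w.H (n + 1) x - w.H n x := by
    refine le_trans ?_ (w.hell n x)
    refine le_trans (mul_le_mul_of_nonneg_right (w.k_ge x y hy)
      (sum_nonneg fun z _ => sq_nonneg _)) ?_
    exact single_le_sum
      (f := fun y => w.k x y * ∑ z ∈ s, (√(w.μ n y z) - √(w.μ (n + 1) x z)) ^ 2)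
      (fun y _ => mul_nonneg (w.k_nonneg x y) (sum_nonneg fun z _ => sq_nonneg _)) hy
  have h5 : ∑ z ∈ s, ((√(p z) + √(q z)) * ‖h z - c‖) ^ 2 ≤
      2 * (1 + 1 / w.κ) * w.E (n + 1) (fun z => ‖h z - c‖ ^ 2) x := by
    rw [w.E_eq_sum (n + 1) _ x subset_rfl, mul_sum]
    refine sum_le_sum fun z _ => ?_
    have e1 : p z ≤ 1 / w.κ * q z := by
      rw [one_div, ← div_eq_inv_mul, le_div_iff₀ hκ, mul_comm]; exact w.μ_succ_ge hy z
    have e2 : (√(p z) + √(q z)) ^ 2 ≤ 2 * (1 + 1 / w.κ) * q z := by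
      nlinarith [sq_sqrt (hp z), sq_sqrt (hq z), sq_nonneg (√(p z) - √(q z))]
    rw [mul_pow, smul_eq_mul, ← mul_assoc]
    exact mul_le_mul_of_nonneg_right e2 (sq_nonneg _)
  have h6 : ∑ z ∈ s, (√(p z) - √(q z)) ^ 2 ≤ (w.H (n + 1) x - w.H n x) / w.κ := by
    rw [le_div_iff₀ hκ, mul_comm]; exact h4
  calc _ ≤ _ := pow_le_pow_left₀ (norm_nonneg _) h2 2
    _ ≤ _ := h3
    _ ≤ (w.H (n + 1) x - w.H n x) / w.κ *
        (2 * (1 + 1 / w.κ) * w.E (n + 1) (fun z => ‖h z - c‖ ^ 2) x) :=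
        mul_le_mul h6 h5 (sum_nonneg fun z _ => sq_nonneg _)
          ((sum_nonneg fun z _ => sq_nonneg _).trans h6)
    _ = _ := by unfold c₀; ring

lemma good {d : ℕ} (o : Y) (hw : Wk d fun n => (w.B n o).card) (N : ℕ) :
    ∃ n, N ≤ n ∧ (n + 1) * (w.H (n + 1) o - w.H n o) ≤ d + 1 := by
  by_contra hcon
  push Not at hcon
  have h1 : ∀ m : ℕ, w.H N o + (d + 1) * (log (N + m + 1) - log (N + 1)) ≤ w.H (N + m) o := by
    intro m
    induction m with
    | zero => simp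
    | succ m ih =>
      have h2 := hcon (N + m) (by omega)
      have hpos : (0 : ℝ) < N + m + 1 := by positivity
      have h3 : log ((N + m + 1 + 1) / (N + m + 1)) ≤ (N + m + 1 + 1) / (N + m + 1) - 1 :=
        log_le_sub_one_of_pos (by positivity)
      rw [log_div (by positivity) hpos.ne'] at h3
      have h4 : ((N : ℝ) + m + 1 + 1) / (N + m + 1) - 1 = 1 / (N + m + 1) := by field_simp; ring
      push_cast at h2 ⊢
      have h5 : (d + 1) * (1 / ((N : ℝ) + m + 1)) ≤ w.H (N + m + 1) o - w.H (N + m) o := by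
        rw [mul_one_div, div_le_iff₀ hpos]; linarith
      have h6 : ((d : ℝ) + 1) * (log (N + m + 1 + 1) - log (N + m + 1)) ≤
          (d + 1) * (1 / ((N : ℝ) + m + 1)) :=
        mul_le_mul_of_nonneg_left (h4 ▸ h3) (by positivity)
      rw [← add_assoc, ← add_assoc]
      linarith
  obtain ⟨C, hC⟩ := hw
  set A := log ((C : ℝ) + 1) + (d + 1) * log (N + 1) - w.H N o
  obtain ⟨M, hM⟩ := exists_nat_gt (exp A)
  obtain ⟨n, hn, hb⟩ := hC (N + M)
  obtain ⟨m, rfl⟩ : ∃ m, n = N + m := ⟨n - N, by omega⟩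
  have hpos : (0 : ℝ) < N + m + 1 := by positivity
  have h2 : ((w.B (N + m) o).card : ℝ) ≤ (C + 1) * ((N : ℝ) + m + 1) ^ d := by
    have : ((w.B (N + m) o).card : ℝ) ≤ C * ((N : ℝ) + m + 1) ^ d := by exact_mod_cast hb
    nlinarith [pow_pos hpos d]
  have h3 := log_le_log (by exact_mod_cast w.card_B_pos (N + m) o) h2
  rw [log_mul (by positivity) (by positivity), log_pow] at h3
  have h4 : log (N + m + 1) ≤ A := by
    have := (h1 m).trans ((w.H_le_log (N + m) o).trans h3)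
    simp only [A]
    linarith
  have h5 : (N : ℝ) + m + 1 ≤ exp A := (log_le_iff_le_exp hpos).1 h4
  have h6 : (M : ℝ) ≤ m := by exact_mod_cast (by omega : M ≤ m)
  have h7 : (0 : ℝ) ≤ N := by positivity
  linarith

lemma liouville {V : Type*} [NormedAddCommGroup V] [NormedSpace ℝ V] {d : ℕ} (o : Y)
    (hw : Wk d fun n => (w.B n o).card) {u : Y → V} (hu : w.P u = u) {M : ℝ}
    (hM : ∀ z, ‖u z‖ ≤ M) (x z : Y) : u z = u x := by
  refine w.const_of_edges (fun x y hy => ?_) x z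
  by_contra hne
  have hpos : 0 < ‖u y - u x‖ ^ 2 := pow_pos (norm_pos_iff.2 (sub_ne_zero.2 hne)) 2
  obtain ⟨N, hN⟩ := exists_nat_gt (w.c₀ * (d + 1) * M ^ 2 / ‖u y - u x‖ ^ 2)
  obtain ⟨n, hn, hg⟩ := w.good o hw N
  have h1 := w.key n hy u 0
  rw [w.E_harm hu, w.E_harm hu, w.H_const (n + 1) x o, w.H_const n x o] at h1
  have h2 : w.E (n + 1) (fun z => ‖u z - 0‖ ^ 2) x ≤ M ^ 2 := by
    refine (w.E_mono _ (g := fun _ => M ^ 2) (fun z => ?_) x).trans (by rw [E_const])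
    rw [sub_zero]; exact pow_le_pow_left₀ (norm_nonneg _) (hM z) 2
  have h3 : 0 ≤ w.E (n + 1) (fun z => ‖u z - 0‖ ^ 2) x :=
    le_trans (by rw [E_const]) (w.E_mono _ (f := fun _ => 0) (fun z => sq_nonneg _) x)
  rw [div_lt_iff₀ hpos] at hN
  have h4 : (N : ℝ) ≤ n := by exact_mod_cast hn
  have hc := w.c₀_pos
  have h5 : (n + 1) * ‖u y - u x‖ ^ 2 ≤ w.c₀ * (d + 1) * M ^ 2 := by
    calc (n + 1) * ‖u y - u x‖ ^ 2 ≤ (n + 1) * (w.c₀ * (w.H (n + 1) o - w.H n o) *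
          w.E (n + 1) (fun z => ‖u z - 0‖ ^ 2) x) := mul_le_mul_of_nonneg_left h1 (by positivity)
      _ = w.c₀ * ((n + 1) * (w.H (n + 1) o - w.H n o)) *
          w.E (n + 1) (fun z => ‖u z - 0‖ ^ 2) x := by ring
      _ ≤ w.c₀ * (d + 1) * w.E (n + 1) (fun z => ‖u z - 0‖ ^ 2) x := by gcongr
      _ ≤ _ := by gcongr
  nlinarith

end RW

end Pool.Agent.Lib.Gromov
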