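import Pool.Agent.Lib.Gromov.Basic

set_option autoImplicit false

namespace Pool.Agent.Lib.Gromov

open Set

/-- Weakly polynomial of degree `d`. -/
def Wk (d : ℕ) (a : ℕ → ℕ) : Prop := ∃ C : ℕ, ∀ N, ∃ n, N ≤ n ∧ a n ≤ C * (n + 1) ^ d

/-- Polynomially bounded. -/
def Pl (a : ℕ → ℕ) : Prop := ∃ C D : ℕ, ∀ n, a n ≤ C * (n + 1) ^ D

section Numeric

variable {d : ℕ} {a b : ℕ → ℕ}

lemma Wk.scale (h : Wk d b) (hb : Monotone b) (c L : ℕ) (hab : ∀ n, a n ≤ c * b (L * n)) :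
    Wk d a := by
  obtain ⟨C, hC⟩ := h
  refine ⟨c * C * (L + 1) ^ d, fun N => ?_⟩
  obtain ⟨m, hm, hbm⟩ := hC ((L + 1) * N)
  refine ⟨m / (L + 1), (Nat.le_div_iff_mul_le (by omega)).2 (by rwa [mul_comm]), ?_⟩
  have h1 : (L + 1) * (m / (L + 1)) ≤ m := Nat.mul_div_le _ _
  have h2 : m < (L + 1) * (m / (L + 1) + 1) := Nat.lt_mul_div_succ _ (by omega)
  calc a (m / (L + 1)) ≤ c * b (L * (m / (L + 1))) := hab _
    _ ≤ c * b m := Nat.mul_le_mul_left _ (hb (by nlinarith))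
    _ ≤ c * (C * (m + 1) ^ d) := Nat.mul_le_mul_left _ hbm
    _ ≤ c * (C * ((L + 1) * (m / (L + 1) + 1)) ^ d) := by gcongr; omega
    _ = _ := by rw [mul_pow]; ring

lemma Wk.drop (h : Wk (d + 1) b) (hb : Monotone b) (hab : ∀ n, (n + 1) * a n ≤ b (2 * n)) :
    Wk d a := by
  obtain ⟨C, hC⟩ := h
  refine ⟨C * 2 ^ (d + 1), fun N => ?_⟩
  obtain ⟨m, hm, hbm⟩ := hC (2 * N)
  refine ⟨m / 2, by omega, ?_⟩
  refine Nat.le_of_mul_le_mul_left (c := m / 2 + 1) ?_ (by omega)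
  calc (m / 2 + 1) * a (m / 2) ≤ b (2 * (m / 2)) := hab _
    _ ≤ b m := hb (by omega)
    _ ≤ C * (m + 1) ^ (d + 1) := hbm
    _ ≤ C * (2 * (m / 2 + 1)) ^ (d + 1) := by gcongr; omega
    _ = _ := by rw [mul_pow]; ring

lemma Wk.bdd_of_zero (h : Wk 0 b) (hb : Monotone b) : ∃ C, ∀ n, b n ≤ C := by
  obtain ⟨C, hC⟩ := h
  refine ⟨C, fun n => ?_⟩
  obtain ⟨m, hm, hbm⟩ := hC n
  exact (hb hm).trans (by simpa using hbm)

lemma Wk.not_exp (h : Wk d b) (hb : Monotone b) (L : ℕ) :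
    ∃ m, b (L * 2 ^ m) < (2 ^ (d + 1)) ^ m := by
  obtain ⟨C, hC⟩ := h
  set m₀ := C * (2 * (L + 1)) ^ d with hm₀
  obtain ⟨n, hn, hbn⟩ := hC ((L + 1) * 2 ^ m₀)
  have hq : 2 ^ m₀ ≤ n / (L + 1) := (Nat.le_div_iff_mul_le (by omega)).2 (by rwa [mul_comm])
  have hq0 : n / (L + 1) ≠ 0 := by have := Nat.two_pow_pos m₀; omega
  set m := Nat.log 2 (n / (L + 1)) with hm
  have h1 : 2 ^ m ≤ n / (L + 1) := Nat.pow_log_le_self 2 hq0
  have h2 : n / (L + 1) < 2 ^ (m + 1) := Nat.lt_pow_succ_log_self (by norm_num) _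
  have h3 : m₀ ≤ m := Nat.le_log_of_pow_le (by norm_num) hq
  have h4 : (L + 1) * (n / (L + 1)) ≤ n := Nat.mul_div_le _ _
  have h5 : n < (L + 1) * (n / (L + 1) + 1) := Nat.lt_mul_div_succ _ (by omega)
  refine ⟨m, ?_⟩
  calc b (L * 2 ^ m) ≤ b n :=
        hb (le_trans (Nat.mul_le_mul (Nat.le_succ L) h1) h4)
    _ ≤ C * (n + 1) ^ d := hbn
    _ ≤ C * ((L + 1) * 2 ^ (m + 1)) ^ d := by
        gcongr
        calc n + 1 ≤ (L + 1) * (n / (L + 1) + 1) := h5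
          _ ≤ _ := Nat.mul_le_mul_left _ h2
    _ = m₀ * (2 ^ d) ^ m := by rw [hm₀, ← pow_mul, mul_pow, mul_pow, ← pow_mul]; ring
    _ < 2 ^ m * (2 ^ d) ^ m := by
        gcongr
        exact lt_of_le_of_lt h3 Nat.lt_two_pow_self
    _ = _ := by rw [← mul_pow]; ring

lemma Wk.not_exp' (h : Wk d b) (hb : Monotone b) (L : ℕ) : ∃ n, b (L * n) < 2 ^ n := by
  obtain ⟨m, hm⟩ := h.not_exp hb (L * (d + 1))
  refine ⟨(d + 1) * m, lt_of_le_of_lt (hb ?_) (by rwa [← pow_mul] at hm)⟩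
  rw [← mul_assoc]
  exact Nat.mul_le_mul_left _ Nat.lt_two_pow_self.le

lemma Wk.not_exp_real (h : Wk d b) {r c : ℝ} (hr : 1 < r) (hc : 0 < c) :
    ∃ n : ℕ, ((2 * n + 1) * (b n : ℝ)) ^ 2 < c * r ^ n := by
  obtain ⟨C, hC⟩ := h
  have h1 := (tendsto_pow_const_div_const_pow_of_one_lt (2 * d + 2) hr).comp
    (Filter.tendsto_add_atTop_nat 1)
  have hpos : 0 < c / (r * (4 * (C : ℝ) ^ 2 + 1)) := by positivity
  obtain ⟨N, hN⟩ := Filter.eventually_atTop.1 (h1.eventually (gt_mem_nhds hpos))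
  obtain ⟨n, hn, hbn⟩ := hC N
  refine ⟨n, ?_⟩
  have h2 := hN n hn
  simp only [Function.comp] at h2
  have hrn : 0 < r ^ n := by positivity
  rw [div_lt_div_iff₀ (by positivity) (by positivity)] at h2
  have h3 : (b n : ℝ) ≤ C * ((n : ℝ) + 1) ^ d := by exact_mod_cast hbn
  push_cast at h2
  have h4 : ((2 * n + 1) * (b n : ℝ)) ^ 2 ≤ (2 * ((n : ℝ) + 1) * (C * ((n : ℝ) + 1) ^ d)) ^ 2 := by
    gcongr; linarith
  have h5 : (2 * ((n : ℝ) + 1) * (C * ((n : ℝ) + 1) ^ d)) ^ 2 =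
      ((n : ℝ) + 1) ^ (2 * d + 2) * (4 * (C : ℝ) ^ 2) := by ring
  have h6 : ((n : ℝ) + 1) ^ (2 * d + 2) * (4 * (C : ℝ) ^ 2 + 1) < c * r ^ n := by
    rw [pow_succ r n] at h2
    have hr0 : 0 < r := by linarith
    refine lt_of_mul_lt_mul_right ?_ hr0.le
    nlinarith
  have h7 : 0 ≤ ((n : ℝ) + 1) ^ (2 * d + 2) := by positivity
  nlinarith

lemma Pl.scale (h : Pl b) (c L : ℕ) (hab : ∀ n, a n ≤ c * b (L * n)) : Pl a := by
  obtain ⟨C, D, hC⟩ := h
  refine ⟨c * C * (L + 1) ^ D, D, fun n => (hab n).trans ?_⟩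
  calc c * b (L * n) ≤ c * (C * (L * n + 1) ^ D) := Nat.mul_le_mul_left _ (hC _)
    _ ≤ c * (C * ((L + 1) * (n + 1)) ^ D) := by gcongr; nlinarith
    _ = _ := by rw [mul_pow]; ring

end Numeric

section Groups

variable {Γ : Type*} [Group Γ]

/-- Weak polynomial growth of degree `d` of `H` relative to `U`. -/
def WG (U H : Subgroup Γ) (d : ℕ) : Prop :=
  ∀ S : Set Γ, S ⊆ H → Bdd U S → Wk d fun n => cnt U (W S n)

/-- `H` is generated by a bounded set. -/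
def BG (U H : Subgroup Γ) : Prop := ∃ S : Set Γ, Bdd U S ∧ Subgroup.closure S = H

/-- Weak polynomial growth of a discrete group. -/
def WGd (G : Type*) [Group G] (d : ℕ) : Prop :=
  ∀ S : Set G, S.Finite → Wk d fun n => (W S n).ncard

variable {U H K : Subgroup Γ} {d : ℕ}

lemma monotone_cnt_W (hU : Comm U) {S : Set Γ} (hS : Bdd U S) :
    Monotone fun n => cnt U (W S n) :=
  fun _ m h => cnt_mono (hS.W hU m) (W_mono subset_rfl h)

lemma monotone_ncard_W {S : Set Γ} (hS : S.Finite) : Monotone fun n => (W S n).ncard :=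
  fun _ m h => ncard_le_ncard (W_mono subset_rfl h) (finite_W hS m)

lemma WG.mono (h : WG U H d) (hK : K ≤ H) : WG U K d :=
  fun S hS hb => h S (hS.trans hK) hb

lemma BG.symm_gen (hU : Comm U) (h : BG U H) :
    ∃ S : Set Γ, Bdd U S ∧ Subgroup.closure S = H ∧ ∀ a ∈ S, a⁻¹ ∈ S := by
  obtain ⟨S, h1, h2⟩ := h
  refine ⟨S ∪ S⁻¹, h1.union (h1.inv hU), ?_, ?_⟩
  · rw [Subgroup.closure_union, Subgroup.closure_inv, sup_idem, h2]
  · rintro a (ha | ha)
    · right; simpa using ha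
    · left; simpa using ha

lemma BG.of_finiteIndex (hU : Comm U) (h : BG U H) (hK : K ≤ H) (hKH : Bdd K H) : BG U K := by
  obtain ⟨S, h1, h2, h3⟩ := h.symm_gen hU
  obtain ⟨T, hT1, hT2, hT3⟩ := hKH.exists_right_reps
  have hS : S ⊆ H := h2 ▸ Subgroup.subset_closure
  set S' := {g | ∃ t ∈ (T : Set Γ), ∃ s ∈ S, ∃ t' ∈ (T : Set Γ), g = t * s * t'⁻¹} ∩ (K : Set Γ)
  refine ⟨S' ∪ ((T : Set Γ) ∩ K), Bdd.union ?_ (bdd_of_finite (T.finite_toSet.inter_of_left _)), ?_⟩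
  · refine (bdd_biUnion T.finite_toSet fun t _ => bdd_biUnion T.finite_toSet
      fun t' _ => h1.conj hU t t'⁻¹).mono ?_
    rintro _ ⟨⟨t, ht, s, hs, t', ht', rfl⟩, -⟩
    exact mem_biUnion ht (mem_biUnion ht' ⟨s, hs, rfl⟩)
  · apply le_antisymm
    · rw [Subgroup.closure_le]
      rintro g (hg | hg)
      exacts [hg.2, hg.2]
    · intro k hk
      obtain ⟨n, hn⟩ := exists_mem_W h3 (h2 ▸ hK hk)
      obtain ⟨t, ht, hw⟩ := schreier hS hT1 hT3 n hn hT2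
      have h4 : 1 * k * t⁻¹ ∈ Subgroup.closure (S' ∪ ((T : Set Γ) ∩ K)) :=
        W_subset_subgroup (subset_union_left.trans Subgroup.subset_closure) n hw
      have h5 : 1 * k * t⁻¹ ∈ K := W_subset_subgroup (H := K) inter_subset_right n hw
      have h6 : t ∈ K := by
        have := K.mul_mem (K.inv_mem h5) hk
        simpa using this
      have h7 : t ∈ Subgroup.closure (S' ∪ ((T : Set Γ) ∩ K)) :=
        Subgroup.subset_closure (Or.inr ⟨ht, h6⟩)
      simpa using Subgroup.mul_mem _ h4 h7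

lemma WG.comap {A : Type*} [Group A] (hU : Comm U) (h : WG U H d) (f : A →* Γ)
    (hf : ∀ a, f a ∈ H) : WG (U.comap f) ⊤ d := by
  intro S _ hS
  rw [bdd_comap] at hS
  have h1 := h (f '' S) (by rintro _ ⟨a, -, rfl⟩; exact hf a) hS
  refine h1.scale (monotone_cnt_W hU hS) 1 1 fun n => ?_
  rw [one_mul, one_mul, ← image_W]
  exact cnt_comap_le f (by rw [image_W]; exact hS.W hU n)

lemma BG.subtype (h : BG U H) : BG (U.comap H.subtype) ⊤ := by
  obtain ⟨S, h1, h2⟩ := h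
  refine ⟨H.subtype ⁻¹' S, ?_, ?_⟩
  · rw [bdd_comap]; exact h1.mono (image_preimage_subset _ _)
  · subst h2
    exact Subgroup.closure_preimage_eq_top S

lemma wgd_iff {G : Type*} [Group G] : WGd G d ↔ WG (⊥ : Subgroup G) ⊤ d := by
  unfold WGd WG
  simp only [cnt_bot, bdd_bot_iff]
  exact ⟨fun h S _ hS => h S hS, fun h S hS => h S (by simp) hS⟩

lemma WGd.of_injective {G A : Type*} [Group G] [Group A] (h : WGd G d) (f : A →* G)
    (hf : Function.Injective f) : WGd A d := by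
  intro S hS
  refine (h (f '' S) (hS.image f)).scale (monotone_ncard_W (hS.image f)) 1 1 fun n => ?_
  rw [one_mul, one_mul, ← image_W, ncard_image_of_injective _ hf]

lemma WGd.subgroup {G : Type*} [Group G] (h : WGd G d) (H : Subgroup G) : WGd H d :=
  h.of_injective H.subtype H.subtype_injective

lemma ncard_image_le_cnt {Q : Type*} [Group Q] (π : Γ →* Q) (hfin : (π '' U).Finite) {A : Set Γ}
    (hA : Bdd U A) : (π '' A).ncard ≤ (π '' U).ncard * cnt U A := by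
  classical
  obtain ⟨T, -, hT1, hT⟩ := hA.exists_reps
  have h1 : π '' A ⊆ ((Finset.image₂ (· * ·) (T.image π) hfin.toFinset : Finset Q) : Set Q) := by
    rintro _ ⟨a, ha, rfl⟩
    obtain ⟨t, ht, h⟩ := hT a ha
    have : π a = π t * π (t⁻¹ * a) := by simp
    rw [this]
    exact Finset.mem_coe.2 (Finset.mem_image₂_of_mem (Finset.mem_image_of_mem π ht)
      (hfin.mem_toFinset.2 ⟨_, h, rfl⟩))
  refine (ncard_le_ncard h1 (Finset.finite_toSet _)).trans ?_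
  rw [ncard_coe_finset, ncard_eq_toFinset_card _ hfin, mul_comm]
  exact (Finset.card_image₂_le _ _ _).trans
    (Nat.mul_le_mul (Finset.card_image_le.trans hT1) le_rfl)

lemma finite_image_of_bdd {Q : Type*} [Group Q] (π : Γ →* Q) (hfin : (π '' U).Finite) {A : Set Γ}
    (hA : Bdd U A) : (π '' A).Finite := by
  obtain ⟨T, -, -, hT⟩ := hA.exists_reps
  refine ((T.finite_toSet.image π).image2 (· * ·) hfin).subset ?_
  rintro _ ⟨a, ha, rfl⟩
  obtain ⟨t, ht, h⟩ := hT a ha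
  exact ⟨π t, ⟨t, ht, rfl⟩, π (t⁻¹ * a), ⟨_, h, rfl⟩, by simp⟩

/-- Passing to a discrete quotient in which `U` has finite image. -/
lemma WG.discrete {Q : Type*} [Group Q] (hU : Comm U) (h : WG U ⊤ d) (π : Γ →* Q)
    (hπ : Function.Surjective π) (hfin : (π '' U).Finite) : WGd Q d := by
  intro S hS
  obtain ⟨S', -, hS1, hS2⟩ := Finite.exists_subset_finite_image_eq (f := π) (s := univ) hS
    (by rw [image_univ, hπ.range_eq]; exact subset_univ _)
  have hb : Bdd U S' := bdd_of_finite hS1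
  refine (h S' (by simp) hb).scale (monotone_cnt_W hU hb) (π '' U).ncard 1 fun n => ?_
  rw [one_mul, ← hS2, ← image_W]
  exact ncard_image_le_cnt π hfin (hb.W hU n)

end Groups

end Pool.Agent.Lib.Gromov
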