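import Pool.Agent.Lib.Gromov.Entropy

set_option autoImplicit false

namespace Pool.Agent.Lib.Gromov

open Finset Filter Topology

/-- The inner product of finitely supported functions. -/
noncomputable def ip {Y : Type*} (a b : Y →₀ ℝ) : ℝ := Finsupp.linearCombination ℝ b a

section ip

variable {Y : Type*}

lemma ip_eq_sum (a b : Y →₀ ℝ) {s : Finset Y} (hs : ∀ z, z ∉ s → a z = 0 ∨ b z = 0) :
    ip a b = ∑ z ∈ s, a z * b z :=
  lc_eq_sum _ _ s fun z hz => by rcases hs z hz with h | h <;> simp [h]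

lemma ip_comm (a b : Y →₀ ℝ) : ip a b = ip b a := by
  rw [ip_eq_sum a b (s := a.support) fun z hz => Or.inl (Finsupp.notMem_support_iff.1 hz),
    ip_eq_sum b a (s := a.support) fun z hz => Or.inr (Finsupp.notMem_support_iff.1 hz)]
  exact sum_congr rfl fun z _ => mul_comm _ _

lemma ip_sub_left (a b c : Y →₀ ℝ) : ip (a - b) c = ip a c - ip b c := map_sub _ _ _

lemma ip_sub_right (a b c : Y →₀ ℝ) : ip a (b - c) = ip a b - ip a c := by
  rw [ip_comm, ip_sub_left, ip_comm b, ip_comm c]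

lemma ip_cs (a b : Y →₀ ℝ) : ip a b ^ 2 ≤ ip a a * ip b b := by
  classical
  have ha : ∀ z, z ∉ a.support ∪ b.support → a z = 0 := fun z hz =>
    Finsupp.notMem_support_iff.1 fun h => hz (mem_union_left _ h)
  have hb : ∀ z, z ∉ a.support ∪ b.support → b z = 0 := fun z hz =>
    Finsupp.notMem_support_iff.1 fun h => hz (mem_union_right _ h)
  rw [ip_eq_sum a b fun z hz => Or.inl (ha z hz), ip_eq_sum a a fun z hz => Or.inl (ha z hz),
    ip_eq_sum b b fun z hz => Or.inl (hb z hz)]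
  simpa only [sq] using sum_mul_sq_le_sq_mul_sq (a.support ∪ b.support) a b

lemma sq_le_ip (a : Y →₀ ℝ) (z : Y) : a z ^ 2 ≤ ip a a := by
  classical
  rw [ip_eq_sum a a (s := insert z a.support) fun y hy =>
    Or.inl (Finsupp.notMem_support_iff.1 fun h => hy (mem_insert_of_mem h)), sq]
  exact single_le_sum (f := fun y => a y * a y) (fun y _ => mul_self_nonneg _) (mem_insert_self _ _)

lemma ip_self_nonneg (a : Y →₀ ℝ) : 0 ≤ ip a a := by
  rw [ip_eq_sum a a (s := a.support) fun y hy => Or.inl (Finsupp.notMem_support_iff.1 hy)]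
  exact sum_nonneg fun y _ => mul_self_nonneg _

end ip

namespace RW

variable {G Y : Type*} [Group G] [MulAction G Y] (w : RW G Y)

lemma ip_μ (n m : ℕ) (x y : Y) : ip (w.μ n x) (w.μ m y) = w.μ (n + m) x y := w.E_μ n m x y

lemma μ_diag (n : ℕ) (x y : Y) : w.μ n x x = w.μ n y y := by
  obtain ⟨g, rfl⟩ := w.trans y x
  exact w.μ_smul g n y y

lemma psd (g : Y →₀ ℝ) : 0 ≤ Finsupp.linearCombination ℝ (w.P g) g := by
  classical
  set s := g.support
  have h1 : ∀ x, w.P g x = ∑ y ∈ s, w.k x y * g y := by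
    intro x
    have e1 := lc_eq_sum (w.k x) g (w.N x) fun y hy => by simp [w.k_zero x y hy]
    have e2 := lc_eq_sum (w.k x) g s fun y hy => by simp [Finsupp.notMem_support_iff.1 hy]
    simp only [P, smul_eq_mul, mul_comm (w.k x _)]
    exact e1.symm.trans e2
  have h2 : ∀ x, ∑ y ∈ s, w.k x y ≤ 1 := by
    intro x
    rw [← w.k_sum x, ← sum_inter_add_sum_sdiff s (w.N x),
      sum_eq_zero (s := s \ w.N x) fun y hy => w.k_zero x y (mem_sdiff.1 hy).2, add_zero]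
    exact sum_le_sum_of_subset_of_nonneg inter_subset_right fun y _ _ => w.k_nonneg x y
  rw [lc_eq_sum _ g s fun y hy => by simp [Finsupp.notMem_support_iff.1 hy]]
  simp only [h1, smul_eq_mul, mul_sum]
  have h3 : ∑ x ∈ s, ∑ y ∈ s, w.k x y * (g x) ^ 2 ≤ ∑ x ∈ s, g x ^ 2 :=
    sum_le_sum fun x _ => by
      rw [← sum_mul]; nlinarith [h2 x, sq_nonneg (g x)]
  have h4 : ∑ x ∈ s, ∑ y ∈ s, w.k x y * (g y) ^ 2 ≤ ∑ x ∈ s, g x ^ 2 := by
    rw [sum_comm]
    simpa only [w.k_symm] using h3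
  have h5 : 2 * ∑ x ∈ s, g x ^ 2 ≤ ∑ x ∈ s, ∑ y ∈ s, w.k x y * (g x + g y) ^ 2 := by
    rw [mul_sum]
    refine sum_le_sum fun x hx => le_trans ?_ (single_le_sum
      (f := fun y => w.k x y * (g x + g y) ^ 2)
      (fun y _ => mul_nonneg (w.k_nonneg x y) (sq_nonneg _)) hx)
    nlinarith [w.k_half x, sq_nonneg (g x)]
  have h6 : ∑ x ∈ s, ∑ y ∈ s, w.k x y * (g x + g y) ^ 2 =
      ∑ x ∈ s, ∑ y ∈ s, w.k x y * (g x) ^ 2 + ∑ x ∈ s, ∑ y ∈ s, w.k x y * (g y) ^ 2 +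
        2 * ∑ x ∈ s, ∑ y ∈ s, g x * (w.k x y * g y) := by
    simp only [mul_sum, ← sum_add_distrib]
    exact sum_congr rfl fun x _ => sum_congr rfl fun y _ => by ring
  linarith

/-- Differences of return probabilities. -/
noncomputable def a (o : Y) (m : ℕ) : ℝ := w.μ m o o - w.μ (m + 1) o o

lemma a_odd (o : Y) (n : ℕ) : w.a o (2 * n + 2) ≤ w.a o (2 * n + 1) := by
  have h := w.psd (w.μ n o - w.μ (n + 1) o)
  have h1 : w.P (w.μ n o - w.μ (n + 1) o : Y →₀ ℝ) =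
      (w.μ (n + 1) o - w.μ (n + 2) o : Y →₀ ℝ) := by
    funext x
    simp only [P, Finsupp.sub_apply, smul_eq_mul, mul_sub, sum_sub_distrib]
    rw [w.μ_symm (n + 1), w.μ_symm (n + 2), w.μ_succ_apply n, w.μ_succ_apply (n + 1)]
    simp only [w.μ_symm _ o]
  rw [h1] at h
  change 0 ≤ ip _ _ at h
  simp only [ip_sub_left, ip_sub_right, ip_μ] at h
  unfold a
  ring_nf at h ⊢
  linarith

/-- Squared distance between the laws from two points. -/
noncomputable def nsq (n : ℕ) (x y : Y) : ℝ := ip (w.μ n x - w.μ n y) (w.μ n x - w.μ n y)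

lemma nsq_eq (o : Y) (n : ℕ) (x y : Y) :
    w.nsq n x y = 2 * w.μ (2 * n) o o - 2 * w.μ (2 * n) x y := by
  simp only [nsq, ip_sub_left, ip_sub_right, ip_μ, ← two_mul]
  rw [w.μ_diag _ x o, w.μ_diag _ y o, w.μ_symm _ y x]
  ring

lemma sum_nsq (o : Y) (n : ℕ) : ∑ y ∈ w.N o, w.k o y * w.nsq n o y = 2 * w.a o (2 * n) := by
  simp only [w.nsq_eq o, mul_sub, sum_sub_distrib, a]
  rw [← sum_mul, w.k_sum, w.μ_succ_apply, mul_sum]
  congr 1
  · ring
  · exact sum_congr rfl fun y _ => by rw [w.μ_symm _ o y]; ring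

lemma exists_max_nsq (o : Y) (n : ℕ) :
    ∃ y₀ ∈ w.N o, (∀ x, ∀ y ∈ w.N x, w.nsq n x y ≤ w.nsq n o y₀) ∧
      2 * w.a o (2 * n) ≤ w.nsq n o y₀ ∧ w.κ * w.nsq n o y₀ ≤ 2 * w.a o (2 * n) := by
  obtain ⟨y₀, hy₀, hmax⟩ := exists_max_image (w.N o) (w.nsq n o) ⟨o, w.self_mem_N o⟩
  refine ⟨y₀, hy₀, fun x y hy => ?_, ?_, ?_⟩
  · obtain ⟨g, rfl⟩ := w.trans x o
    refine le_trans (le_of_eq ?_) (hmax (g • y) ((w.smul_mem_N g).2 hy))
    rw [w.nsq_eq x, w.nsq_eq x, w.μ_smul]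
  · rw [← w.sum_nsq]
    calc _ ≤ ∑ y ∈ w.N o, w.k o y * w.nsq n o y₀ :=
          sum_le_sum fun y hy => mul_le_mul_of_nonneg_left (hmax y hy) (w.k_nonneg o y)
      _ = _ := by rw [← sum_mul, w.k_sum, one_mul]
  · rw [← w.sum_nsq]
    refine le_trans (mul_le_mul_of_nonneg_right (w.k_ge o y₀ hy₀) (ip_self_nonneg _)) ?_
    exact single_le_sum (f := fun y => w.k o y * w.nsq n o y)
      (fun y _ => mul_nonneg (w.k_nonneg o y) (ip_self_nonneg _)) hy₀

lemma exists_new [Infinite Y] (o : Y) (n : ℕ) : ∃ z ∈ w.B (n + 1) o, z ∉ w.B n o := by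
  by_contra hcon
  push Not at hcon
  have h1 : ∀ m, w.B m o ⊆ w.B n o := by
    intro m
    induction m with
    | zero => exact w.B_mono o (Nat.zero_le n)
    | succ m ih =>
      intro z hz
      obtain ⟨y, hy, hz⟩ := w.mem_B_succ_iff.1 hz
      exact hcon z (w.mem_B_succ (ih hy) hz)
  obtain ⟨z, hz⟩ := Infinite.exists_notMem_finset (w.B n o)
  obtain ⟨m, hm⟩ := w.exists_mem_B o z
  exact hz (h1 m hm)

lemma a_lower [Infinite Y] (o : Y) (n : ℕ) :
    w.κ ≤ 2 * w.a o (2 * n) * ((2 * n + 1) * ((w.B n o).card : ℝ)) ^ 2 := by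
  obtain ⟨y₀, -, h1, -, h3⟩ := w.exists_max_nsq o n
  set L := √(w.nsq n o y₀)
  have hL : L ^ 2 = w.nsq n o y₀ := Real.sq_sqrt (ip_self_nonneg _)
  have hlip : ∀ x, ∀ y ∈ w.N x, ‖w.μ n o y - w.μ n o x‖ ≤ L := by
    intro x y hy
    refine Real.le_sqrt_of_sq_le (le_trans ?_ (h1 x y hy))
    refine le_trans (le_of_eq ?_) (sq_le_ip (w.μ n x - w.μ n y) o)
    rw [Real.norm_eq_abs, sq_abs, Finsupp.sub_apply, w.μ_symm n x, w.μ_symm n y]
    ring
  have hN : (0 : ℝ) < (w.B n o).card := by exact_mod_cast w.card_B_pos n o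
  obtain ⟨x, hx, hx1⟩ : ∃ x ∈ w.B n o, 1 / ((w.B n o).card : ℝ) ≤ w.μ n o x := by
    refine exists_le_of_sum_le ⟨o, w.self_mem_B n o⟩ ?_
    rw [w.sum_μ n o subset_rfl, sum_const, nsmul_eq_mul, mul_one_div_cancel hN.ne']
  obtain ⟨z, hz, hz1⟩ := w.exists_new o n
  have e1 := w.lip_B hlip hx
  have e2 := w.lip_B hlip hz
  rw [w.μ_eq_zero hz1] at e2
  rw [Real.norm_eq_abs, abs_le] at e1 e2
  push_cast at e2
  have e3 : 1 ≤ (2 * n + 1) * ((w.B n o).card : ℝ) * L := by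
    rw [div_le_iff₀ hN] at hx1
    nlinarith [e1.2, e2.1]
  have e4 : 1 ≤ ((2 * n + 1) * ((w.B n o).card : ℝ)) ^ 2 * w.nsq n o y₀ := by
    rw [← hL, ← mul_pow]; nlinarith
  have hκ := w.κ_pos
  nlinarith [sq_nonneg ((2 * n + 1) * ((w.B n o).card : ℝ))]

lemma exists_slow [Infinite Y] {d : ℕ} (o : Y) (hw : Wk d fun n => (w.B n o).card) {ε : ℝ}
    (hε : 0 < ε) (hε1 : ε < 1) :
    ∃ n, w.a o (2 * n) - w.a o (2 * n + 1) ≤ ε * w.a o (2 * n) := by
  by_contra hcon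
  push Not at hcon
  have h1 : ∀ n, w.a o (2 * n) ≤ (1 - ε) ^ n := by
    intro n
    induction n with
    | zero =>
      have := w.μ_nonneg 1 o o
      simp only [a, mul_zero, zero_add, pow_zero]
      simp only [μ, Finsupp.single_eq_same] at this ⊢
      linarith
    | succ n ih =>
      have h2 := w.a_odd o n
      have h3 := hcon n
      rw [pow_succ, show 2 * (n + 1) = 2 * n + 2 by ring]
      nlinarith
  have hκ := w.κ_pos
  have hr : 1 < (1 - ε)⁻¹ := one_lt_inv_iff₀.2 ⟨by linarith, by linarith⟩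
  obtain ⟨n, hn⟩ := hw.not_exp_real hr (half_pos hκ)
  have h2 := w.a_lower o n
  have h3 : 0 < (1 - ε) ^ n := pow_pos (by linarith) n
  rw [inv_pow, ← div_eq_mul_inv, lt_div_iff₀ h3] at hn
  nlinarith [h1 n, sq_nonneg ((2 * n + 1) * ((w.B n o).card : ℝ))]

lemma exists_approx [Infinite Y] {d : ℕ} (o : Y) (hw : Wk d fun n => (w.B n o).card) {ε : ℝ}
    (hε : 0 < ε) (hε1 : ε < 1) :
    ∃ h : Y → ℝ, h o = 0 ∧ (∀ x, ∀ y ∈ w.N x, ‖h y - h x‖ ≤ 1) ∧ 1 ≤ ∑ y ∈ w.N o, ‖h y‖ ∧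
      ∀ x, ‖h x - w.P h x‖ ≤ ε := by
  obtain ⟨n, hn⟩ := w.exists_slow o hw (pow_pos hε 2) (by nlinarith)
  obtain ⟨y₀, hy₀, h1, h2, h3⟩ := w.exists_max_nsq o n
  have ha : 0 < w.a o (2 * n) := by
    have := w.a_lower o n
    have hκ := w.κ_pos
    by_contra h
    nlinarith [sq_nonneg ((2 * n + 1) * ((w.B n o).card : ℝ))]
  set L := w.nsq n o y₀ with hL
  have hLpos : 0 < L := by linarith
  set φ := w.μ n o - w.μ n y₀
  refine ⟨fun x => (ip (w.μ n x) φ - ip (w.μ n o) φ) / L, by simp, fun x y hy => ?_, ?_,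
    fun x => ?_⟩
  · rw [← sub_div, sub_sub_sub_cancel_right, ← ip_sub_left, Real.norm_eq_abs, abs_div,
      abs_of_pos hLpos, div_le_one hLpos]
    refine abs_le_of_sq_le_sq' ?_ hLpos.le |> abs_le.2
    refine (ip_cs _ _).trans ?_
    rw [sq]
    exact mul_le_mul_of_nonneg_right (h1 y x (w.N_symm hy)) hLpos.le
  · refine le_trans (le_of_eq ?_) (single_le_sum
      (f := fun y => ‖(ip (w.μ n y) φ - ip (w.μ n o) φ) / L‖) (fun y _ => norm_nonneg _) hy₀)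
    rw [← neg_sub, ← ip_sub_left, neg_div, norm_neg]
    change 1 = ‖L / L‖
    rw [div_self hLpos.ne', norm_one]
  · have e1 : w.P (fun x => (ip (w.μ n x) φ - ip (w.μ n o) φ) / L) x =
        (ip (w.μ (n + 1) x) φ - ip (w.μ n o) φ) / L := by
      have : ip (w.μ (n + 1) x) φ = w.P (fun x => ip (w.μ n x) φ) x := by
        change w.E (n + 1) φ x = w.P (w.E n φ) x
        rw [E_succ]
      rw [this]
      simp only [P, smul_eq_mul, ← mul_div_assoc, ← sum_div, mul_sub, sum_sub_distrib]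
      rw [← sum_mul, w.k_sum, one_mul]
    rw [e1, ← sub_div, sub_sub_sub_cancel_right, ← ip_sub_left, Real.norm_eq_abs, abs_div,
      abs_of_pos hLpos, div_le_iff₀ hLpos]
    refine abs_le_of_sq_le_sq' ?_ (by positivity) |> abs_le.2
    refine (ip_cs _ _).trans ?_
    have e2 : ip (w.μ n x - w.μ (n + 1) x) (w.μ n x - w.μ (n + 1) x) =
        w.a o (2 * n) - w.a o (2 * n + 1) := by
      simp only [ip_sub_left, ip_sub_right, ip_μ, a, w.μ_diag _ x o]
      ring_nf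
    rw [e2]
    change _ * L ≤ _
    have e3 : ε ^ 2 * w.a o (2 * n) ≤ ε ^ 2 * L :=
      mul_le_mul_of_nonneg_left (by linarith) (sq_nonneg _)
    nlinarith

lemma exists_lim {V : Type*} [NormedAddCommGroup V] [ProperSpace V] (𝒰 : Ultrafilter ℕ)
    {f : ℕ → V} {M : ℝ} (h : ∀ n, ‖f n‖ ≤ M) : ∃ c, Tendsto f 𝒰 (𝓝 c) := by
  obtain ⟨c, -, hc⟩ := (isCompact_closedBall (0 : V) M).ultrafilter_le_nhds (𝒰.map f)
    (by
      rw [le_principal_iff, Ultrafilter.mem_coe, Ultrafilter.mem_map]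
      exact univ_mem' fun n => by simpa using h n)
  exact ⟨c, hc⟩

theorem exists_harmonic [Infinite Y] {d : ℕ} (o : Y) (hw : Wk d fun n => (w.B n o).card) :
    ∃ h : Y → ℝ, h o = 0 ∧ (∀ x, ∀ y ∈ w.N x, ‖h y - h x‖ ≤ 1) ∧ w.P h = h ∧ h ≠ 0 := by
  have hex : ∀ m : ℕ, ∃ h : Y → ℝ, h o = 0 ∧ (∀ x, ∀ y ∈ w.N x, ‖h y - h x‖ ≤ 1) ∧
      1 ≤ ∑ y ∈ w.N o, ‖h y‖ ∧ ∀ x, ‖h x - w.P h x‖ ≤ 1 / ((m : ℝ) + 2) := fun m =>
    w.exists_approx o hw (by positivity) (by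
      rw [div_lt_one (by positivity)]; linarith [(Nat.cast_nonneg m : (0 : ℝ) ≤ m)])
  choose f hf0 hf1 hf2 hf3 using hex
  have hlim : ∀ x, ∃ c, Tendsto (fun m => f m x) (hyperfilter ℕ) (𝓝 c) := by
    intro x
    obtain ⟨n, hn⟩ := w.exists_mem_B o x
    refine exists_lim _ (M := n * 1) fun m => ?_
    simpa [hf0] using w.lip_B (hf1 m) hn
  choose h hh using hlim
  refine ⟨h, ?_, fun x y hy => ?_, ?_, ?_⟩
  · exact tendsto_nhds_unique (hh o) (by simp [hf0])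
  · exact le_of_tendsto' ((hh y).sub (hh x)).norm fun m => hf1 m x y hy
  · funext x
    have h1 : Tendsto (fun m => f m x - w.P (f m) x) (hyperfilter ℕ) (𝓝 (h x - w.P h x)) :=
      (hh x).sub (tendsto_finsetSum _ fun y _ => (hh y).const_smul _)
    have h2 : Tendsto (fun m => f m x - w.P (f m) x) (hyperfilter ℕ) (𝓝 0) := by
      refine Tendsto.mono_left ?_ (Nat.hyperfilter_le_atTop)
      refine squeeze_zero_norm (fun m => hf3 m x) ?_
      exact tendsto_const_nhds.div_atTop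
        (tendsto_atTop_add_const_right _ _ tendsto_natCast_atTop_atTop)
    exact (sub_eq_zero.1 (tendsto_nhds_unique h1 h2)).symm
  · rintro rfl
    have h1 : Tendsto (fun m => ∑ y ∈ w.N o, ‖f m y‖) (hyperfilter ℕ)
        (𝓝 (∑ y ∈ w.N o, ‖(0 : Y → ℝ) y‖)) := tendsto_finsetSum _ fun y _ => (hh y).norm
    have := ge_of_tendsto' h1 hf2
    norm_num at this

end RW

end Pool.Agent.Lib.Gromov
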