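import Pool.Agent.Lib.Gromov.Indicable

set_option autoImplicit false

namespace Pool.Agent.Lib.Gromov

open Set

variable {Γ : Type*} [Group Γ] {U H K R : Subgroup Γ} {d : ℕ}

/-- Every subgroup between `R` and `H` is finitely generated over `R`. -/
def Noeth (R H : Subgroup Γ) : Prop :=
  ∀ L, R ≤ L → L ≤ H → ∃ S : Set Γ, S.Finite ∧ Subgroup.closure S ⊔ R = L

/-- `R` is a normal subgroup of `H`. -/
def Nrm (R H : Subgroup Γ) : Prop := R ≤ H ∧ ∀ h ∈ H, ∀ r ∈ R, h * r * h⁻¹ ∈ R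

lemma mem_sup_nrm {A : Subgroup Γ} (h : ∀ a ∈ A, ∀ k ∈ K, a * k * a⁻¹ ∈ K) {g : Γ}
    (hg : g ∈ A ⊔ K) : ∃ a ∈ A, a⁻¹ * g ∈ K := by
  rw [Subgroup.sup_eq_closure] at hg
  induction hg using Subgroup.closure_induction with
  | mem x hx =>
    rcases hx with hx | hx
    · exact ⟨x, hx, by simp⟩
    · exact ⟨1, A.one_mem, by simpa using hx⟩
  | one => exact ⟨1, A.one_mem, by simp⟩
  | mul x y _ _ hx hy =>
    obtain ⟨a, ha, h1⟩ := hx
    obtain ⟨b, hb, h2⟩ := hy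
    refine ⟨a * b, A.mul_mem ha hb, ?_⟩
    convert K.mul_mem (h _ (A.inv_mem hb) _ h1) h2 using 1
    group
  | inv x _ hx =>
    obtain ⟨a, ha, h1⟩ := hx
    refine ⟨a⁻¹, A.inv_mem ha, ?_⟩
    convert h _ ha _ (K.inv_mem h1) using 1
    group

lemma Noeth.mono {R' : Subgroup Γ} (h : Noeth R H) (hR : R ≤ R') : Noeth R' H := by
  intro L h1 h2
  obtain ⟨S, hS, e⟩ := h L (hR.trans h1) h2
  refine ⟨S, hS, le_antisymm (sup_le (le_sup_left.trans e.le) h1) ?_⟩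
  exact e.ge.trans (sup_le_sup_left hR _)

lemma Noeth.ext (hR : R ≤ K) (hK : Nrm K H) (h1 : Noeth R K) (h2 : Noeth K H) : Noeth R H := by
  intro L e1 e2
  obtain ⟨S₁, hS₁, f1⟩ := h1 (L ⊓ K) (le_inf e1 hR) inf_le_right
  obtain ⟨S₂, hS₂, f2⟩ := h2 (L ⊔ K) le_sup_right (sup_le e2 hK.1)
  have h3 : ∀ s ∈ S₂, ∃ a ∈ L, a⁻¹ * s ∈ K := fun s hs =>
    mem_sup_nrm (fun a ha => hK.2 a (e2 ha))
      (f2 ▸ Subgroup.mem_sup_left (Subgroup.subset_closure hs))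
  choose! r hr using h3
  have h4 : Subgroup.closure (r '' S₂) ≤ L := by
    rw [Subgroup.closure_le]; rintro _ ⟨s, hs, rfl⟩; exact (hr s hs).1
  refine ⟨S₁ ∪ r '' S₂, hS₁.union (hS₂.image r), le_antisymm ?_ fun g hg => ?_⟩
  · rw [Subgroup.closure_union]
    exact sup_le (sup_le ((le_sup_left.trans f1.le).trans inf_le_left) h4) e1
  · have h5 : L ⊔ K ≤ Subgroup.closure (r '' S₂) ⊔ K := by
      rw [← f2]
      refine sup_le ?_ le_sup_right
      rw [Subgroup.closure_le]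
      intro s hs
      have := Subgroup.mul_mem _ (Subgroup.mem_sup_left (T := K)
        (Subgroup.subset_closure (k := r '' S₂) ⟨s, hs, rfl⟩)) (Subgroup.mem_sup_right (hr s hs).2)
      simpa using this
    obtain ⟨a, ha, h6⟩ := mem_sup_nrm (fun a ha => hK.2 a (e2 (h4 ha)))
      (h5 (Subgroup.mem_sup_left hg))
    have h7 : a⁻¹ * g ∈ Subgroup.closure S₁ ⊔ R :=
      f1 ▸ Subgroup.mem_inf.2 ⟨L.mul_mem (L.inv_mem (h4 ha)) hg, h6⟩
    have h8 := Subgroup.mul_mem _ (Subgroup.mem_sup_left (T := R)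
      (Subgroup.closure_mono (subset_union_right (s := S₁)) ha))
      (sup_le_sup_right (Subgroup.closure_mono subset_union_left) R h7)
    simpa using h8

lemma Noeth.fin (hR : R ≤ K) (h1 : Noeth R K) (h2 : Bdd K H) : Noeth R H := by
  intro L e1 e2
  obtain ⟨S₁, hS₁, f1⟩ := h1 (L ⊓ K) (le_inf e1 hR) inf_le_right
  obtain ⟨T, hT1, -, hT⟩ := (h2.inf L).exists_reps
  refine ⟨S₁ ∪ T, hS₁.union T.finite_toSet, le_antisymm ?_ fun g hg => ?_⟩
  · rw [Subgroup.closure_union]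
    refine sup_le (sup_le ((le_sup_left.trans f1.le).trans inf_le_left) ?_) e1
    rw [Subgroup.closure_le]
    exact fun t ht => (hT1 ht).1
  · obtain ⟨t, ht, h3⟩ := hT g ⟨hg, e2 hg⟩
    rw [← f1] at h3
    have h8 := Subgroup.mul_mem _ (Subgroup.mem_sup_left (T := R)
      (Subgroup.subset_closure (k := S₁ ∪ T) (Or.inr ht)))
      (sup_le_sup_right (Subgroup.closure_mono subset_union_left) R h3)
    simpa using h8

lemma noeth_cyc {t : Γ} (h : ∀ g ∈ H, ∃ n : ℤ, (t ^ n)⁻¹ * g ∈ K) : Noeth K H := by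
  intro L e1 e2
  let A : AddSubgroup ℤ :=
    { carrier := {n | t ^ n ∈ L}
      add_mem' := fun ha hb => by rw [mem_ofPred_eq, zpow_add]; exact L.mul_mem ha hb
      zero_mem' := by simp
      neg_mem' := fun ha => by rw [mem_ofPred_eq, zpow_neg]; exact L.inv_mem ha }
  obtain ⟨a, ha⟩ := Int.subgroup_cyclic A
  refine ⟨{t ^ a}, finite_singleton _, le_antisymm (sup_le ?_ e1) fun g hg => ?_⟩
  · rw [Subgroup.closure_le, singleton_subset_iff]
    have : a ∈ A := ha ▸ AddSubgroup.subset_closure rfl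
    exact this
  · obtain ⟨n, hn⟩ := h g (e2 hg)
    have h1 : n ∈ A := by
      have := L.mul_mem hg (L.inv_mem (e1 hn))
      change t ^ n ∈ L
      simpa using this
    rw [ha, AddSubgroup.mem_closure_singleton] at h1
    obtain ⟨m, rfl⟩ := h1
    have h2 : t ^ (m • a) ∈ Subgroup.closure {t ^ a} := by
      rw [smul_eq_mul, mul_comm, zpow_mul]
      exact Subgroup.zpow_mem _ (Subgroup.subset_closure (mem_singleton _)) m
    simpa using Subgroup.mul_mem _ (Subgroup.mem_sup_left h2) (Subgroup.mem_sup_right hn)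

lemma exists_max (hU : Comm U) (h1 : Nrm R K) (h2 : Bdd U R) (h3 : Noeth R K) :
    ∃ R', R ≤ R' ∧ R' ≤ K ∧ Bdd U R' ∧
      ∀ g, (∀ k ∈ K, g * k * g⁻¹ ∈ K) → (∀ k ∈ K, g⁻¹ * k * g ∈ K) →
        ∀ r ∈ R', g * r * g⁻¹ ∈ R' := by
  set 𝓑 : Set (Subgroup Γ) := {B | Nrm B K ∧ Bdd U B}
  have hsup : ∀ B ∈ 𝓑, ∀ B' ∈ 𝓑, B ⊔ B' ∈ 𝓑 := by
    rintro B ⟨e1, e2⟩ B' ⟨e3, e4⟩
    have e5 : ∀ g ∈ B ⊔ B', ∃ a ∈ B, a⁻¹ * g ∈ B' := fun g hg =>
      mem_sup_nrm (fun a ha => e3.2 a (e1.1 ha)) hg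
    refine ⟨⟨sup_le e1.1 e3.1, fun h hh g hg => ?_⟩, (e2.mul hU e4).mono fun g hg => ?_⟩
    · obtain ⟨a, ha, hb⟩ := e5 g hg
      convert Subgroup.mul_mem _ (Subgroup.mem_sup_left (e1.2 h hh a ha))
        (Subgroup.mem_sup_right (e3.2 h hh _ hb)) using 1
      group
    · obtain ⟨a, ha, hb⟩ := e5 g hg
      exact ⟨a, ha, _, hb, by simp⟩
  have hdir : DirectedOn (· ≤ ·) 𝓑 := fun B hB B' hB' =>
    ⟨B ⊔ B', hsup B hB B' hB', le_sup_left, le_sup_right⟩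
  have hR : R ∈ 𝓑 := ⟨h1, h2⟩
  have hle : sSup 𝓑 ≤ K := sSup_le fun B hB => hB.1.1
  obtain ⟨S, hS, e⟩ := h3 (sSup 𝓑) (le_sSup hR) hle
  have h4 : ∀ S' : Set Γ, S'.Finite → S' ⊆ (sSup 𝓑 : Subgroup Γ) → ∃ B ∈ 𝓑, R ≤ B ∧ S' ⊆ B := by
    intro S' hS'
    induction S', hS' using Finite.induction_on with
    | empty => exact fun _ => ⟨R, hR, le_rfl, empty_subset _⟩
    | @insert a s _ _ ih =>
      intro h
      obtain ⟨B, hB, e1, e2⟩ := ih ((subset_insert a s).trans h)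
      obtain ⟨B', hB', e3⟩ := (Subgroup.mem_sSup_of_directedOn ⟨R, hR⟩ hdir).1 (h (mem_insert a s))
      exact ⟨B ⊔ B', hsup B hB B' hB', e1.trans le_sup_left,
        insert_subset (Subgroup.mem_sup_right e3) fun x hx => Subgroup.mem_sup_left (e2 hx)⟩
  obtain ⟨B, hB, e1, e2⟩ := h4 S hS fun s hs =>
    e ▸ Subgroup.mem_sup_left (Subgroup.subset_closure hs)
  have h5 : sSup 𝓑 = B :=
    le_antisymm (e ▸ sup_le ((Subgroup.closure_le B).2 e2) e1) (le_sSup hB)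
  refine ⟨B, e1, hB.1.1, hB.2, fun g hg hg' r hr => ?_⟩
  have h6 : B.map (MulAut.conj g).toMonoidHom ∈ 𝓑 := by
    refine ⟨⟨?_, ?_⟩, (hB.2.conj hU g g⁻¹).mono ?_⟩
    · rintro _ ⟨b, hb, rfl⟩; exact hg b (hB.1.1 hb)
    · rintro k hk _ ⟨b, hb, rfl⟩
      refine ⟨_, hB.1.2 _ (hg' k hk) b hb, ?_⟩
      simp [mul_assoc]
    · rintro _ ⟨b, hb, rfl⟩; exact ⟨b, hb, rfl⟩
  exact (le_sSup h6).trans h5.le ⟨r, hr, rfl⟩

lemma Bdd.exists_inj_reps {A : Set Γ} (h : Bdd U A) :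
    ∃ F : Finset Γ, (F : Set Γ) ⊆ A ∧ F.card = cnt U A ∧
      ∀ a ∈ F, ∀ b ∈ F, a⁻¹ * b ∈ U → a = b := by
  obtain ⟨F, h1, h2, h3⟩ := exists_subset_bijOn A (QuotientGroup.mk : Γ → Γ ⧸ U) |>.imp
    fun F hF => (⟨hF.1, hF.2.injOn, hF.2.image_eq⟩ : F ⊆ A ∧ InjOn QuotientGroup.mk F ∧ _)
  have hF : F.Finite := Finite.of_finite_image (h3 ▸ h) h2
  refine ⟨hF.toFinset, by simpa using h1, ?_, fun a ha b hb hab => ?_⟩
  · rw [cnt, ← h3, h2.ncard_image, ncard_eq_toFinset_card _ hF]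
  · exact h2 (hF.mem_toFinset.1 ha) (hF.mem_toFinset.1 hb) (QuotientGroup.eq.2 hab)

lemma WG.drop (hU : Comm U) (hw : WG U H (d + 1)) (hK : K ≤ H) {t : Γ} (ht : t ∈ H)
    (h1 : ∀ n : ℤ, t ^ n ∈ K → n = 0) (h2 : ∀ u ∈ U, u ∈ H → u ∈ K) : WG U K d := by
  classical
  intro S hS hb
  have hb' : Bdd U (insert t S) := (bdd_of_finite (finite_singleton t)).union hb
  refine (hw _ (insert_subset ht (hS.trans hK)) hb').drop (monotone_cnt_W hU hb') fun n => ?_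
  obtain ⟨F, e1, e2, e3⟩ := (hb.W hU n).exists_inj_reps
  have hFK : ∀ a ∈ F, a ∈ K := fun a ha => W_subset_subgroup hS n (e1 ha)
  have key : ∀ i j : ℕ, ∀ a ∈ F, ∀ b ∈ F, (t ^ i * a)⁻¹ * (t ^ j * b) ∈ U → i = j ∧ a = b := by
    intro i j a ha b hb h
    have h3 : (t ^ i * a)⁻¹ * (t ^ j * b) ∈ K := h2 _ h (H.mul_mem (H.inv_mem (H.mul_mem
      (H.pow_mem ht i) (hK (hFK a ha)))) (H.mul_mem (H.pow_mem ht j) (hK (hFK b hb))))
    have h4 := h1 (j - i) (by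
      convert K.mul_mem (K.mul_mem (hFK a ha) h3) (K.inv_mem (hFK b hb)) using 1
      group)
    obtain rfl : i = j := by omega
    exact ⟨rfl, e3 a ha b hb (by simpa [mul_assoc] using h)⟩
  have h5 := card_le_cnt (hb'.W hU (2 * n))
    (F := (Finset.range (n + 1) ×ˢ F).image fun p => t ^ p.1 * p.2) (by
      intro g hg
      obtain ⟨⟨i, a⟩, hp, rfl⟩ := Finset.mem_image.1 (Finset.mem_coe.1 hg)
      simp only [Finset.mem_product, Finset.mem_range] at hp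
      exact W_mono subset_rfl (by omega) (mul_mem_W (pow_mem_W (mem_W_one (mem_insert t S)) i)
        (W_mono (subset_insert t S) le_rfl (e1 hp.2)))) (by
      intro g hg g' hg' h
      obtain ⟨⟨i, a⟩, hp, rfl⟩ := Finset.mem_image.1 hg
      obtain ⟨⟨j, b⟩, hq, rfl⟩ := Finset.mem_image.1 hg'
      obtain ⟨rfl, rfl⟩ := key i j a (Finset.mem_product.1 hp).2 b (Finset.mem_product.1 hq).2 h
      rfl)
  rwa [Finset.card_image_of_injOn, Finset.card_product, Finset.card_range, e2] at h5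
  rintro ⟨i, a⟩ hp ⟨j, b⟩ hq h
  obtain ⟨rfl, rfl⟩ := key i j a (Finset.mem_product.1 hp).2 b (Finset.mem_product.1 hq).2
    (by rw [show t ^ i * a = t ^ j * b from h]; simp)
  rfl

lemma milnor_up (hU : Comm U) (hw : WG U H d) {t : Γ} (ht : t ∈ H) {E : Set Γ} (hE : E ⊆ H)
    (hb : Bdd U E) (hUE : ∀ u ∈ U, u ∈ H → u ∈ E) :
    ∃ n : ℕ, ∀ j : ℕ, ∀ e ∈ E, t ^ j * e * (t ^ j)⁻¹ ∈
      Subgroup.closure {g | ∃ i ≤ n, ∃ e ∈ E, g = t ^ i * e * (t ^ i)⁻¹} := by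
  classical
  set Kn : ℕ → Subgroup Γ := fun n =>
    Subgroup.closure {g | ∃ i ≤ n, ∃ e ∈ E, g = t ^ i * e * (t ^ i)⁻¹} with hKn
  have hgen : ∀ n, ∀ i ≤ n, ∀ e ∈ E, t ^ i * e * (t ^ i)⁻¹ ∈ Kn n := fun n i hi e he =>
    Subgroup.subset_closure ⟨i, hi, e, he, rfl⟩
  have hmono : ∀ n, Kn n ≤ Kn (n + 1) := fun n => Subgroup.closure_mono (by
    rintro _ ⟨i, hi, e, he, rfl⟩; exact ⟨i, by omega, e, he, rfl⟩)
  by_cases hcase : ∃ n, ∀ e ∈ E, t ^ (n + 1) * e * (t ^ (n + 1))⁻¹ ∈ Kn n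
  · obtain ⟨n, hn⟩ := hcase
    have h1 : ∀ k ∈ Kn n, t * k * t⁻¹ ∈ Kn n := by
      have : Kn n ≤ (Kn n).comap (MulAut.conj t).toMonoidHom := by
        rw [hKn, Subgroup.closure_le]
        rintro _ ⟨i, hi, e, he, rfl⟩
        change t * (t ^ i * e * (t ^ i)⁻¹) * t⁻¹ ∈ Kn n
        rw [show t * (t ^ i * e * (t ^ i)⁻¹) * t⁻¹ = t ^ (i + 1) * e * (t ^ (i + 1))⁻¹ by group]
        rcases hi.eq_or_lt with rfl | hi
        exacts [hn e he, hgen n _ hi e he]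
      exact fun k hk => this hk
    refine ⟨n, fun j e he => ?_⟩
    induction j with
    | zero => exact hgen n 0 (Nat.zero_le n) e he
    | succ j ih => convert h1 _ ih using 1; group
  exfalso
  push Not at hcase
  have hb' : Bdd U (insert t⁻¹ E) := (bdd_of_finite (finite_singleton _)).union hb
  have hsub : insert t⁻¹ E ⊆ H := insert_subset (H.inv_mem ht) hE
  have h1 : ∀ n, ∃ F : Finset Γ, F.card = 2 ^ n ∧ (F : Set Γ) ⊆ W (insert t⁻¹ E) (2 * n) ∧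
      (∀ a ∈ F, ∀ b ∈ F, a⁻¹ * b ∈ U → a = b) ∧ ∀ a ∈ F, t ^ n * a ∈ Kn n := by
    intro n
    induction n with
    | zero => exact ⟨{1}, by simp, by simpa using one_mem_W _ _, by simp, by simp⟩
    | succ n ih =>
      obtain ⟨F, e1, e2, e3, e4⟩ := ih
      obtain ⟨e, he, hne⟩ := hcase n
      have hFH : ∀ a ∈ F, a ∈ H := fun a ha => W_subset_subgroup hsub _ (e2 ha)
      have key : ∀ a ∈ F, ∀ b ∈ F, (t⁻¹ * a)⁻¹ * (e * t⁻¹ * b) ∉ U := by
        intro a ha b hb h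
        have h2 := hgen n 0 (Nat.zero_le n) _ (hUE _ h (H.mul_mem (H.inv_mem (H.mul_mem
          (H.inv_mem ht) (hFH a ha))) (H.mul_mem (H.mul_mem (hE he) (H.inv_mem ht)) (hFH b hb))))
        refine hne ?_
        convert (Kn n).mul_mem ((Kn n).mul_mem (e4 a ha) h2) ((Kn n).inv_mem (e4 b hb)) using 1
        group
      refine ⟨F.image (t⁻¹ * ·) ∪ F.image (e * t⁻¹ * ·), ?_, ?_, ?_, ?_⟩
      · rw [Finset.card_union_of_disjoint, Finset.card_image_of_injective _ (mul_right_injective _),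
          Finset.card_image_of_injective _ (mul_right_injective _), e1, pow_succ, mul_two]
        rw [Finset.disjoint_left]
        intro g hg hg'
        obtain ⟨a, ha, rfl⟩ := Finset.mem_image.1 hg
        obtain ⟨b, hb, h⟩ := Finset.mem_image.1 hg'
        exact key a ha b hb (by rw [h]; simp)
      · intro g hg
        rcases Finset.mem_union.1 hg with hg | hg
        · obtain ⟨a, ha, rfl⟩ := Finset.mem_image.1 hg
          exact W_mono subset_rfl (by omega) (mul_mem_W (mem_W_one (mem_insert _ _)) (e2 ha))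
        · obtain ⟨a, ha, rfl⟩ := Finset.mem_image.1 hg
          exact W_mono subset_rfl (by omega) (mul_mem_W (mul_mem_W (mem_W_one (Or.inr he))
            (mem_W_one (mem_insert _ _))) (e2 ha))
      · intro g hg g' hg' h
        rcases Finset.mem_union.1 hg with hg | hg <;> rcases Finset.mem_union.1 hg' with hg' | hg'
        all_goals
          obtain ⟨a, ha, rfl⟩ := Finset.mem_image.1 hg
          obtain ⟨b, hb, rfl⟩ := Finset.mem_image.1 hg'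
        · rw [e3 a ha b hb (by simpa [mul_assoc] using h)]
        · exact absurd h (key a ha b hb)
        · exact absurd (by simpa [mul_assoc] using U.inv_mem h) (key b hb a ha)
        · rw [e3 a ha b hb (by simpa [mul_assoc] using h)]
      · intro g hg
        rcases Finset.mem_union.1 hg with hg | hg
        · obtain ⟨a, ha, rfl⟩ := Finset.mem_image.1 hg
          convert hmono n (e4 a ha) using 1
          group
        · obtain ⟨a, ha, rfl⟩ := Finset.mem_image.1 hg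
          convert (Kn (n + 1)).mul_mem (hgen (n + 1) (n + 1) le_rfl e he) (hmono n (e4 a ha))
            using 1
          group
  obtain ⟨n, hn⟩ := (hw _ hsub hb').not_exp' (monotone_cnt_W hU hb') 2
  obtain ⟨F, e1, e2, e3, -⟩ := h1 n
  exact absurd (e1 ▸ card_le_cnt (hb'.W hU _) e2 e3) (not_le.2 hn)

lemma milnor (hU : Comm U) (hw : WG U H d) (hb : BG U H) (hK : Nrm K H) {t : Γ} (ht : t ∈ H)
    (h0 : ∀ g ∈ H, ∃ n : ℤ, (t ^ n)⁻¹ * g ∈ K)
    (h1 : ∀ n : ℤ, t ^ n ∈ K → n = 0) (h2 : ∀ u ∈ U, u ∈ H → u ∈ K) : BG U K := by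
  obtain ⟨S, hS1, hS2⟩ := hb
  have hSH : S ⊆ H := hS2 ▸ Subgroup.subset_closure
  obtain ⟨T, hT1, -, hT⟩ := hS1.exists_reps
  choose! m hm using h0
  set E : Set Γ := (U ⊓ H : Subgroup Γ) ∪ (fun g => (t ^ m g)⁻¹ * g) '' T with hE
  have hEK : E ⊆ K := by
    rintro e (he | ⟨g, hg, rfl⟩)
    exacts [h2 e he.1 he.2, hm g (hSH (hT1 hg))]
  have hEb : Bdd U E := (bdd_of_le inf_le_left).union (bdd_of_finite (T.finite_toSet.image _))
  have hUE : ∀ u ∈ U, u ∈ H → u ∈ E := fun u hu hu' => Or.inl ⟨hu, hu'⟩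
  obtain ⟨n, hn⟩ := milnor_up hU hw ht (hEK.trans hK.1) hEb hUE
  obtain ⟨n', hn'⟩ := milnor_up hU hw (H.inv_mem ht) (hEK.trans hK.1) hEb hUE
  set Z := {g | ∃ i ≤ n, ∃ e ∈ E, g = t ^ i * e * (t ^ i)⁻¹} ∪
    {g | ∃ i ≤ n', ∃ e ∈ E, g = t⁻¹ ^ i * e * (t⁻¹ ^ i)⁻¹}
  have hZ : ∀ j : ℤ, ∀ e ∈ E, t ^ j * e * (t ^ j)⁻¹ ∈ Subgroup.closure Z := by
    intro j e he
    rcases Int.eq_nat_or_neg j with ⟨i, rfl | rfl⟩
    · rw [zpow_natCast]
      exact Subgroup.closure_mono subset_union_left (hn i e he)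
    · rw [zpow_neg, zpow_natCast, ← inv_pow]
      exact Subgroup.closure_mono subset_union_right (hn' i e he)
  have hZK : Subgroup.closure Z ≤ K := by
    rw [Subgroup.closure_le]
    rintro _ (⟨i, -, e, he, rfl⟩ | ⟨i, -, e, he, rfl⟩)
    exacts [hK.2 _ (H.pow_mem ht i) e (hEK he), hK.2 _ (H.pow_mem (H.inv_mem ht) i) e (hEK he)]
  have hconj : ∀ j : ℤ, ∀ k ∈ Subgroup.closure Z, t ^ j * k * (t ^ j)⁻¹ ∈ Subgroup.closure Z := by
    intro j
    have : Subgroup.closure Z ≤ (Subgroup.closure Z).comap (MulAut.conj (t ^ j)).toMonoidHom := by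
      rw [Subgroup.closure_le]
      rintro _ (⟨i, -, e, he, rfl⟩ | ⟨i, -, e, he, rfl⟩)
      · change t ^ j * _ * (t ^ j)⁻¹ ∈ Subgroup.closure Z
        convert hZ (j + i) e he using 1
        group
      · change t ^ j * _ * (t ^ j)⁻¹ ∈ Subgroup.closure Z
        convert hZ (j - i) e he using 1
        group
    exact fun k hk => this hk
  refine ⟨Z, Bdd.union ?_ ?_, le_antisymm hZK fun k hk => ?_⟩
  · refine (bdd_biUnion (finite_Iic n) fun i _ => hEb.conj hU (t ^ i) (t ^ i)⁻¹).mono ?_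
    rintro _ ⟨i, hi, e, he, rfl⟩
    exact mem_biUnion hi ⟨e, he, rfl⟩
  · refine (bdd_biUnion (finite_Iic n') fun i _ => hEb.conj hU (t⁻¹ ^ i) (t⁻¹ ^ i)⁻¹).mono ?_
    rintro _ ⟨i, hi, e, he, rfl⟩
    exact mem_biUnion hi ⟨e, he, rfl⟩
  · have hEZ : ∀ e ∈ E, e ∈ Subgroup.closure Z := fun e he => by simpa using hZ 0 e he
    have h3 : H ≤ Subgroup.zpowers t ⊔ Subgroup.closure Z := by
      rw [← hS2, Subgroup.closure_le]
      intro s hs
      obtain ⟨g, hg, h⟩ := hT s hs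
      have e1 := hEZ _ (hUE _ h (H.mul_mem (H.inv_mem (hSH (hT1 hg))) (hSH hs)))
      have e2 := hEZ _ (Or.inr ⟨g, hg, rfl⟩)
      have := Subgroup.mul_mem _ (Subgroup.mem_sup_left (Subgroup.zpow_mem_zpowers t (m g)))
        (Subgroup.mem_sup_right (Subgroup.mul_mem _ e2 e1))
      simpa [mul_assoc] using this
    obtain ⟨_, ⟨j, rfl⟩, h4⟩ := mem_sup_nrm (by rintro _ ⟨j, rfl⟩; exact hconj j) (h3 (hK.1 hk))
    have h5 := h1 j (by simpa using K.mul_mem hk (K.inv_mem (hZK h4)))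
    simpa [h5] using h4

lemma zext_of_hom {A : Type*} [Group A] (f : A →* Γ) (hf : Function.Injective f)
    (χ : A →* Multiplicative ℤ) (hne : ∃ a, χ a ≠ 1) :
    Nrm (χ.ker.map f) f.range ∧ ∃ t ∈ f.range,
      (∀ g ∈ f.range, ∃ n : ℤ, (t ^ n)⁻¹ * g ∈ χ.ker.map f) ∧
      ∀ n : ℤ, t ^ n ∈ χ.ker.map f → n = 0 := by
  refine ⟨⟨Subgroup.map_le_range _ _, ?_⟩, ?_⟩
  · rintro _ ⟨a, rfl⟩ _ ⟨k, hk, rfl⟩
    exact ⟨a * k * a⁻¹, χ.normal_ker.conj_mem k hk a, by simp⟩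
  obtain ⟨m, hm⟩ := Int.subgroup_cyclic (Subgroup.toAddSubgroup' χ.range)
  have h1 : ∀ a, ∃ n : ℤ, χ a = Multiplicative.ofAdd m ^ n := by
    intro a
    have : (χ a).toAdd ∈ Subgroup.toAddSubgroup' χ.range := ⟨a, rfl⟩
    rw [hm, AddSubgroup.mem_closure_singleton] at this
    obtain ⟨n, hn⟩ := this
    exact ⟨n, by rw [← ofAdd_zsmul, hn]; rfl⟩
  obtain ⟨t, ht⟩ : m ∈ Subgroup.toAddSubgroup' χ.range := hm ▸ AddSubgroup.subset_closure rfl
  have ht' : χ t = Multiplicative.ofAdd m := ht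
  refine ⟨f t, ⟨t, rfl⟩, ?_, fun n hn => ?_⟩
  · rintro _ ⟨a, rfl⟩
    obtain ⟨n, hn⟩ := h1 a
    exact ⟨n, (t ^ n)⁻¹ * a, by simp [ht', hn], by simp⟩
  · obtain ⟨k, hk, e⟩ := hn
    rw [← map_zpow] at e
    rw [hf e] at hk
    have e1 : Multiplicative.ofAdd m ^ n = 1 := by simpa [ht'] using hk
    rw [← ofAdd_zsmul, ofAdd_eq_one, smul_eq_mul, mul_eq_zero] at e1
    refine e1.resolve_right fun h0 => ?_
    obtain ⟨a, ha⟩ := hne
    obtain ⟨j, hj⟩ := h1 a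
    exact ha (by simp [hj, h0])

lemma bdd_of_wg_zero (hU : Comm U) (hb : BG U H) (hw : WG U H 0) : Bdd U H := by
  obtain ⟨S, h1, rfl, h3⟩ := hb.symm_gen hU
  obtain ⟨C, hC⟩ := (hw S Subgroup.subset_closure h1).bdd_of_zero (monotone_cnt_W hU h1)
  by_contra hinf
  obtain ⟨F, hF1, hF2⟩ := Set.Infinite.exists_subset_card_eq hinf (C + 1)
  have h4 : ∀ q ∈ F, ∃ n, q ∈ (QuotientGroup.mk : Γ → Γ ⧸ U) '' W S n := fun q hq => by
    obtain ⟨g, hg, rfl⟩ := hF1 hq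
    obtain ⟨n, hn⟩ := exists_mem_W h3 hg
    exact ⟨n, g, hn, rfl⟩
  choose! r hr using h4
  have h5 : (F : Set (Γ ⧸ U)) ⊆ (QuotientGroup.mk : Γ → Γ ⧸ U) '' W S (F.sup r) := fun q hq =>
    image_mono (W_mono subset_rfl (Finset.le_sup hq)) (hr q hq)
  have h6 := ncard_le_ncard h5 (h1.W hU _)
  rw [ncard_coe_finset, hF2] at h6
  exact absurd (h6.trans (hC _)) (by omega)

/-- A normal finite index subgroup with an infinite cyclic quotient. -/
lemma exists_zext (hU : Comm U) (hb : BG U H) (hw : WG U H d) (hinf : ¬ Bdd U H) :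
    ∃ H₁ K : Subgroup Γ, Nrm H₁ H ∧ Bdd H₁ H ∧ Nrm K H₁ ∧ (∀ u ∈ U, u ∈ H₁ → u ∈ K) ∧
      ∃ t ∈ H₁, (∀ g ∈ H₁, ∃ n : ℤ, (t ^ n)⁻¹ * g ∈ K) ∧ ∀ n : ℤ, t ^ n ∈ K → n = 0 := by
  obtain ⟨G', hG', χ, ⟨h, hh⟩, hχ⟩ := vi_hecke (hU.comap H.subtype) hb.subtype
    (hw.comap hU H.subtype fun a => a.2) (by rw [bdd_comap]; simpa using hinf)
  set N := G'.normalCore
  set f := H.subtype.comp N.subtype
  have hf : Function.Injective f := H.subtype_injective.comp N.subtype_injective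
  set χ' := χ.comp (Subgroup.inclusion G'.normalCore_le)
  obtain ⟨e1, t, ht, e2, e3⟩ := zext_of_hom f hf χ' ⟨⟨h ^ N.index, N.pow_index_mem h⟩, by
    change χ (h ^ N.index) ≠ 1
    rw [map_pow]
    exact fun h0 => hh ((pow_eq_one_iff_left Subgroup.FiniteIndex.index_ne_zero).1 h0)⟩
  refine ⟨f.range, _, ⟨?_, ?_⟩, ?_, e1, ?_, t, ht, e2, e3⟩
  · rintro _ ⟨a, rfl⟩; exact a.1.2
  · rintro g hg _ ⟨a, rfl⟩
    exact ⟨⟨_, (G'.normalCore_normal).conj_mem a.1 a.2 ⟨g, hg⟩⟩, rfl⟩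
  · rw [bdd_iff_finiteIndex]
    refine Subgroup.finiteIndex_of_le (H := N) fun a ha => ⟨⟨a, ha⟩, rfl⟩
  · rintro _ hu ⟨a, rfl⟩
    exact ⟨a, hχ _ hu, rfl⟩

theorem phase1 (hU : Comm U) (d : ℕ) : ∀ H : Subgroup Γ, BG U H → WG U H d →
    ∃ R, Nrm R H ∧ Bdd U R ∧ Bdd R (U ⊓ H : Subgroup Γ) ∧ Noeth R H := by
  have base : ∀ H : Subgroup Γ, Bdd U H →
      ∃ R, Nrm R H ∧ Bdd U R ∧ Bdd R (U ⊓ H : Subgroup Γ) ∧ Noeth R H := fun H h =>
    ⟨H, ⟨le_rfl, fun a ha b hb => H.mul_mem (H.mul_mem ha hb) (H.inv_mem ha)⟩, h,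
      bdd_of_le inf_le_right, fun L e1 e2 => ⟨∅, finite_empty, by simpa using le_antisymm e1 e2⟩⟩
  induction d with
  | zero => exact fun H hb hw => base H (bdd_of_wg_zero hU hb hw)
  | succ d ih =>
    intro H hb hw
    by_cases hinf : Bdd U H
    · exact base H hinf
    obtain ⟨H₁, K, e1, e2, e3, e4, t, ht, e5, e6⟩ := exists_zext hU hb hw hinf
    have hb₁ := hb.of_finiteIndex hU e1.1 e2
    have hw₁ := hw.mono e1.1
    obtain ⟨R, r1, r2, r3, r4⟩ := ih K (milnor hU hw₁ hb₁ e3 ht e5 e6 e4)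
      (hw₁.drop hU e3.1 ht e6 e4)
    obtain ⟨R', s1, s2, s3, s4⟩ := exists_max hU r1 r2 r4
    have n1 : Nrm R' H₁ := ⟨s2.trans e3.1, fun g hg => s4 g (e3.2 g hg) fun k hk => by
      simpa using e3.2 _ (H₁.inv_mem hg) k hk⟩
    have n2 : Noeth R' H₁ := (r4.mono s1).ext s2 e3 (noeth_cyc e5)
    obtain ⟨R'', t1, t2, t3, t4⟩ := exists_max hU n1 s3 n2
    refine ⟨R'', ⟨t2.trans e1.1, fun g hg => t4 g (e1.2 g hg) fun k hk => by
      simpa using e1.2 _ (H.inv_mem hg) k hk⟩, t3, ?_, (n2.mono t1).fin t2 e2⟩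
    refine Bdd.trans (V := U ⊓ H₁) ?_ (e2.inf U)
    exact ((bdd_of_le (s1.trans t1)).trans r3).mono fun u hu => ⟨hu.1, e4 u hu.1 hu.2⟩

end Pool.Agent.Lib.Gromov
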