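import Pool.Agent.Lib.Gromov.Space
import Pool.Agent.Lib.Gromov.Unitary

set_option autoImplicit false

namespace Pool.Agent.Lib.Gromov

open Set

variable {G : Type*} [Group G] {U : Subgroup G} {d : ℕ}

lemma exists_rw (hU : Comm U) (hb : BG U ⊤) (hw : WG U ⊤ d) :
    ∃ w : RW G (G ⧸ U), Wk d fun n => (w.B n ((1 : G) : G ⧸ U)).card := by
  classical
  obtain ⟨S, hS1, hS2, hS3⟩ := hb.symm_gen hU
  set T : Set G := {g | ∃ u ∈ U, ∃ s ∈ insert 1 S, ∃ u' ∈ U, g = u * s * u'} with hT
  have hTb : Bdd U T := by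
    refine (((bdd_self U).mul hU ((bdd_of_finite (finite_singleton 1)).union hS1)).mul hU
      (bdd_self U)).mono ?_
    rintro _ ⟨u, hu, s, hs, u', hu', rfl⟩
    exact ⟨u * s, ⟨u, hu, s, hs, rfl⟩, u', hu', rfl⟩
  have hTinv : ∀ g ∈ T, g⁻¹ ∈ T := by
    rintro _ ⟨u, hu, s, hs, u', hu', rfl⟩
    refine ⟨u'⁻¹, U.inv_mem hu', s⁻¹, ?_, u⁻¹, U.inv_mem hu, by group⟩
    rcases hs with rfl | hs
    · simp
    · exact Or.inr (hS3 s hs)
  have hTU : ∀ g ∈ T, ∀ a ∈ U, ∀ b ∈ U, a * g * b ∈ T := by
    rintro _ ⟨u, hu, s, hs, u', hu', rfl⟩ a ha b hb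
    exact ⟨a * u, U.mul_mem ha hu, s, hs, u' * b, U.mul_mem hu' hb, by group⟩
  have hST : ∀ s ∈ insert 1 S, s ∈ T := fun s hs => ⟨1, U.one_mem, s, hs, 1, U.one_mem, by simp⟩
  let R : G ⧸ U → G ⧸ U → Prop := fun x y => ∃ g h : G, x = g ∧ y = h ∧ g⁻¹ * h ∈ T
  have hR : ∀ g h : G, R g h ↔ g⁻¹ * h ∈ T := by
    refine fun g h => ⟨?_, fun H => ⟨g, h, rfl, rfl, H⟩⟩
    rintro ⟨g', h', e1, e2, H⟩
    have := hTU _ H _ (QuotientGroup.eq.1 e1) _ (QuotientGroup.eq.1 e2.symm)
    simpa [mul_assoc] using this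
  have hRfin : ∀ x, {y | R x y}.Finite := by
    intro x
    induction x using QuotientGroup.induction_on with
    | H g =>
      refine (hTb.smul g).subset fun y hy => ?_
      induction y using QuotientGroup.induction_on with
      | H h => exact ⟨h, ⟨g⁻¹ * h, (hR g h).1 hy, by simp⟩, rfl⟩
  have hRsymm : ∀ x y, R x y → R y x := by
    rintro _ _ ⟨g, h, rfl, rfl, H⟩
    exact (hR h g).2 (by simpa using hTinv _ H)
  have hRrefl : ∀ x, R x x := by
    intro x
    induction x using QuotientGroup.induction_on with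
    | H g => exact (hR g g).2 (by simpa using hST 1 (mem_insert _ _))
  have hRsmul : ∀ (a : G) x y, R (a • x) (a • y) ↔ R x y := by
    intro a x y
    induction x using QuotientGroup.induction_on with
    | H g =>
      induction y using QuotientGroup.induction_on with
      | H h =>
        rw [MulAction.Quotient.smul_coe, MulAction.Quotient.smul_coe, hR, hR]
        simp [mul_assoc]
  have htrans : ∀ x y : G ⧸ U, ∃ a : G, a • x = y := fun x y => MulAction.exists_smul_eq G x y
  set m := (hRfin ((1 : G) : G ⧸ U)).toFinset.card with hm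
  have hcard : ∀ x, (hRfin x).toFinset.card = m := by
    intro x
    obtain ⟨a, rfl⟩ := htrans ((1 : G) : G ⧸ U) x
    symm
    refine Finset.card_bij (fun y _ => a • y) (fun y hy => ?_)
      (fun y _ z _ h => MulAction.injective a h) (fun z hz => ⟨a⁻¹ • z, ?_, by simp⟩)
    · rw [Finite.mem_toFinset, mem_ofPred_eq] at hy ⊢
      exact (hRsmul a _ _).2 hy
    · rw [Finite.mem_toFinset, mem_ofPred_eq] at hz ⊢
      rw [← hRsmul a]; simpa using hz
  have hmpos : (0 : ℝ) < m := by
    exact_mod_cast Finset.card_pos.2 ⟨((1 : G) : G ⧸ U), by simpa using hRrefl _⟩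
  let w : RW G (G ⧸ U) :=
    { N := fun x => (hRfin x).toFinset
      k := fun x y => (if x = y then 1 / 2 else 0) + (if R x y then 1 / (2 * (m : ℝ)) else 0)
      κ := 1 / (2 * m)
      κ_pos := by positivity
      k_ge := fun x y hy => by
        rw [Finite.mem_toFinset, mem_ofPred_eq] at hy
        rw [if_pos hy]
        split_ifs <;> linarith
      k_zero := fun x y hy => by
        rw [Finite.mem_toFinset, mem_ofPred_eq] at hy
        rw [if_neg hy, if_neg (by rintro rfl; exact hy (hRrefl x)), add_zero]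
      k_symm := fun x y => by
        have : R x y ↔ R y x := ⟨hRsymm x y, hRsymm y x⟩
        simp only [this, eq_comm]
      k_sum := fun x => by
        rw [Finset.sum_add_distrib, Finset.sum_ite_eq, if_pos (by simpa using hRrefl x),
          Finset.sum_congr rfl fun y hy => if_pos (by simpa using hy), Finset.sum_const, hcard,
          nsmul_eq_mul]
        field_simp
        norm_num
      k_half := fun x => by
        rw [if_pos rfl, if_pos (hRrefl x)]
        have : 0 < 1 / (2 * (m : ℝ)) := by positivity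
        linarith
      k_smul := fun a x y => by simp only [hRsmul, smul_left_cancel_iff]
      trans := htrans
      conn := fun x y => by
        have h1 : ∀ n, ∀ v ∈ W S n, ∀ g : G,
            Relation.ReflTransGen (fun a b => b ∈ (hRfin a).toFinset) (g : G ⧸ U) (g * v : G) := by
          intro n
          induction n with
          | zero => intro v hv g; rw [W_zero hv, mul_one]
          | succ n ih =>
            intro v hv g
            rcases W_succ' hv with h | ⟨a, ha, v', hv', rfl⟩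
            · exact ih v h g
            · refine (ih v' hv' g).tail ?_
              rw [Finite.mem_toFinset, mem_ofPred_eq, hR]
              simpa [mul_assoc] using hST a (Or.inr ha)
        induction x using QuotientGroup.induction_on with
        | H g =>
          induction y using QuotientGroup.induction_on with
          | H h =>
            obtain ⟨n, hn⟩ := exists_mem_W hS3 (g := g⁻¹ * h) (by rw [hS2]; trivial)
            simpa using h1 n _ hn g }
  refine ⟨w, (hw T (by simp) hTb).scale (monotone_cnt_W hU hTb) 1 1 fun n => ?_⟩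
  rw [one_mul, one_mul, ← ncard_coe_finset]
  refine ncard_le_ncard ?_ (hTb.W hU n)
  induction n with
  | zero => intro z hz; exact ⟨1, one_mem_W _ _, by simpa [RW.B, eq_comm] using hz⟩
  | succ n ih =>
    intro z hz
    obtain ⟨y, hy, hz⟩ := w.mem_B_succ_iff.1 hz
    obtain ⟨g, hg, rfl⟩ := ih hy
    induction z using QuotientGroup.induction_on with
    | H h =>
      have : g⁻¹ * h ∈ T := (hR g h).1 (by simpa [w] using hz)
      exact ⟨h, by simpa using mul_mem_W hg (mem_W_one this), rfl⟩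

lemma fg_range_of_BG {Q : Type*} [Group Q] (hb : BG U ⊤) (π : G →* Q) (hfin : (π '' U).Finite) :
    Group.FG π.range := by
  obtain ⟨S, h1, h2⟩ := hb
  rw [Group.fg_iff_subgroup_fg, Subgroup.fg_iff]
  refine ⟨π '' S, ?_, finite_image_of_bdd π hfin h1⟩
  rw [← MonoidHom.map_closure, h2, MonoidHom.range_eq_map]

lemma eq_one_of_finite_pow {a : Multiplicative ℤ} (h : (range fun n : ℕ => a ^ n).Finite) :
    a = 1 := by
  by_contra ha
  refine infinite_range_of_injective (injective_pow_iff_not_isOfFinOrder.2 fun h' => ha ?_) h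
  exact (isOfFinOrder_iff_eq_one a).1 h'

theorem vi_hecke (hU : Comm U) (hb : BG U ⊤) (hw : WG U ⊤ d) (hinf : ¬ Bdd U univ) :
    ∃ H : Subgroup G, H.FiniteIndex ∧ ∃ χ : H →* Multiplicative ℤ, (∃ h, χ h ≠ 1) ∧
      ∀ u : H, (u : G) ∈ U → χ u = 1 := by
  obtain ⟨w, hwk⟩ := exists_rw hU hb hw
  have : Infinite (G ⧸ U) := by
    rw [bdd_univ_iff, Subgroup.finiteIndex_iff_finite_quotient] at hinf
    exact not_finite_iff_infinite.1 hinf
  set o : G ⧸ U := ((1 : G) : G ⧸ U) with ho
  have hUo : ∀ u ∈ U, u • o = o := fun u hu => by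
    rw [ho, MulAction.Quotient.smul_coe, eq_comm, QuotientGroup.eq]; simpa using hu
  obtain ⟨E, _, _, _, ι, ρ, h1, h2, h3, h4, ⟨v₀, hv₀⟩, h6⟩ := w.exists_rep o hwk
  have hUfin : (ρ '' U).Finite := by
    let K : ℕ → Submodule ℂ E := fun n =>
      ⨅ z ∈ w.B n o, LinearMap.ker ((LinearMap.proj z : (G ⧸ U → ℂ) →ₗ[ℂ] ℂ) ∘ₗ ι)
    have hK : ∀ n v, v ∈ K n ↔ ∀ z ∈ w.B n o, ι v z = 0 := fun n v => by simp [K]
    obtain ⟨_, ⟨n, rfl⟩, hmin⟩ := (wellFounded_lt (α := Submodule ℂ E)).has_min (range K)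
      (range_nonempty K)
    have hn : ∀ v, (∀ z ∈ w.B n o, ι v z = 0) → v = 0 := by
      intro v hv
      apply h1
      funext z
      obtain ⟨m, hm⟩ := w.exists_mem_B o z
      have e1 : K (max n m) ≤ K n := fun v hv =>
        (hK n v).2 fun z hz => (hK _ v).1 hv z (w.B_mono o (le_max_left n m) hz)
      have e2 : K (max n m) = K n := eq_of_le_of_not_lt e1 (hmin _ ⟨_, rfl⟩)
      rw [map_zero, Pi.zero_apply]
      exact (hK _ v).1 (e2 ▸ (hK n v).2 hv) z (w.B_mono o (le_max_right n m) hm)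
    let Φ : U → (w.B n o → w.B n o) := fun u z => ⟨(u : G)⁻¹ • (z : G ⧸ U), by
      have := w.smul_mem_B (u : G)⁻¹ z.2
      rwa [hUo _ (U.inv_mem u.2)] at this⟩
    have hfac : Function.FactorsThrough (fun u : U => ρ u) Φ := by
      intro u u' huu'
      ext v
      refine sub_eq_zero.1 (hn _ fun z hz => ?_)
      have e1 : (u : G)⁻¹ • z = (u' : G)⁻¹ • z := congrArg Subtype.val (congrFun huu' ⟨z, hz⟩)
      rw [map_sub, Pi.sub_apply, h3, h3, e1, hUo _ (U.inv_mem u.2), hUo _ (U.inv_mem u'.2),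
        sub_self]
    obtain ⟨e, he⟩ := (Function.factorsThrough_iff _).1 hfac
    refine (finite_range e).subset ?_
    rintro _ ⟨u, hu, rfl⟩
    exact ⟨Φ ⟨u, hu⟩, (congrFun he ⟨u, hu⟩).symm⟩
  have hUfin' : (ρ.toHomUnits '' U).Finite :=
    Finite.of_finite_image (f := Units.val) (by rwa [image_image]) Units.val_injective.injOn
  by_cases hρ : (range ρ).Infinite
  · set π := ρ.toHomUnits.rangeRestrict
    have hπ : Function.Surjective π := ρ.toHomUnits.rangeRestrict_surjective
    have hπU : (π '' U).Finite :=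
      Finite.of_finite_image (f := Subtype.val) (by rwa [image_image]) Subtype.val_injective.injOn
    have := fg_range_of_BG hb ρ.toHomUnits hUfin'
    obtain ⟨H, hH, χ, h, hh⟩ := shalom _ E ρ.toHomUnits.range
      ((Units.coeHom _).comp ρ.toHomUnits.range.subtype) le_rfl (hw.discrete hU π hπ hπU)
      (by rintro ⟨_, g, rfl⟩ v; exact h2 g v) (hρ.mono (by
        rintro _ ⟨g, rfl⟩; exact ⟨π g, rfl⟩))
    refine ⟨H.comap π, ⟨by rw [Subgroup.index_comap_of_surjective _ hπ]; exact hH.1⟩,
      χ.comp (π.subgroupComap H), ?_, fun u hu => ?_⟩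
    · obtain ⟨g, hg⟩ := hπ h
      refine ⟨⟨g, by rw [Subgroup.mem_comap, hg]; exact h.2⟩, ?_⟩
      convert hh using 1
      exact congrArg χ (Subtype.ext hg)
    · refine eq_one_of_finite_pow (((hπU.preimage Subtype.val_injective.injOn).image χ).subset ?_)
      rintro _ ⟨n, rfl⟩
      exact ⟨π.subgroupComap H (u ^ n), ⟨u ^ n, U.pow_mem hu n, rfl⟩, by simp⟩
  · rw [not_infinite] at hρ
    have : Finite ρ.toHomUnits.range :=
      Finite.of_finite_image (s := (ρ.toHomUnits.range : Set (E →L[ℂ] E)ˣ)) (f := Units.val)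
        (hρ.subset (by rintro _ ⟨_, ⟨g, rfl⟩, rfl⟩; exact ⟨g, rfl⟩)) Units.val_injective.injOn
    set H := ρ.toHomUnits.ker
    have hH : H.FiniteIndex := Subgroup.finiteIndex_ker _
    have hadd : ∀ g ∈ H, ∀ x, ι v₀ (g • x) = ι v₀ (g • o) + ι v₀ x := by
      intro g hg x
      have e1 : ρ g⁻¹ = 1 := congrArg Units.val (H.inv_mem hg)
      have e2 := h3 g⁻¹ v₀ x
      rw [e1, inv_inv] at e2
      change ι v₀ x = _ at e2
      rw [e2]; ring
    let c : H →* Multiplicative ℂ :=
      { toFun := fun g => Multiplicative.ofAdd (ι v₀ ((g : G) • o))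
        map_one' := by simp [h4]
        map_mul' := fun g g' => by
          rw [← ofAdd_add, Subgroup.coe_mul, mul_smul, hadd _ g.2] }
    have hcU : ∀ u : H, (u : G) ∈ U → c u = 1 := fun u hu => by
      change Multiplicative.ofAdd (ι v₀ ((u : G) • o)) = 1
      rw [hUo _ hu, h4]; rfl
    have hbH : Bdd H (⊤ : Subgroup G) := bdd_univ_iff.2 hH
    have := fg_range_of_BG (hb.of_finiteIndex hU le_top hbH).subtype c
      ((finite_singleton 1).subset (by rintro _ ⟨u, hu, rfl⟩; exact hcU u hu))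
    obtain ⟨χ, hχ1, hχ2⟩ := exists_hom_int c (fun g h => mul_comm _ _) (by
      intro hfin
      obtain ⟨T, -, -, hT⟩ := hbH.exists_right_reps
      have e1 : (range (ι v₀)).Finite := by
        refine (((hfin.image Multiplicative.toAdd).image2 (· + ·)
          (T.finite_toSet.image fun t => ι v₀ (t • o)))).subset ?_
        rintro _ ⟨x, rfl⟩
        obtain ⟨g, rfl⟩ := w.trans o x
        obtain ⟨t, ht, hg⟩ := hT g trivial
        refine ⟨_, ⟨_, ⟨⟨_, hg⟩, rfl⟩, rfl⟩, _, ⟨t, ht, rfl⟩, ?_⟩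
        have := hadd _ hg (t • o)
        rw [smul_smul, inv_mul_cancel_right] at this
        exact this.symm
      obtain ⟨M, hM⟩ := (e1.image norm).bddAbove
      exact hv₀ (h6 v₀ M fun z => hM ⟨_, ⟨z, rfl⟩, rfl⟩))
    exact ⟨H, hH, χ, hχ1, fun u hu => hχ2 u (hcU u hu)⟩

end Pool.Agent.Lib.Gromov
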