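import Pool.Agent.Lib.Gromov.Growth

set_option autoImplicit false

namespace Pool.Agent.Lib.Gromov

open Set

variable {G : Type*} [Group G]

/-- Iterated commutators of elements of `S`. -/
def Cm (S : Set G) : ℕ → Set G
  | 0 => S
  | k + 1 => image2 (fun s a => s * a * s⁻¹ * a⁻¹) S (Cm S k)

lemma finite_Cm {S : Set G} (hS : S.Finite) (k : ℕ) : (Cm S k).Finite := by
  induction k with
  | zero => exact hS
  | succ k ih => exact hS.image2 _ ih

lemma Cm_subset {N : Subgroup G} {j : ℕ} {S : Set G} (hS : S ⊆ N.lowerCentralSeries j) (k : ℕ) :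
    Cm S k ⊆ N.lowerCentralSeries (j + k) := by
  induction k with
  | zero => exact hS
  | succ k ih =>
    rintro _ ⟨s, hs, a, ha, rfl⟩
    have : (a * s * a⁻¹ * s⁻¹)⁻¹ ∈ N.lowerCentralSeries (j + k + 1) :=
      Subgroup.inv_mem _ (Subgroup.commutator_mem_commutator (ih ha)
        (N.lowerCentralSeries_le_self j (hS hs)))
    rw [show (a * s * a⁻¹ * s⁻¹)⁻¹ = s * a * s⁻¹ * a⁻¹ by group] at this
    exact this

lemma conj_mem_W {S T : Set G} {m : ℕ} (h1 : ∀ a ∈ Cm S m, a = 1)
    (hT : ∀ k, 1 ≤ k → k ≤ m → Cm S k ⊆ T) (r : ℕ) :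
    ∀ k, 1 ≤ k → k + r = m → ∀ n, ∀ w ∈ W S n, ∀ a ∈ Cm S k, w * a * w⁻¹ ∈ W T ((n + 1) ^ r) := by
  induction r with
  | zero =>
    rintro k - rfl n w - a ha
    rw [h1 a ha]
    simpa using one_mem_W T 1
  | succ r ih =>
    intro k hk hkr n
    induction n with
    | zero =>
      intro w hw a ha
      rw [W_zero hw]
      simpa using mem_W_one (hT k hk (by omega) ha)
    | succ n ihn =>
      intro w hw a ha
      rcases W_succ' hw with h | ⟨s, hs, v, hv, rfl⟩
      · exact W_mono subset_rfl (Nat.pow_le_pow_left (by omega) _) (ihn w h a ha)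
      · have := mul_mem_W (ih (k + 1) (by omega) (by omega) n v hv _ ⟨s, hs, a, ha, rfl⟩)
          (ihn v hv a ha)
        refine W_mono subset_rfl ?_ (by convert this using 1; group)
        have := Nat.pow_le_pow_left (by omega : n + 1 ≤ n + 1 + 1) r
        rw [pow_succ, pow_succ]
        nlinarith

/-- Conjugates of commutators by short words. -/
def Zc (S : Set G) (n : ℕ) : Set G := image2 (fun w c => w * c * w⁻¹) (W S n) (Cm S 1)

lemma Zc_mono {S : Set G} {n m : ℕ} (h : n ≤ m) : Zc S n ⊆ Zc S m :=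
  image2_subset_right (W_mono subset_rfl h)

lemma comm_mem_W {S : Set G} {a : G} (ha : a ∈ S) (n : ℕ) :
    ∀ u ∈ W S n, a * u * a⁻¹ * u⁻¹ ∈ W (Zc S n) n := by
  induction n with
  | zero => intro u hu; rw [W_zero hu]; simpa using one_mem_W _ 0
  | succ n ih =>
    intro u hu
    refine W_mono (Zc_mono (Nat.le_succ n)) le_rfl ?_
    rcases W_succ' hu with h | ⟨s, hs, v, hv, rfl⟩
    · exact W_mono subset_rfl (Nat.le_succ n) (ih u h)
    · convert mul_mem_W (ih v hv)
        (mem_W_one (S := Zc S n) ⟨v, hv, _, ⟨a, ha, s, hs, rfl⟩, rfl⟩) using 1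
      group

lemma perm_mem_W {S : Set G} (l : List G) (hl : ∀ a ∈ l, a ∈ S) :
    ∀ l' : List G, l.Perm l' → l.prod * l'.prod⁻¹ ∈ W (Zc S l.length) (l.length ^ 2) := by
  induction l with
  | nil => intro l' h; rw [← h.nil_eq]; simpa using one_mem_W _ 0
  | cons a l ih =>
    intro l' h
    obtain ⟨u, v, rfl⟩ := List.append_of_mem (h.subset List.mem_cons_self)
    have h1 : l.Perm (u ++ v) := (h.trans List.perm_middle).cons_inv
    have ha := hl a List.mem_cons_self
    have h2 := ih (fun b hb => hl b (List.mem_cons_of_mem a hb)) _ h1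
    have h3 : (MulAut.conj a).toMonoidHom '' Zc S l.length ⊆ Zc S (l.length + 1) := by
      rintro _ ⟨_, ⟨w, hw, c, hc, rfl⟩, rfl⟩
      exact ⟨a * w, by rw [add_comm]; exact mul_mem_W (mem_W_one ha) hw, c, hc,
        by simp [mul_assoc]⟩
    have h4 := W_mono h3 le_rfl (image_W (MulAut.conj a).toMonoidHom _ _ ▸ mem_image_of_mem _ h2)
    have h5 : u.prod ∈ W S l.length := ⟨u, fun b hb => hl b (List.mem_cons_of_mem a
      (h1.symm.subset (List.mem_append_left v hb))), by rw [h1.length_eq]; simp, rfl⟩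
    have h6 := mul_mem_W h4 (W_mono (Zc_mono (Nat.le_succ _)) le_rfl (comm_mem_W ha _ _ h5))
    have h7 := W_mono subset_rfl (by nlinarith : _ ≤ (l.length + 1) ^ 2) h6
    have h8 : (a :: l).prod * (u ++ a :: v).prod⁻¹ = (MulAut.conj a).toMonoidHom
        (l.prod * (u ++ v).prod⁻¹) * (a * u.prod * a⁻¹ * u.prod⁻¹) := by simp [mul_assoc]
    rw [h8]
    exact h7

theorem pl_of_lcs {N : Subgroup G} (i : ℕ) : ∀ j, N.lowerCentralSeries (j + i) = ⊥ →
    ∀ S : Set G, S.Finite → S ⊆ N.lowerCentralSeries j → Pl fun n => (W S n).ncard := by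
  classical
  induction i with
  | zero =>
    intro j hj S _ hS
    refine ⟨1, 0, fun n => ?_⟩
    rw [add_zero] at hj
    have : W S n ⊆ {1} := fun g hg => by simpa [hj] using W_subset_subgroup hS n hg
    simpa using ncard_le_ncard this
  | succ i ih =>
    intro j hj S hfin hS
    set T := ⋃ k ∈ Icc 1 (i + 1), Cm S k
    have hT : T.Finite := (finite_Icc _ _).biUnion fun k _ => finite_Cm hfin k
    obtain ⟨C, D, hC⟩ := ih (j + 1) (by rwa [add_assoc, add_comm 1]) T hT
      (iUnion₂_subset fun k hk => (Cm_subset hS k).trans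
        (N.lowerCentralSeries_antitone (by have := hk.1; omega)))
    have hZ : ∀ n, Zc S n ⊆ W T ((n + 1) ^ i) := by
      rintro n _ ⟨w, hw, c, hc, rfl⟩
      exact conj_mem_W (m := i + 1) (fun a ha => by simpa [hj] using Cm_subset hS _ ha)
        (fun k h1 h2 => subset_biUnion_of_mem (u := Cm S) (⟨h1, h2⟩ : k ∈ Icc 1 (i + 1))) i 1
        le_rfl (add_comm _ _) n w hw c hc
    have := hfin.fintype
    refine ⟨C * 2 ^ D, (i + 2) * D + Fintype.card S, fun n => ?_⟩
    let r : (S → Fin (n + 1)) → G := fun f =>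
      if h : ∃ l : List G, (∀ a ∈ l, a ∈ S) ∧ ∀ s : S, l.count s.1 = f s then h.choose.prod else 1
    have h1 : W S n ⊆ image2 (· * ·) (W T ((n + 1) ^ (i + 2))) (range r) := by
      rintro _ ⟨l, e1, e2, rfl⟩
      let f : S → Fin (n + 1) := fun s => ⟨l.count s.1, Nat.lt_succ_of_le
        (List.count_le_length.trans e2)⟩
      have hex : ∃ l : List G, (∀ a ∈ l, a ∈ S) ∧ ∀ s : S, l.count s.1 = f s :=
        ⟨l, e1, fun s => rfl⟩
      have hp : l.Perm hex.choose := List.perm_iff_count.2 fun a => by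
        by_cases ha : a ∈ S
        · exact (hex.choose_spec.2 ⟨a, ha⟩).symm
        · rw [List.count_eq_zero_of_not_mem fun h => ha (e1 a h),
            List.count_eq_zero_of_not_mem fun h => ha (hex.choose_spec.1 a h)]
      refine ⟨l.prod * hex.choose.prod⁻¹, ?_, r f, ⟨f, rfl⟩, by
        simp only [r, dif_pos hex, inv_mul_cancel_right]⟩
      refine W_mono subset_rfl ?_ (W_subset_W ((Zc_mono e2).trans (hZ n)) _ (perm_mem_W l e1 _ hp))
      rw [pow_add]
      exact Nat.mul_le_mul_left _ (Nat.pow_le_pow_left (by omega) 2)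
    have h2 : (range r).ncard ≤ (n + 1) ^ Fintype.card S := by
      rw [← image_univ]
      refine (ncard_image_le finite_univ).trans ?_
      simp [ncard_univ]
    have h3 : 1 ≤ (n + 1) ^ (i + 2) := Nat.one_le_pow _ _ (by omega)
    calc (W S n).ncard ≤ _ := ncard_le_ncard h1 ((finite_W hT _).image2 _ (finite_range r))
      _ ≤ (W T ((n + 1) ^ (i + 2))).ncard * (range r).ncard := by
          rw [← image_prod, ← ncard_prod]
          exact ncard_image_le ((finite_W hT _).prod (finite_range r))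
      _ ≤ C * ((n + 1) ^ (i + 2) + 1) ^ D * (n + 1) ^ Fintype.card S := Nat.mul_le_mul (hC _) h2
      _ ≤ C * (2 * (n + 1) ^ (i + 2)) ^ D * (n + 1) ^ Fintype.card S := by gcongr; omega
      _ = _ := by rw [mul_pow, ← pow_mul, pow_add]; ring

theorem pl_of_virtuallyNilpotent (h : Group.IsVirtuallyNilpotent G) {S : Set G} (hS : S.Finite) :
    Pl fun n => (W S n).ncard := by
  obtain ⟨N, h1, h2⟩ := h
  obtain ⟨c, hc⟩ := (Subgroup.isNilpotent_iff_lowerCentralSeries N).1 h1
  obtain ⟨T, hT1, hT2, hT3⟩ := Bdd.exists_right_reps (H := ⊤) (bdd_univ_iff.2 h2)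
  set S' := {g | ∃ t ∈ (T : Set G), ∃ s ∈ S, ∃ t' ∈ (T : Set G), g = t * s * t'⁻¹} ∩ (N : Set G)
  have hS' : S'.Finite := by
    refine ((T.finite_toSet.image2 (· * ·) hS).image2 (fun a b => a * b⁻¹) T.finite_toSet).subset ?_
    rintro _ ⟨⟨t, ht, s, hs, t', ht', rfl⟩, -⟩
    exact ⟨_, ⟨t, ht, s, hs, rfl⟩, t', ht', rfl⟩
  refine (pl_of_lcs c 0 (by rwa [zero_add]) S' hS' inter_subset_right).scale T.card 1 fun n => ?_
  have h3 : W S n ⊆ image2 (· * ·) (W S' n) T := fun g hg => by
    obtain ⟨t, ht, h⟩ := schreier (H := ⊤) (by simp) hT1 hT3 n hg hT2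
    exact ⟨_, h, t, ht, by simp⟩
  refine (ncard_le_ncard h3 ((finite_W hS' n).image2 _ T.finite_toSet)).trans ?_
  rw [← image_prod, one_mul, mul_comm, ← ncard_coe_finset, ← ncard_prod]
  exact ncard_image_le ((finite_W hS' n).prod T.finite_toSet)

end Pool.Agent.Lib.Gromov
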