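import Pool.Agent.Lib.Gromov.Discrete
import Pool.Agent.Lib.Gromov.Wolf

set_option autoImplicit false

namespace Pool.Agent.Lib.Gromov

open Set

section Groups

variable {Γ : Type*} [Group Γ] {U : Subgroup Γ} {d : ℕ}

/-- The growth gap for Hecke pairs. -/
theorem hecke_poly (hU : Comm U) (hb : BG U ⊤) (hw : WG U ⊤ d) {S : Set Γ} (hS : Bdd U S) :
    Pl fun n => cnt U (W S n) := by
  obtain ⟨R, h1, h2, h3, h4⟩ := phase1 hU d ⊤ hb hw
  have : R.Normal := ⟨fun r hr g => h1.2 g trivial r hr⟩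
  have hfin : (QuotientGroup.mk' R '' U).Finite := by simpa [Bdd] using h3
  have hv := phase2 d _ h4.quotient
    (hw.discrete hU (QuotientGroup.mk' R) (QuotientGroup.mk'_surjective R) hfin)
  have hS' := finite_image_of_bdd _ hfin hS
  refine (pl_of_virtuallyNilpotent hv hS').scale (cnt U R) 1 fun n => ?_
  rw [one_mul, ← image_W]
  exact cnt_trans h2 (finite_image_of_bdd _ hfin (hS.W hU n))

/-- Gromov's theorem in the form of van den Dries and Wilkie. -/
theorem gromov {S : Set Γ} (hS : S.Finite) (hgen : Subgroup.closure S = ⊤) (hw : WGd Γ d) :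
    Group.IsVirtuallyNilpotent Γ := by
  obtain ⟨R, h1, h2, -, h4⟩ := phase1 comm_bot d ⊤ ⟨S, bdd_of_finite hS, hgen⟩ (wgd_iff.1 hw)
  refine phase2 d Γ (fun L => ?_) hw
  have hR : (R : Set Γ).Finite := bdd_bot_iff.1 h2
  have : R.Normal := ⟨fun r hr g => h1.2 g trivial r hr⟩
  have h5 := h4.quotient
  obtain ⟨T, hT1, hT2⟩ := (Subgroup.fg_iff _).1 (h5 (L.map (QuotientGroup.mk' R)))
  have hT3 : T ⊆ QuotientGroup.mk' R '' L := by
    intro t ht
    have : t ∈ L.map (QuotientGroup.mk' R) := hT1 ▸ Subgroup.subset_closure ht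
    exact this
  obtain ⟨T', hT4, hT5, hT6⟩ := Finite.exists_subset_finite_image_eq hT2 hT3
  refine (Subgroup.fg_iff _).2 ⟨T' ∪ (R ∩ L), le_antisymm ?_ fun g hg => ?_,
    hT5.union (hR.inter_of_left _)⟩
  · rw [Subgroup.closure_le]
    exact union_subset hT4 inter_subset_right
  · have h6 : QuotientGroup.mk' R g ∈ (Subgroup.closure T').map (QuotientGroup.mk' R) := by
      rw [MonoidHom.map_closure, hT6, hT1]
      exact ⟨g, hg, rfl⟩
    obtain ⟨a, ha, hag⟩ := h6
    have h7 : a⁻¹ * g ∈ R := QuotientGroup.eq.1 hag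
    have h8 : a ∈ L := (Subgroup.closure_le L).2 hT4 ha
    have h9 : a⁻¹ * g ∈ Subgroup.closure (T' ∪ (R ∩ L)) :=
      Subgroup.subset_closure (Or.inr ⟨h7, L.mul_mem (L.inv_mem h8) hg⟩)
    simpa using Subgroup.mul_mem _ (Subgroup.closure_mono subset_union_left ha) h9

variable {X : Type*} [MulAction Γ X] (o : X) (A : Set Γ)

lemma image_orbit : (fun g : Γ => g • o) '' A = MulAction.ofQuotientStabilizer Γ o ''
    ((QuotientGroup.mk : Γ → Γ ⧸ MulAction.stabilizer Γ o) '' A) := by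
  rw [image_image]; rfl

lemma bdd_stab : Bdd (MulAction.stabilizer Γ o) A ↔ ((fun g : Γ => g • o) '' A).Finite := by
  rw [image_orbit, finite_image_iff (MulAction.injective_ofQuotientStabilizer Γ o).injOn]; rfl

lemma cnt_stab : cnt (MulAction.stabilizer Γ o) A = ((fun g : Γ => g • o) '' A).ncard := by
  rw [image_orbit, ncard_image_of_injective _ (MulAction.injective_ofQuotientStabilizer Γ o)]; rfl

end Groups

section Graphs

variable {V : Type*} {G : SimpleGraph V} (hc : G.Connected) (o : V)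
include hc

lemma dist_step {n : ℕ} {v : V} (h : G.dist o v ≤ n + 1) :
    G.dist o v ≤ n ∨ ∃ u, G.dist o u ≤ n ∧ G.Adj u v := by
  obtain ⟨p, hp⟩ := hc.exists_walk_length_eq_dist v o
  cases p with
  | nil => left; simp
  | cons h' q =>
    right
    refine ⟨_, ?_, h'.symm⟩
    have h1 := SimpleGraph.dist_le q
    rw [SimpleGraph.dist_comm] at h h1
    simp only [SimpleGraph.Walk.length_cons] at hp
    omega

lemma finite_ball [G.LocallyFinite] (n : ℕ) : {v | G.dist o v ≤ n}.Finite := by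
  induction n with
  | zero =>
    refine (finite_singleton o).subset fun v hv => ?_
    exact (hc.dist_eq_zero_iff.1 (Nat.le_zero.1 hv)).symm
  | succ n ih =>
    refine (ih.union (ih.biUnion fun u _ => (G.neighborSet u).toFinite)).subset fun v hv => ?_
    rcases dist_step hc o hv with h | ⟨u, h1, h2⟩
    · exact Or.inl h
    · exact Or.inr (mem_biUnion h1 h2)

variable {Γ : Type*} [Group Γ] [MulAction Γ V]
  (hact : ∀ (g : Γ) (x y : V), G.Adj x y → G.Adj (g • x) (g • y))
include hact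

lemma dist_smul_le (g : Γ) (x y : V) : G.dist (g • x) (g • y) ≤ G.dist x y := by
  obtain ⟨p, hp⟩ := hc.exists_walk_length_eq_dist x y
  have := SimpleGraph.dist_le (p.map ⟨fun v => g • v, fun h => hact g _ _ h⟩)
  rwa [SimpleGraph.Walk.length_map, hp] at this

lemma orbit_subset_ball {S : Set Γ} {L : ℕ} (hS : ∀ g ∈ S, G.dist o (g • o) ≤ L) (n : ℕ) :
    (fun g : Γ => g • o) '' W S n ⊆ {v | G.dist o v ≤ L * n} := by
  induction n with
  | zero => rintro _ ⟨g, hg, rfl⟩; simp [W_zero hg]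
  | succ n ih =>
    rintro _ ⟨g, hg, rfl⟩
    rcases W_succ hg with h | ⟨a, ha, w, hw, rfl⟩
    · exact le_trans (ih ⟨g, h, rfl⟩) (Nat.mul_le_mul_left _ (Nat.le_succ n))
    · have h1 : G.dist o (w • o) ≤ L * n := ih ⟨w, hw, rfl⟩
      have h2 := dist_smul_le hc hact a o (w • o)
      have h3 := hc.dist_triangle (u := o) (v := a • o) (w := a • w • o)
      have h4 := hS a ha
      simp only [mem_ofPred_eq, mul_smul, mul_add]
      omega

lemma ball_subset_orbit (htr : ∀ v, ∃ g : Γ, g • o = v) (n : ℕ) :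
    {v | G.dist o v ≤ n} ⊆ (fun g : Γ => g • o) '' W {g | G.dist o (g • o) ≤ 1} n := by
  induction n with
  | zero =>
    intro v hv
    exact ⟨1, one_mem_W _ _, by simpa using hc.dist_eq_zero_iff.1 (Nat.le_zero.1 hv)⟩
  | succ n ih =>
    intro v hv
    rcases dist_step hc o hv with h | ⟨u, h1, h2⟩
    · exact image_mono (W_mono subset_rfl (Nat.le_succ n)) (ih h)
    · obtain ⟨w, hw, rfl⟩ := ih h1
      obtain ⟨s, hs⟩ := htr (w⁻¹ • v)
      have h3 := hact w⁻¹ _ _ h2
      rw [inv_smul_smul, ← hs] at h3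
      refine ⟨w * s, mul_mem_W hw (mem_W_one ?_), by simp [mul_smul, hs]⟩
      exact (SimpleGraph.dist_eq_one_iff_adj.2 h3).le

/-- The growth gap for transitive graphs (Gromov, Trofimov, van den Dries and Wilkie). -/
theorem graph_poly [G.LocallyFinite] (htr : ∀ v, ∃ g : Γ, g • o = v) {d : ℕ}
    (h : Wk d fun n => {v | G.dist o v ≤ n}.ncard) : Pl fun n => {v | G.dist o v ≤ n}.ncard := by
  have hb : ∀ L, Bdd (MulAction.stabilizer Γ o) {g | G.dist o (g • o) ≤ L} := fun L => by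
    rw [bdd_stab]
    exact (finite_ball hc o L).subset (by rintro _ ⟨g, hg, rfl⟩; exact hg)
  have hU : Comm (MulAction.stabilizer Γ o) := fun g => by
    refine (hb (G.dist o (g • o))).mono ?_
    rintro _ ⟨u, hu, rfl⟩
    have := dist_smul_le hc hact u o (g • o)
    rwa [MulAction.mem_stabilizer_iff.1 hu, ← mul_smul] at this
  have hmono : Monotone fun n => {v | G.dist o v ≤ n}.ncard := fun n m hnm =>
    ncard_le_ncard (fun v hv => le_trans hv hnm) (finite_ball hc o m)
  have hbg : BG (MulAction.stabilizer Γ o) ⊤ := by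
    refine ⟨_, hb 1, eq_top_iff.2 fun g _ => ?_⟩
    obtain ⟨w, hw, hwg⟩ := ball_subset_orbit hc o hact htr (G.dist o (g • o))
      (show g • o ∈ {v | G.dist o v ≤ G.dist o (g • o)} from le_refl (G.dist o (g • o)))
    have h1 : w ∈ Subgroup.closure {g : Γ | G.dist o (g • o) ≤ 1} :=
      W_subset_subgroup Subgroup.subset_closure _ hw
    have h2 : w⁻¹ * g ∈ Subgroup.closure {g : Γ | G.dist o (g • o) ≤ 1} := by
      apply Subgroup.subset_closure
      simp only at hwg
      simp [mul_smul, ← hwg]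
    simpa using Subgroup.mul_mem _ h1 h2
  have hwg : WG (MulAction.stabilizer Γ o) ⊤ d := by
    intro S _ hS
    obtain ⟨L, hL⟩ := (((bdd_stab o S).1 hS).image (G.dist o)).bddAbove
    refine h.scale hmono 1 L fun n => ?_
    rw [one_mul, cnt_stab]
    exact ncard_le_ncard (orbit_subset_ball hc o hact (fun g hg => hL ⟨_, ⟨g, hg, rfl⟩, rfl⟩) n)
      (finite_ball hc o _)
  refine (hecke_poly hU hbg hwg (hb 1)).scale 1 1 fun n => ?_
  rw [one_mul, one_mul, cnt_stab]
  exact ncard_le_ncard (ball_subset_orbit hc o hact htr n) ((bdd_stab o _).1 ((hb 1).W hU n))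

omit hact in
/-- A vertex-transitive graph that does not have polynomial growth grows faster than every
polynomial. -/
theorem growth_gap [G.LocallyFinite] (htr : ∀ v, ∃ φ : G ≃g G, φ o = v)
    (h : ¬∃ (C : ℝ) (D : ℕ), ∀ n : ℕ, 1 ≤ n → ({v | G.dist o v ≤ n}.ncard : ℝ) ≤ C * (n : ℝ) ^ D)
    (d : ℕ) : ∃ c : ℝ, 0 < c ∧ ∀ n : ℕ, c * (n : ℝ) ^ d ≤ {v | G.dist o v ≤ n}.ncard := by
  have h1 : ¬Wk d fun n => {v | G.dist o v ≤ n}.ncard := by
    intro hw
    obtain ⟨C, D, hC⟩ := graph_poly (Γ := G ≃g G) hc o (fun φ x y hxy => φ.map_adj_iff.2 hxy)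
      htr hw
    refine h ⟨C * 2 ^ D, D, fun n hn => ?_⟩
    have h2 : {v | G.dist o v ≤ n}.ncard ≤ C * 2 ^ D * n ^ D :=
      calc _ ≤ C * (n + 1) ^ D := hC n
        _ ≤ C * (2 * n) ^ D := by gcongr; omega
        _ = _ := by rw [mul_pow, mul_assoc]
    exact_mod_cast h2
  unfold Wk at h1
  push Not at h1
  obtain ⟨N, hN⟩ := h1 1
  refine ⟨1 / ((N : ℝ) + 1) ^ d, by positivity, fun n => ?_⟩
  rw [one_div_mul_eq_div, div_le_iff₀ (by positivity)]
  have h2 : n ^ d ≤ {v | G.dist o v ≤ n}.ncard * (N + 1) ^ d := by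
    rcases le_or_gt N n with hn | hn
    · calc n ^ d ≤ 1 * (n + 1) ^ d := by rw [one_mul]; gcongr; omega
        _ ≤ {v | G.dist o v ≤ n}.ncard := (hN n hn).le
        _ ≤ _ := Nat.le_mul_of_pos_right _ (by positivity)
    · calc n ^ d ≤ (N + 1) ^ d := by gcongr; omega
        _ ≤ _ := Nat.le_mul_of_pos_left _
          ((ncard_pos (finite_ball hc o n)).2 ⟨o, by simp⟩)
  exact_mod_cast h2

end Graphs

end Pool.Agent.Lib.Gromov
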