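import Pool.Agent.Lib.Gromov.Harmonic

set_option autoImplicit false

namespace Pool.Agent.Lib.Gromov

open Finset Filter Topology ComplexConjugate

lemma fd_of_trace {E : Type*} [NormedAddCommGroup E] [InnerProductSpace ℂ E] (C : ℝ)
    (h : ∀ (n : ℕ) (v : Fin n → E), Orthonormal ℂ v → (n : ℝ) ≤ C) : FiniteDimensional ℂ E := by
  by_contra hcon
  obtain ⟨n, hn⟩ := exists_nat_gt C
  have h1 : (n : Cardinal) ≤ Module.rank ℂ E := by
    by_contra h2
    exact hcon (Module.rank_lt_aleph0_iff.1 ((not_le.1 h2).trans Cardinal.natCast_lt_aleph0))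
  obtain ⟨f, hf⟩ := exists_linearIndependent_of_le_rank h1
  exact absurd (h n _ (InnerProductSpace.gramSchmidtNormed_orthonormal hf)) (not_le.2 hn)

lemma bessel {E : Type*} [NormedAddCommGroup E] [InnerProductSpace ℂ E] (ℓ : E →ₗ[ℂ] ℂ) {C : ℝ}
    (hC : 0 ≤ C) (hℓ : ∀ v, ‖ℓ v‖ ^ 2 ≤ C * ‖v‖ ^ 2) {n : ℕ} {v : Fin n → E}
    (hv : Orthonormal ℂ v) : ∑ i, ‖ℓ (v i)‖ ^ 2 ≤ C := by
  set S := ∑ i, ‖ℓ (v i)‖ ^ 2 with hS
  have hS0 : 0 ≤ S := sum_nonneg fun i _ => sq_nonneg _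
  have h1 : ℓ (∑ i, conj (ℓ (v i)) • v i) = S := by
    simp only [map_sum, map_smul, smul_eq_mul, hS]
    push_cast
    exact sum_congr rfl fun i _ => Complex.conj_mul' _
  have h2 : ‖∑ i, conj (ℓ (v i)) • v i‖ ^ 2 = S := by
    rw [@norm_sq_eq_re_inner ℂ, hv.inner_sum, map_sum]
    refine sum_congr rfl fun i _ => ?_
    rw [Complex.conj_conj, Complex.mul_conj']
    norm_cast
  have h3 := hℓ (∑ i, conj (ℓ (v i)) • v i)
  rw [h1, h2, Complex.norm_real, Real.norm_of_nonneg hS0] at h3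
  rcases hS0.eq_or_lt with h | h
  · rw [← h]; exact hC
  · nlinarith

namespace RW

variable {G Y : Type*} [Group G] [MulAction G Y] (w : RW G Y)

/-- Lipschitz functions. -/
def Lip (h : Y → ℂ) : Prop := ∃ L : ℝ, ∀ x, ∀ y ∈ w.N x, ‖h y - h x‖ ≤ L

/-- Lipschitz harmonic functions vanishing at the base point. -/
def LH (o : Y) : Submodule ℂ (Y → ℂ) where
  carrier := {h | h o = 0 ∧ w.P h = h ∧ w.Lip h}
  add_mem' := by
    rintro f g ⟨h1, h2, L, h3⟩ ⟨h1', h2', L', h3'⟩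
    refine ⟨by simp [h1, h1'], ?_, L + L', fun x y hy => ?_⟩
    · funext x
      have e1 := congrFun h2 x
      have e2 := congrFun h2' x
      simp only [P, Pi.add_apply, smul_add, sum_add_distrib] at e1 e2 ⊢
      rw [e1, e2]
    · simp only [Pi.add_apply]
      rw [add_sub_add_comm]
      exact (norm_add_le _ _).trans (add_le_add (h3 x y hy) (h3' x y hy))
  zero_mem' := ⟨rfl, w.P_const 0, 0, by simp⟩
  smul_mem' := by
    rintro c f ⟨h1, h2, L, h3⟩
    refine ⟨by simp [h1], ?_, ‖c‖ * L, fun x y hy => ?_⟩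
    · funext x
      have e1 := congrFun h2 x
      simp only [P, Pi.smul_apply] at e1 ⊢
      rw [← e1, smul_sum]
      exact sum_congr rfl fun y _ => smul_comm _ _ _
    · simp only [Pi.smul_apply]
      rw [← smul_sub, norm_smul]
      exact mul_le_mul_of_nonneg_left (h3 x y hy) (norm_nonneg _)

/-- The carre du champ. -/
noncomputable def Γ (h h' : Y → ℂ) (x : Y) : ℂ :=
  ∑ y ∈ w.N x, w.k x y • (conj (h y - h x) * (h' y - h' x))

/-- Cesaro averages of the carre du champ. -/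
noncomputable def A (n : ℕ) (h h' : Y → ℂ) (x : Y) : ℂ :=
  (1 / ((n : ℝ) + 1)) • ∑ j ∈ range (n + 1), w.E j (w.Γ h h') x

/-- The asymptotic energy form. -/
noncomputable def Q (𝒰 : Ultrafilter ℕ) (h h' : Y → ℂ) (x : Y) : ℂ :=
  limUnder (𝒰 : Filter ℕ) fun n => w.A n h h' x

variable {w}

lemma Γ_bound {h h' : Y → ℂ} (hh : w.Lip h) (hh' : w.Lip h') : ∃ M, ∀ x, ‖w.Γ h h' x‖ ≤ M := by
  obtain ⟨L, hL⟩ := hh
  obtain ⟨L', hL'⟩ := hh'
  refine ⟨L * L', fun x => (norm_sum_le _ _).trans ?_⟩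
  calc _ ≤ ∑ y ∈ w.N x, w.k x y * (L * L') := sum_le_sum fun y hy => by
        rw [norm_smul, Real.norm_of_nonneg (w.k_nonneg x y), norm_mul, RCLike.norm_conj]
        exact mul_le_mul_of_nonneg_left (mul_le_mul (hL x y hy) (hL' x y hy) (norm_nonneg _)
          ((norm_nonneg _).trans (hL x y hy))) (w.k_nonneg x y)
    _ = _ := by rw [← sum_mul, w.k_sum, one_mul]

lemma A_bound {h h' : Y → ℂ} {M : ℝ} (hM : ∀ x, ‖w.Γ h h' x‖ ≤ M) (n : ℕ) (x : Y) :
    ‖w.A n h h' x‖ ≤ M := by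
  have hn : (0 : ℝ) < n + 1 := by positivity
  rw [A, norm_smul, Real.norm_of_nonneg (by positivity), one_div, ← div_eq_inv_mul,
    div_le_iff₀ hn]
  refine (norm_sum_le _ _).trans ((sum_le_sum fun j _ => w.norm_E_le j hM x).trans ?_)
  simp [mul_comm]

lemma tendsto_Q (𝒰 : Ultrafilter ℕ) {h h' : Y → ℂ} (hh : w.Lip h) (hh' : w.Lip h') (x : Y) :
    Tendsto (fun n => w.A n h h' x) 𝒰 (𝓝 (w.Q 𝒰 h h' x)) := by
  obtain ⟨M, hM⟩ := Γ_bound hh hh'
  exact tendsto_nhds_limUnder (exists_lim 𝒰 fun n => A_bound hM n x)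

lemma Q_harm {𝒰 : Ultrafilter ℕ} (h𝒰 : (𝒰 : Filter ℕ) ≤ atTop) {h h' : Y → ℂ} (hh : w.Lip h)
    (hh' : w.Lip h') : w.P (w.Q 𝒰 h h') = w.Q 𝒰 h h' := by
  obtain ⟨M, hM⟩ := Γ_bound hh hh'
  funext x
  have h1 : Tendsto (fun n => w.P (w.A n h h') x - w.A n h h' x) 𝒰
      (𝓝 (w.P (w.Q 𝒰 h h') x - w.Q 𝒰 h h' x)) :=
    (tendsto_finsetSum _ fun y _ => (tendsto_Q 𝒰 hh hh' y).const_smul _).sub
      (tendsto_Q 𝒰 hh hh' x)
  have h2 : ∀ n : ℕ, w.P (w.A n h h') x - w.A n h h' x =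
      (1 / ((n : ℝ) + 1)) • (w.E (n + 1) (w.Γ h h') x - w.E 0 (w.Γ h h') x) := by
    intro n
    rw [← sum_range_sub (fun j => w.E j (w.Γ h h') x), sum_sub_distrib, smul_sub]
    congr 1
    simp only [P, A, E_succ, smul_sum]
    rw [sum_comm]
    exact sum_congr rfl fun j _ => sum_congr rfl fun y _ => smul_comm _ _ _
  have h3 : Tendsto (fun n => w.P (w.A n h h') x - w.A n h h' x) 𝒰 (𝓝 0) := by
    refine Tendsto.mono_left ?_ h𝒰
    refine squeeze_zero_norm (a := fun n : ℕ => 1 / ((n : ℝ) + 1) * (M + M)) (fun n => ?_) ?_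
    · rw [h2, norm_smul, Real.norm_of_nonneg (by positivity)]
      exact mul_le_mul_of_nonneg_left ((norm_sub_le _ _).trans
        (add_le_add (w.norm_E_le _ hM x) (w.norm_E_le _ hM x))) (by positivity)
    · simpa using tendsto_one_div_add_atTop_nhds_zero_nat.mul_const (M + M)
  exact sub_eq_zero.1 (tendsto_nhds_unique h1 h3)

lemma Q_const {d : ℕ} {o : Y} (hw : Wk d fun n => (w.B n o).card) {𝒰 : Ultrafilter ℕ}
    (h𝒰 : (𝒰 : Filter ℕ) ≤ atTop) {h h' : Y → ℂ} (hh : w.Lip h) (hh' : w.Lip h') (x y : Y) :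
    w.Q 𝒰 h h' x = w.Q 𝒰 h h' y := by
  obtain ⟨M, hM⟩ := Γ_bound hh hh'
  exact w.liouville o hw (Q_harm h𝒰 hh hh') (M := M)
    (fun z => le_of_tendsto' (tendsto_Q 𝒰 hh hh' z).norm fun n => A_bound hM n z) y x

lemma Γ_self (h : Y → ℂ) (x : Y) :
    w.Γ h h x = (∑ y ∈ w.N x, w.k x y * ‖h y - h x‖ ^ 2 : ℝ) := by
  rw [Γ]
  push_cast
  exact sum_congr rfl fun y _ => by rw [Complex.conj_mul', Complex.real_smul]

lemma E_ofReal (n : ℕ) (f : Y → ℝ) (x : Y) : w.E n (fun z => (f z : ℂ)) x = (w.E n f x : ℝ) := by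
  rw [w.E_eq_sum n _ x subset_rfl, w.E_eq_sum n _ x subset_rfl]
  simp

lemma A_self (n : ℕ) (h : Y → ℂ) (x : Y) :
    w.A n h h x = (1 / ((n : ℝ) + 1) * ∑ j ∈ range (n + 1),
      w.E j (fun x => ∑ y ∈ w.N x, w.k x y * ‖h y - h x‖ ^ 2) x : ℝ) := by
  rw [A, funext (Γ_self h)]
  simp only [E_ofReal, Complex.real_smul]
  push_cast
  rfl

lemma E_sq {h : Y → ℂ} (hh : w.P h = h) (n : ℕ) (x : Y) :
    w.E n (fun z => ‖h z - h x‖ ^ 2) x =
      ∑ j ∈ range n, w.E j (fun x => ∑ y ∈ w.N x, w.k x y * ‖h y - h x‖ ^ 2) x := by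
  have h1 : w.P (fun z => ‖h z - h x‖ ^ 2) =
      fun z => ‖h z - h x‖ ^ 2 + ∑ y ∈ w.N z, w.k z y * ‖h y - h z‖ ^ 2 := by
    funext z
    have e1 : ∀ y, ‖h y - h x‖ ^ 2 =
        ‖h z - h x‖ ^ 2 + ‖h y - h z‖ ^ 2 + 2 * (conj (h z - h x) * (h y - h z)).re := by
      intro y
      rw [show h y - h x = (h z - h x) + (h y - h z) by ring]
      simp only [Complex.sq_norm, Complex.normSq_apply, Complex.add_re, Complex.add_im,
        Complex.mul_re, Complex.conj_re, Complex.conj_im]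
      ring
    have e2 : ∑ y ∈ w.N z, w.k z y * (conj (h z - h x) * (h y - h z)).re = 0 := by
      have e3 : ∑ y ∈ w.N z, w.k z y • (h y - h z) = 0 := by
        simp only [smul_sub, sum_sub_distrib, ← sum_smul, w.k_sum, one_smul]
        exact sub_eq_zero.2 (congrFun hh z)
      have e4 := congrArg (fun t => (conj (h z - h x) * t).re) e3
      simp only [mul_sum, Complex.re_sum, mul_zero, Complex.zero_re, mul_smul_comm,
        Complex.smul_re, smul_eq_mul] at e4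
      exact e4
    rw [P, sum_congr rfl fun y _ => by rw [e1 y]]
    simp only [smul_eq_mul, mul_add, sum_add_distrib, ← sum_mul, w.k_sum, one_mul,
      mul_left_comm _ (2 : ℝ), ← mul_sum, e2, mul_zero, add_zero]
  induction n with
  | zero => simp [E_zero]
  | succ n ih => rw [← E_P, h1, E_add, ih, sum_range_succ]

lemma edge_le_Q {d : ℕ} {o : Y} {𝒰 : Ultrafilter ℕ}
    (h𝒰 : ∀ᶠ n : ℕ in 𝒰, (n + 1) * (w.H (n + 1) o - w.H n o) ≤ d + 1) {h : Y → ℂ}
    (hh : w.Lip h) (hP : w.P h = h) {x y : Y} (hy : y ∈ w.N x) :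
    ‖h y - h x‖ ^ 2 ≤ w.c₀ * (d + 1) * (w.Q 𝒰 h h x).re := by
  have h1 : Tendsto (fun n => w.c₀ * (d + 1) * (w.A n h h x).re) 𝒰
      (𝓝 (w.c₀ * (d + 1) * (w.Q 𝒰 h h x).re)) :=
    ((Complex.continuous_re.tendsto _).comp (tendsto_Q 𝒰 hh hh x)).const_mul _
  refine ge_of_tendsto h1 (h𝒰.mono fun n hn => ?_)
  have h2 := w.key n hy h (h x)
  rw [w.E_harm hP, w.E_harm hP, w.H_const (n + 1) x o, w.H_const n x o] at h2
  have h3 : 0 ≤ w.E (n + 1) (fun z => ‖h z - h x‖ ^ 2) x :=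
    le_trans (by rw [E_const]) (w.E_mono _ (f := fun _ => 0) (fun z => sq_nonneg _) x)
  rw [A_self, Complex.ofReal_re, ← E_sq hP]
  refine h2.trans ?_
  have hc := w.c₀_pos
  have hn' : w.H (n + 1) o - w.H n o ≤ (d + 1) * (1 / ((n : ℝ) + 1)) := by
    rw [mul_one_div, le_div_iff₀ (by positivity), mul_comm]; exact hn
  calc _ ≤ w.c₀ * ((d + 1) * (1 / ((n : ℝ) + 1))) *
        w.E (n + 1) (fun z => ‖h z - h x‖ ^ 2) x := by gcongr
    _ = _ := by ring

lemma A_add_left (n : ℕ) (f g h : Y → ℂ) (x : Y) :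
    w.A n (f + g) h x = w.A n f h x + w.A n g h x := by
  have : w.Γ (f + g) h = fun z => w.Γ f h z + w.Γ g h z := by
    funext z
    simp only [Γ, ← sum_add_distrib, ← smul_add, Pi.add_apply, map_sub, map_add]
    exact sum_congr rfl fun y _ => by congr 1; ring
  simp only [A, this, E_add, sum_add_distrib, smul_add]

lemma A_smul_left (n : ℕ) (c : ℂ) (f h : Y → ℂ) (x : Y) :
    w.A n (c • f) h x = conj c * w.A n f h x := by
  have h1 : w.Γ (c • f) h = fun z => conj c * w.Γ f h z := by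
    funext z
    simp only [Γ, mul_sum, Pi.smul_apply, smul_eq_mul, map_sub, map_mul, Complex.real_smul]
    exact sum_congr rfl fun y _ => by ring
  have h2 : ∀ j, w.E j (fun z => conj c * w.Γ f h z) x = conj c * w.E j (w.Γ f h) x := by
    intro j
    rw [w.E_eq_sum j _ x subset_rfl, w.E_eq_sum j _ x subset_rfl, mul_sum]
    exact sum_congr rfl fun y _ => (mul_smul_comm _ _ _).symm
  simp only [A, h1, h2, ← mul_sum, mul_smul_comm]

lemma A_conj (n : ℕ) (f h : Y → ℂ) (x : Y) : conj (w.A n f h x) = w.A n h f x := by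
  have h1 : w.Γ h f = fun z => conj (w.Γ f h z) := by
    funext z
    simp only [Γ, map_sum, Complex.real_smul, map_mul, Complex.conj_conj, Complex.conj_ofReal]
    exact sum_congr rfl fun y _ => by ring
  have h2 : ∀ j, w.E j (fun z => conj (w.Γ f h z)) x = conj (w.E j (w.Γ f h) x) := by
    intro j
    rw [w.E_eq_sum j _ x subset_rfl, w.E_eq_sum j _ x subset_rfl, map_sum]
    exact sum_congr rfl fun y _ => by simp
  simp only [A, h1, h2, ← map_sum, Complex.real_smul, map_mul, Complex.conj_ofReal]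

lemma A_smul (g : G) (n : ℕ) (f h : Y → ℂ) (c c' : ℂ) (x : Y) :
    w.A n (fun z => f (g • z) - c) (fun z => h (g • z) - c') x = w.A n f h (g • x) := by
  have h1 : w.Γ (fun z => f (g • z) - c) (fun z => h (g • z) - c') =
      fun z => w.Γ f h (g • z) := by
    funext z
    have := w.P_smul g (fun y => conj (f y - f (g • z)) * (h y - h (g • z))) z
    simpa only [Γ, P, sub_sub_sub_cancel_right] using this
  simp only [A, h1, E_smul]

lemma re_A_self_nonneg (n : ℕ) (h : Y → ℂ) (x : Y) : 0 ≤ (w.A n h h x).re := by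
  rw [A_self, Complex.ofReal_re]
  refine mul_nonneg (by positivity) (sum_nonneg fun j _ => ?_)
  exact le_trans (by rw [E_const]) (w.E_mono _ (f := fun _ => 0)
    (fun z => sum_nonneg fun y _ => mul_nonneg (w.k_nonneg z y) (sq_nonneg _)) x)

lemma sum_re_A_le {m : ℕ} (v : Fin m → Y → ℂ) {C : ℝ}
    (hC : ∀ x, ∀ y ∈ w.N x, ∑ i, ‖v i y - v i x‖ ^ 2 ≤ C) (n : ℕ) (x : Y) :
    ∑ i, (w.A n (v i) (v i) x).re ≤ C := by
  simp only [A_self, Complex.ofReal_re]
  rw [← mul_sum, sum_comm, one_div, ← div_eq_inv_mul, div_le_iff₀ (by positivity)]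
  have : ∀ j, ∑ i, w.E j (fun x => ∑ y ∈ w.N x, w.k x y * ‖v i y - v i x‖ ^ 2) x ≤ C := by
    intro j
    simp only [w.E_eq_sum j _ x subset_rfl, smul_eq_mul]
    rw [sum_comm]
    calc _ ≤ ∑ z ∈ w.B j x, w.μ j x z * C := sum_le_sum fun z _ => by
          rw [← mul_sum, sum_comm]
          refine mul_le_mul_of_nonneg_left ?_ (w.μ_nonneg j x z)
          calc _ ≤ ∑ y ∈ w.N z, w.k z y * C := sum_le_sum fun y hy => by
                rw [← mul_sum]
                exact mul_le_mul_of_nonneg_left (hC z y hy) (w.k_nonneg z y)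
            _ = C := by rw [← sum_mul, w.k_sum, one_mul]
      _ = C := by rw [← sum_mul, w.sum_μ j x subset_rfl, one_mul]
  refine (sum_le_sum fun j _ => this j).trans ?_
  simp [mul_comm]

/-- The space of Lipschitz harmonic functions as a type. -/
def Sp (w : RW G Y) (o : Y) : Type _ := w.LH o

noncomputable instance (o : Y) : AddCommGroup (Sp w o) := inferInstanceAs (AddCommGroup (w.LH o))

noncomputable instance (o : Y) : Module ℂ (Sp w o) := inferInstanceAs (Module ℂ (w.LH o))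

/-- The underlying function. -/
noncomputable def ι (w : RW G Y) (o : Y) : Sp w o →ₗ[ℂ] (Y → ℂ) := (w.LH o).subtype

lemma ι_mem {o : Y} (v : Sp w o) : ι w o v ∈ w.LH o := (v : w.LH o).2

lemma ι_inj {o : Y} : Function.Injective (ι w o) := Subtype.val_injective

/-- The inner product. -/
@[reducible] noncomputable def core {d : ℕ} {o : Y} (hw : Wk d fun n => (w.B n o).card)
    {𝒰 : Ultrafilter ℕ} (h𝒰' : (𝒰 : Filter ℕ) ≤ atTop)
    (h𝒰 : ∀ᶠ n : ℕ in 𝒰, (n + 1) * (w.H (n + 1) o - w.H n o) ≤ d + 1) :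
    InnerProductSpace.Core ℂ (Sp w o) where
  inner u v := w.Q 𝒰 (ι w o u) (ι w o v) o
  conj_inner_symm u v := by
    refine tendsto_nhds_unique ?_ (tendsto_Q 𝒰 (ι_mem u).2.2 (ι_mem v).2.2 o)
    have := (Complex.continuous_conj.tendsto _).comp (tendsto_Q 𝒰 (ι_mem v).2.2 (ι_mem u).2.2 o)
    simpa only [Function.comp_def, A_conj] using this
  re_inner_nonneg u :=
    ge_of_tendsto' ((Complex.continuous_re.tendsto _).comp
      (tendsto_Q 𝒰 (ι_mem u).2.2 (ι_mem u).2.2 o)) fun n => re_A_self_nonneg n _ o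
  add_left u v t := by
    refine tendsto_nhds_unique (tendsto_Q 𝒰 (ι_mem (u + v)).2.2 (ι_mem t).2.2 o) ?_
    simp only [map_add, A_add_left]
    exact (tendsto_Q 𝒰 (ι_mem u).2.2 (ι_mem t).2.2 o).add
      (tendsto_Q 𝒰 (ι_mem v).2.2 (ι_mem t).2.2 o)
  smul_left u v c := by
    refine tendsto_nhds_unique (tendsto_Q 𝒰 (ι_mem (c • u)).2.2 (ι_mem v).2.2 o) ?_
    simp only [map_smul, A_smul_left]
    exact (tendsto_Q 𝒰 (ι_mem u).2.2 (ι_mem v).2.2 o).const_mul _
  definite u hu := by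
    apply ι_inj
    funext z
    have hu' : w.Q 𝒰 (ι w o u) (ι w o u) o = 0 := hu
    rw [w.const_of_edges (f := ι w o u) (fun x y hy => ?_) o z, (ι_mem u).1, map_zero,
      Pi.zero_apply]
    have := edge_le_Q h𝒰 (ι_mem u).2.2 (ι_mem u).2.1 hy
    rw [Q_const hw h𝒰' (ι_mem u).2.2 (ι_mem u).2.2 x o, hu', Complex.zero_re, mul_zero] at this
    exact sub_eq_zero.1 (norm_eq_zero.1 (pow_eq_zero_iff two_ne_zero |>.1
      (le_antisymm this (sq_nonneg _))))

/-- The action on Lipschitz harmonic functions. -/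
noncomputable def act (w : RW G Y) (o : Y) (g : G) : Sp w o →ₗ[ℂ] Sp w o where
  toFun v := (⟨fun x => ι w o v (g⁻¹ • x) - ι w o v (g⁻¹ • o), by
    obtain ⟨-, h2, L, h3⟩ := ι_mem v
    refine ⟨sub_self _, ?_, L, fun x y hy => ?_⟩
    · funext x
      have := w.P_smul g⁻¹ (ι w o v) x
      rw [h2] at this
      simp only [P, smul_sub, sum_sub_distrib, ← sum_smul, w.k_sum, one_smul] at this ⊢
      rw [this]
    · rw [sub_sub_sub_cancel_right]
      exact h3 _ _ ((w.smul_mem_N g⁻¹).2 hy)⟩ : w.LH o)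
  map_add' u v := by
    apply ι_inj
    funext x
    change ι w o (u + v) _ - ι w o (u + v) _ = (_ - _) + (_ - _)
    simp only [map_add, Pi.add_apply]
    ring
  map_smul' c v := by
    apply ι_inj
    funext x
    change ι w o (c • v) _ - ι w o (c • v) _ = c • (_ - _)
    simp only [map_smul, Pi.smul_apply, smul_sub]

lemma ι_act {o : Y} (g : G) (v : Sp w o) :
    ι w o (act w o g v) = fun x => ι w o v (g⁻¹ • x) - ι w o v (g⁻¹ • o) := rfl

/-- The increment along an edge as a functional. -/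
noncomputable def ev (w : RW G Y) (o x y : Y) : Sp w o →ₗ[ℂ] ℂ where
  toFun v := ι w o v y - ι w o v x
  map_add' u v := by simp only [map_add, Pi.add_apply]; ring
  map_smul' c v := by simp only [map_smul, Pi.smul_apply, smul_sub, RingHom.id_apply]

end RW

universe u

theorem RW.exists_rep {G : Type*} {Y : Type u} [Group G] [MulAction G Y] (w : RW G Y) [Infinite Y]
    {d : ℕ} (o : Y) (hw : Wk d fun n => (w.B n o).card) :
    ∃ (E : Type u) (_ : NormedAddCommGroup E) (_ : InnerProductSpace ℂ E)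
      (_ : FiniteDimensional ℂ E) (ι : E →ₗ[ℂ] (Y → ℂ)) (ρ : G →* (E →L[ℂ] E)),
      Function.Injective ι ∧ (∀ g v, ‖ρ g v‖ = ‖v‖) ∧
      (∀ g v x, ι (ρ g v) x = ι v (g⁻¹ • x) - ι v (g⁻¹ • o)) ∧ (∀ v, ι v o = 0) ∧
      (∃ v : E, v ≠ 0) ∧ ∀ v (M : ℝ), (∀ z, ‖ι v z‖ ≤ M) → v = 0 := by
  have hfreq : ∃ᶠ n : ℕ in atTop, (n + 1) * (w.H (n + 1) o - w.H n o) ≤ d + 1 :=
    frequently_atTop.2 fun N => by
      obtain ⟨n, hn, h⟩ := w.good o hw N
      exact ⟨n, hn, h⟩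
  obtain ⟨𝒰, h𝒰⟩ := Ultrafilter.exists_le _ (h := frequently_iff_neBot.1 hfreq)
  have h1 : (𝒰 : Filter ℕ) ≤ atTop := h𝒰.trans inf_le_left
  have h2 : ∀ᶠ n : ℕ in 𝒰, (n + 1) * (w.H (n + 1) o - w.H n o) ≤ d + 1 :=
    le_principal_iff.1 (h𝒰.trans inf_le_right)
  let c : InnerProductSpace.Core ℂ (RW.Sp w o) := RW.core hw h1 h2
  let : NormedAddCommGroup (RW.Sp w o) := InnerProductSpace.Core.toNormedAddCommGroup (𝕜 := ℂ)
  let : InnerProductSpace ℂ (RW.Sp w o) := InnerProductSpace.ofCore c.toCore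
  have hnorm : ∀ v : RW.Sp w o, ‖v‖ ^ 2 = (w.Q 𝒰 (RW.ι w o v) (RW.ι w o v) o).re := fun v =>
    @norm_sq_eq_re_inner ℂ _ _ _ _ v
  have hc := w.c₀_pos
  have hfd : FiniteDimensional ℂ (RW.Sp w o) := by
    refine fd_of_trace (w.c₀ * (d + 1)) fun n v hv => ?_
    have e1 : ∀ x, ∀ y ∈ w.N x, ∑ i, ‖RW.ι w o (v i) y - RW.ι w o (v i) x‖ ^ 2 ≤
        w.c₀ * (d + 1) := by
      intro x y hy
      refine bessel (RW.ev w o x y) (by positivity) (fun u => ?_) hv
      rw [hnorm, RW.Q_const hw h1 (RW.ι_mem u).2.2 (RW.ι_mem u).2.2 o x]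
      exact RW.edge_le_Q h2 (RW.ι_mem u).2.2 (RW.ι_mem u).2.1 hy
    have e2 : Tendsto (fun m => ∑ i, (w.A m (RW.ι w o (v i)) (RW.ι w o (v i)) o).re) 𝒰
        (𝓝 (∑ i, (w.Q 𝒰 (RW.ι w o (v i)) (RW.ι w o (v i)) o).re)) :=
      tendsto_finsetSum _ fun i _ => (Complex.continuous_re.tendsto _).comp
        (RW.tendsto_Q 𝒰 (RW.ι_mem _).2.2 (RW.ι_mem _).2.2 o)
    have e3 := le_of_tendsto' e2 fun m => RW.sum_re_A_le (fun i => RW.ι w o (v i)) e1 m o
    simpa [← hnorm, hv.1] using e3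
  have hiso : ∀ g v, ‖RW.act w o g v‖ = ‖v‖ := by
    intro g v
    refine (sq_eq_sq₀ (norm_nonneg _) (norm_nonneg _)).1 ?_
    rw [hnorm, hnorm, RW.Q_const hw h1 (RW.ι_mem v).2.2 (RW.ι_mem v).2.2 o (g⁻¹ • o), RW.ι_act]
    simp only [RW.Q, RW.A_smul]
  let ρ : G →* (RW.Sp w o →L[ℂ] RW.Sp w o) :=
    { toFun := fun g => LinearMap.toContinuousLinearMap (RW.act w o g)
      map_one' := by
        ext v
        apply RW.ι_inj
        funext x
        change RW.ι w o (RW.act w o 1 v) x = RW.ι w o v x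
        simp [RW.ι_act, (RW.ι_mem v).1]
      map_mul' := fun g g' => by
        ext v
        apply RW.ι_inj
        funext x
        change RW.ι w o (RW.act w o (g * g') v) x = RW.ι w o (RW.act w o g (RW.act w o g' v)) x
        simp [RW.ι_act, mul_smul] }
  refine ⟨RW.Sp w o, inferInstance, inferInstance, hfd, RW.ι w o, ρ, RW.ι_inj, hiso,
    fun g v x => rfl, fun v => (RW.ι_mem v).1, ?_, fun v M hM => ?_⟩
  · obtain ⟨h, e1, e2, e3, e4⟩ := w.exists_harmonic o hw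
    refine ⟨(⟨fun x => (h x : ℂ), by simp [e1], ?_, 1, fun x y hy => ?_⟩ : w.LH o), fun h0 => e4 ?_⟩
    · funext x
      have := congrFun e3 x
      simp only [RW.P, smul_eq_mul, Complex.real_smul] at this ⊢
      exact_mod_cast this
    · rw [← Complex.ofReal_sub, Complex.norm_real]; exact e2 x y hy
    · funext x
      have := congrFun (congrArg (RW.ι w o) h0) x
      rw [map_zero] at this
      exact Complex.ofReal_eq_zero.1 this
  · apply RW.ι_inj
    funext z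
    rw [w.liouville o hw (RW.ι_mem v).2.1 hM o z, (RW.ι_mem v).1, map_zero, Pi.zero_apply]

end Pool.Agent.Lib.Gromov
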