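import Pool.Agent.Lib.Gromov.Growth

set_option autoImplicit false

namespace Pool.Agent.Lib.Gromov

open Finset

/-- A lazy symmetric finite range random walk on a homogeneous space. -/
structure RW (G Y : Type*) [Group G] [MulAction G Y] where
  N : Y → Finset Y
  k : Y → Y → ℝ
  κ : ℝ
  κ_pos : 0 < κ
  k_ge : ∀ x, ∀ y ∈ N x, κ ≤ k x y
  k_zero : ∀ x y, y ∉ N x → k x y = 0
  k_symm : ∀ x y, k x y = k y x
  k_sum : ∀ x, ∑ y ∈ N x, k x y = 1
  k_half : ∀ x, 1 / 2 ≤ k x x
  k_smul : ∀ (g : G) x y, k (g • x) (g • y) = k x y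
  trans : ∀ x y : Y, ∃ g : G, g • x = y
  conn : ∀ x y, Relation.ReflTransGen (fun a b => b ∈ N a) x y

lemma lc_eq_sum {Y V : Type*} [AddCommGroup V] [Module ℝ V] (f : Y → V) (a : Y →₀ ℝ)
    (s : Finset Y) (hs : ∀ z, z ∉ s → a z • f z = 0) :
    Finsupp.linearCombination ℝ f a = ∑ z ∈ s, a z • f z := by
  classical
  rw [Finsupp.linearCombination_apply, Finsupp.sum]
  have h1 : ∑ z ∈ a.support, a z • f z = ∑ z ∈ a.support ∪ s, a z • f z :=
    sum_subset subset_union_left fun z _ hz => by simp [Finsupp.notMem_support_iff.1 hz]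
  have h2 : ∑ z ∈ s, a z • f z = ∑ z ∈ a.support ∪ s, a z • f z :=
    sum_subset subset_union_right fun z _ hz => hs z hz
  rw [h1, h2]

namespace RW

variable {G Y : Type*} [Group G] [MulAction G Y] (w : RW G Y)

lemma k_nonneg (x y : Y) : 0 ≤ w.k x y := by
  by_cases h : y ∈ w.N x
  · exact w.κ_pos.le.trans (w.k_ge x y h)
  · rw [w.k_zero x y h]

lemma mem_N_iff {x y : Y} : y ∈ w.N x ↔ w.k x y ≠ 0 :=
  ⟨fun h => (w.κ_pos.trans_le (w.k_ge x y h)).ne', fun h => by
    by_contra h'; exact h (w.k_zero x y h')⟩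

lemma N_symm {x y : Y} (h : y ∈ w.N x) : x ∈ w.N y := by
  rw [mem_N_iff] at h ⊢; rwa [w.k_symm]

lemma self_mem_N (x : Y) : x ∈ w.N x := by
  rw [mem_N_iff]; linarith [w.k_half x]

lemma smul_mem_N {x y : Y} (g : G) : g • y ∈ w.N (g • x) ↔ y ∈ w.N x := by
  rw [mem_N_iff, mem_N_iff, w.k_smul]

lemma κ_le_one (x : Y) : w.κ ≤ 1 := by
  have h1 := w.k_ge x x (w.self_mem_N x)
  have h2 := single_le_sum (f := w.k x) (fun y _ => w.k_nonneg x y) (w.self_mem_N x)
  rw [w.k_sum] at h2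
  linarith

/-- The law after `n` steps. -/
noncomputable def μ : ℕ → Y → (Y →₀ ℝ)
  | 0, x => Finsupp.single x 1
  | n + 1, x => ∑ y ∈ w.N x, w.k x y • μ n y

open Classical in
/-- The ball of radius `n`. -/
noncomputable def B : ℕ → Y → Finset Y
  | 0, x => {x}
  | n + 1, x => (w.N x).biUnion (B n)

section Ops

variable {V : Type*} [AddCommGroup V] [Module ℝ V]

/-- The Markov operator. -/
def P (f : Y → V) (x : Y) : V := ∑ y ∈ w.N x, w.k x y • f y

/-- Expectation after `n` steps. -/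
noncomputable def E (n : ℕ) (f : Y → V) (x : Y) : V := Finsupp.linearCombination ℝ f (w.μ n x)

lemma E_zero (f : Y → V) : w.E 0 f = f := by
  funext x; simp [E, μ]

lemma E_succ (n : ℕ) (f : Y → V) : w.E (n + 1) f = w.P (w.E n f) := by
  funext x; simp [E, μ, P, map_sum]

lemma E_P (n : ℕ) (f : Y → V) : w.E n (w.P f) = w.E (n + 1) f := by
  induction n with
  | zero => rw [E_succ, E_zero, E_zero]
  | succ n ih => rw [E_succ, ih, ← E_succ]

lemma E_E (n m : ℕ) (f : Y → V) : w.E n (w.E m f) = w.E (n + m) f := by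
  induction n with
  | zero => rw [E_zero, zero_add]
  | succ n ih => rw [E_succ, ih, ← E_succ]; congr 1; ring

lemma P_const (c : V) : w.P (fun _ => c) = fun _ => c := by
  funext x; rw [P, ← sum_smul, w.k_sum, one_smul]

lemma E_harm {f : Y → V} (hf : w.P f = f) (n : ℕ) : w.E n f = f := by
  induction n with
  | zero => exact w.E_zero f
  | succ n ih => rw [E_succ, ih, hf]

lemma E_const (n : ℕ) (c : V) : w.E n (fun _ => c) = fun _ => c := w.E_harm (w.P_const c) n

lemma E_add (n : ℕ) (f g : Y → V) (x : Y) :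
    w.E n (fun z => f z + g z) x = w.E n f x + w.E n g x := by
  simp [E, Finsupp.linearCombination_apply, Finsupp.sum, sum_add_distrib]

lemma E_sub (n : ℕ) (f g : Y → V) (x : Y) :
    w.E n (fun z => f z - g z) x = w.E n f x - w.E n g x := by
  simp [E, Finsupp.linearCombination_apply, Finsupp.sum, sum_sub_distrib, smul_sub]

lemma P_smul (g : G) (f : Y → V) (x : Y) : w.P (fun z => f (g • z)) x = w.P f (g • x) := by
  unfold P
  refine sum_bij (fun y _ => g • y) (fun y hy => (w.smul_mem_N g).2 hy)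
    (fun a _ b _ h => MulAction.injective g h) (fun z hz => ⟨g⁻¹ • z, ?_, by simp⟩)
    (fun y _ => by rw [w.k_smul])
  rw [← w.smul_mem_N g]; simpa using hz

lemma E_smul (g : G) (n : ℕ) (f : Y → V) (x : Y) :
    w.E n (fun z => f (g • z)) x = w.E n f (g • x) := by
  induction n generalizing x with
  | zero => simp [E_zero]
  | succ n ih => rw [E_succ, E_succ, ← P_smul, funext ih]

end Ops

lemma μ_succ_apply (n : ℕ) (x z : Y) : w.μ (n + 1) x z = ∑ y ∈ w.N x, w.k x y * w.μ n y z := by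
  simp [μ, Finsupp.finsetSum_apply]

lemma μ_nonneg (n : ℕ) (x z : Y) : 0 ≤ w.μ n x z := by
  classical
  induction n generalizing x with
  | zero => simp only [μ, Finsupp.single_apply]; split_ifs <;> norm_num
  | succ n ih => rw [μ_succ_apply]; exact sum_nonneg fun y _ => mul_nonneg (w.k_nonneg x y) (ih y)

lemma μ_succ_ge {n : ℕ} {x y : Y} (hy : y ∈ w.N x) (z : Y) : w.κ * w.μ n y z ≤ w.μ (n + 1) x z := by
  rw [μ_succ_apply]
  refine le_trans (mul_le_mul_of_nonneg_right (w.k_ge x y hy) (w.μ_nonneg n y z)) ?_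
  exact single_le_sum (f := fun y => w.k x y * w.μ n y z)
    (fun y _ => mul_nonneg (w.k_nonneg x y) (w.μ_nonneg n y z)) hy

lemma μ_eq_zero {n : ℕ} {x z : Y} (h : z ∉ w.B n x) : w.μ n x z = 0 := by
  classical
  induction n generalizing x with
  | zero =>
    simp only [B, mem_singleton] at h
    simp [μ, Ne.symm h]
  | succ n ih =>
    rw [μ_succ_apply]
    refine sum_eq_zero fun y hy => ?_
    rw [ih, mul_zero]
    intro hz
    exact h (by simp only [B, mem_biUnion]; exact ⟨y, hy, hz⟩)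

lemma E_eq_sum {V : Type*} [AddCommGroup V] [Module ℝ V] (n : ℕ) (f : Y → V) (x : Y)
    {s : Finset Y} (hs : w.B n x ⊆ s) : w.E n f x = ∑ z ∈ s, w.μ n x z • f z :=
  lc_eq_sum f _ s fun z hz => by rw [w.μ_eq_zero fun h => hz (hs h), zero_smul]

lemma sum_μ (n : ℕ) (x : Y) {s : Finset Y} (hs : w.B n x ⊆ s) : ∑ z ∈ s, w.μ n x z = 1 := by
  have := w.E_eq_sum n (fun _ => (1 : ℝ)) x hs
  rw [E_const] at this
  simpa using this.symm

open Classical in
lemma μ_eq_E (n : ℕ) (x z : Y) : w.μ n x z = w.E n (fun y => if y = z then (1 : ℝ) else 0) x := by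
  rw [E, lc_eq_sum _ _ {z} (by intro y hy; simp [mem_singleton.not.1 hy])]
  simp

lemma μ_smul (g : G) (n : ℕ) (x z : Y) : w.μ n (g • x) (g • z) = w.μ n x z := by
  rw [μ_eq_E, μ_eq_E, ← E_smul]
  congr 1
  funext y
  by_cases h : y = z
  · simp [h]
  · rw [if_neg h, if_neg fun h' => h (MulAction.injective g h')]

lemma μ_symm (n : ℕ) (x z : Y) : w.μ n x z = w.μ n z x := by
  classical
  induction n generalizing x z with
  | zero => simp [μ, Finsupp.single_apply, eq_comm]
  | succ n ih =>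
    rw [μ_succ_apply, w.μ_eq_E (n + 1) z x, ← E_P]
    have : w.P (fun y => if y = x then (1 : ℝ) else 0) = w.k x := by
      funext y
      simp only [P, smul_eq_mul, mul_ite, mul_one, mul_zero, sum_ite_eq']
      split_ifs with h
      · exact w.k_symm _ _
      · rw [w.k_symm, w.k_zero _ _ h]
    rw [this, E, lc_eq_sum _ _ (w.N x) (by intro y hy; simp [w.k_zero x y hy])]
    exact sum_congr rfl fun y _ => by rw [ih, smul_eq_mul, mul_comm]

lemma E_μ (n m : ℕ) (x z : Y) : w.E n (w.μ m z) x = w.μ (n + m) x z := by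
  rw [w.μ_eq_E (n + m), ← E_E]
  congr 1
  funext y
  rw [w.μ_symm, μ_eq_E]

lemma E_mono (n : ℕ) {f g : Y → ℝ} (h : ∀ z, f z ≤ g z) (x : Y) : w.E n f x ≤ w.E n g x := by
  rw [w.E_eq_sum n f x subset_rfl, w.E_eq_sum n g x subset_rfl]
  exact sum_le_sum fun z _ => mul_le_mul_of_nonneg_left (h z) (w.μ_nonneg n x z)

lemma norm_E_le {V : Type*} [NormedAddCommGroup V] [NormedSpace ℝ V] (n : ℕ) {f : Y → V} {M : ℝ}
    (h : ∀ z, ‖f z‖ ≤ M) (x : Y) : ‖w.E n f x‖ ≤ M := by
  rw [w.E_eq_sum n f x subset_rfl]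
  refine (norm_sum_le _ _).trans ?_
  calc ∑ z ∈ w.B n x, ‖w.μ n x z • f z‖ ≤ ∑ z ∈ w.B n x, w.μ n x z * M :=
        sum_le_sum fun z _ => by
          rw [norm_smul, Real.norm_of_nonneg (w.μ_nonneg n x z)]
          exact mul_le_mul_of_nonneg_left (h z) (w.μ_nonneg n x z)
    _ = M := by rw [← sum_mul, w.sum_μ n x subset_rfl, one_mul]

lemma B_subset_succ {n : ℕ} {x y : Y} (hy : y ∈ w.N x) : w.B n y ⊆ w.B (n + 1) x := by
  classical
  intro z hz
  simp only [B, mem_biUnion]; exact ⟨y, hy, hz⟩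

lemma B_mono (x : Y) : Monotone fun n => w.B n x :=
  monotone_nat_of_le_succ fun _ => w.B_subset_succ (w.self_mem_N x)

lemma mem_B_succ {n : ℕ} {x y z : Y} (hy : y ∈ w.B n x) (hz : z ∈ w.N y) : z ∈ w.B (n + 1) x := by
  classical
  induction n generalizing x with
  | zero =>
    simp only [B, mem_singleton] at hy
    subst hy
    simpa [B] using hz
  | succ n ih =>
    simp only [B, mem_biUnion] at hy
    obtain ⟨v, hv, hy⟩ := hy
    exact w.B_subset_succ hv (ih hy)

lemma mem_B_succ_iff {n : ℕ} {x z : Y} : z ∈ w.B (n + 1) x ↔ ∃ y ∈ w.B n x, z ∈ w.N y := by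
  classical
  refine ⟨fun h => ?_, fun ⟨y, hy, hz⟩ => w.mem_B_succ hy hz⟩
  induction n generalizing x with
  | zero => exact ⟨x, by simp [B], by simpa [B] using h⟩
  | succ n ih =>
    rw [B, mem_biUnion] at h
    obtain ⟨v, hv, h⟩ := h
    obtain ⟨y, hy, hz⟩ := ih h
    exact ⟨y, w.B_subset_succ hv hy, hz⟩

lemma exists_mem_B (x z : Y) : ∃ n, z ∈ w.B n x := by
  induction w.conn x z with
  | refl => exact ⟨0, by simp [B]⟩
  | tail _ h ih => obtain ⟨n, hn⟩ := ih; exact ⟨n + 1, w.mem_B_succ hn h⟩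

lemma smul_mem_B (g : G) {n : ℕ} {x z : Y} (h : z ∈ w.B n x) : g • z ∈ w.B n (g • x) := by
  induction n generalizing z with
  | zero => simp only [B, mem_singleton] at h ⊢; rw [h]
  | succ n ih =>
    obtain ⟨y, hy, hz⟩ := w.mem_B_succ_iff.1 h
    exact w.mem_B_succ (ih hy) ((w.smul_mem_N g).2 hz)

lemma lip_B {V : Type*} [NormedAddCommGroup V] {f : Y → V} {L : ℝ}
    (hf : ∀ x, ∀ y ∈ w.N x, ‖f y - f x‖ ≤ L) {n : ℕ} {x z : Y} (h : z ∈ w.B n x) :
    ‖f z - f x‖ ≤ n * L := by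
  induction n generalizing z with
  | zero => simp only [B, mem_singleton] at h; simp [h]
  | succ n ih =>
    obtain ⟨y, hy, hz⟩ := w.mem_B_succ_iff.1 h
    have := norm_sub_le_norm_sub_add_norm_sub (f z) (f y) (f x)
    push_cast
    linarith [hf y z hz, ih hy]

lemma const_of_edges {V : Type*} {f : Y → V} (hf : ∀ x, ∀ y ∈ w.N x, f y = f x) (x z : Y) :
    f z = f x := by
  induction w.conn x z with
  | refl => rfl
  | tail _ h ih => rw [hf _ _ h, ih]

end RW

end Pool.Agent.Lib.Gromov
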